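import Mathlib

/-!
# GH-POT: discrete potential theory on the tree of residue classes `c mod p^ν`

Paper proof: note 5024 on MP_370013_nt.
-/

open Polynomial

noncomputable section

namespace GH.Pot

/-- The substitution `X ↦ c + p^ν X`. -/
def sh (p : ℕ) [Fact p.Prime] (c ν : ℕ) (P : ℤ_[p][X]) : ℤ_[p][X] :=
  P.comp (C (c : ℤ_[p]) + C ((p : ℤ_[p]) ^ ν) * X)

/-- The Gauss valuation at the node `(c mod p^ν)`. -/
def gv (p : ℕ) [Fact p.Prime] (c ν : ℕ) (P : ℤ_[p][X]) : ℕ∞ :=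
  emultiplicity (C (p : ℤ_[p])) (sh p c ν P)

/-- `v_ν(c - m)` truncated at `ν`: the number of `k ∈ [1, ν]` with `m ≡ c mod p^k`. -/
def tau (p c ν m : ℕ) : ℕ := ((Finset.Icc 1 ν).filter fun k ↦ m ≡ c [MOD p ^ k]).card

/-- The `n × n` minors of an infinite matrix (arbitrary index functions). -/
def minor {R ι κ : Type*} [CommRing R] (M : ι → κ → R) {n : ℕ} (a : Fin n → ι) (b : Fin n → κ) :
    R :=
  (Matrix.of fun i j ↦ M (a i) (b j)).det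

/-- The leading minors. -/
def lead {R : Type*} [CommRing R] (M : ℕ → ℕ → R) (n : ℕ) : R :=
  minor M (fun i : Fin n ↦ (i : ℕ)) (fun i : Fin n ↦ (i : ℕ))

/-- The valuation of the leading minors at the nodes: `f n c ν = B n + ∑_m T n m τ(m)`. -/
def fv (p : ℕ) (B Z : ℕ → ℕ) (T : ℕ → ℕ → ℕ) (n c ν : ℕ) : ℕ :=
  B n + ∑ m ∈ Finset.range (Z n), T n m * tau p c ν m

/-- `h` is the lower convex hull of `f`, with integral slopes. -/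
structure IsHull (f : ℕ → ℕ) (h : ℕ → ℤ) : Prop where
  le : ∀ n, h n ≤ f n
  zero : h 0 = f 0
  convex : ∀ n, 2 * h (n + 1) ≤ h n + h (n + 2)
  lin : ∀ n, h (n + 1) < f (n + 1) → 2 * h (n + 1) = h n + h (n + 2)
  touch : ∀ n, ∃ b, n ≤ b ∧ h b = f b

/-- `n` is a strict vertex of the polygon `h`. -/
def Vtx (h : ℕ → ℤ) (n : ℕ) : Prop := n = 0 ∨ 2 * h n < h (n - 1) + h (n + 1)

/-- The combinatorial input (GH-COMB): the hull `h n c ν` of `n ↦ f n c ν` at every node. -/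
structure Comb (p : ℕ) (B Z : ℕ → ℕ) (T : ℕ → ℕ → ℕ) (s t : ℕ → ℕ)
    (h : ℕ → ℕ → ℕ → ℤ) : Prop where
  hull : ∀ c ν, IsHull (fun n ↦ fv p B Z T n c ν) (fun n ↦ h n c ν)
  /-- there are vertices within a bounded distance -/
  near : ∀ n, ∃ Q, ∀ c ν, ∃ b, n ≤ b ∧ b ≤ Q ∧ Vtx (fun k ↦ h k c ν) b
  /-- (K1) -/
  k1 : ∀ n c ν, Vtx (fun k ↦ h k c (ν + 1)) n →
    (fv p B Z T (n + 1) c ν : ℤ) - h (n + 1) c ν ≤
      fv p B Z T (n + 1) c (ν + 1) - h (n + 1) c (ν + 1)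
  /-- (K2) -/
  k2 : ∀ n c ν, Vtx (fun k ↦ h k c ν) n →
    (fv p B Z T (n + 1) c (ν + 1) : ℤ) - h (n + 1) c (ν + 1) ≤
      fv p B Z T (n + 1) c ν - h (n + 1) c ν + 1
  /-- (K3a) -/
  k3a : ∀ n c ν, Vtx (fun k ↦ h k c ν) n → h n c (ν + 1) = fv p B Z T n c (ν + 1)
  /-- (K3b) -/
  k3b : ∀ n c ν, Vtx (fun k ↦ h k c (ν + 1)) n → Vtx (fun k ↦ h k c ν) n
  /-- support of the tents -/
  supp : ∀ n m, Z n ≤ m → T n m = 0
  /-- the tents are finite -/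
  fin : ∀ m, ∃ N, ∀ n, N ≤ n → T n m = 0
  /-- the tent of `m` starts at `t m` -/
  start : ∀ n m, T n m = 0 → T (n + 1) m ≠ 0 → n = t m
  /-- the slope at the leaf `m` -/
  leaf : ∀ n m, T n m = 0 → T (n + 1) m ≠ 0 → ∃ b, n < b ∧ ∃ K, ∀ ν, K ≤ ν →
    (fv p B Z T b m ν : ℤ) ≤ fv p B Z T n m ν + s m * (b - n : ℕ)

/-- The input about the matrix (GH-MAT). -/
structure Mat (p : ℕ) [Fact p.Prime] (M : ℕ → ℕ → ℤ_[p][X]) (B Z : ℕ → ℕ) (T : ℕ → ℕ → ℕ)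
    (s t : ℕ → ℕ) : Prop where
  /-- (M1) the leading minors: `p^(B n) u ∏ (X - m)^(T n m)` with `u` a unit mod `p` -/
  lead : ∀ n, ∃ (u : ℤ_[p][X]) (z : (ℤ_[p])ˣ), C (p : ℤ_[p]) ∣ u - C (z : ℤ_[p]) ∧
    lead M n = C ((p : ℤ_[p]) ^ B n) * u *
      ∏ m ∈ Finset.range (Z n), (X - C (m : ℤ_[p])) ^ T n m
  /-- (M2) root dominance -/
  root : ∀ n (a b : Fin n → ℕ), (∃ i, n ≤ a i ∨ n ≤ b i) →
    ∀ c, ((B n + 1 : ℕ) : ℕ∞) ≤ gv p c 0 (minor M a b)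
  /-- (M3) corank at the integers which are zeros of some leading minor -/
  corank : ∀ m, (∃ n, T n m ≠ 0) → ∃ (x : ℕ → Fin (t m) → ℚ_[p]) (y : Fin (t m) → ℕ → ℚ_[p]),
    ∀ i j, ∃ z : ℤ_[p],
      (((M i j).eval (m : ℤ_[p]) : ℤ_[p]) : ℚ_[p]) = ∑ l, x i l * y l j + (p : ℚ_[p]) ^ s m * z

/-- `e n` at a node: the minimal valuation of the `n × n` minors. -/
def en (p : ℕ) [Fact p.Prime] (M : ℕ → ℕ → ℤ_[p][X]) (n c ν : ℕ) : ℕ∞ :=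
  ⨅ (a : Fin n → ℕ) (b : Fin n → ℕ), gv p c ν (minor M a b)

end GH.Pot
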