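import Pool.Agent.GH.Pot.Gv

/-!
# GH-POT, row P11: valuations of the leading minors at nodes and at points
-/

open Polynomial

noncomputable section

namespace GH.Pot

variable {p : ℕ} [Fact p.Prime] {M : ℕ → ℕ → ℤ_[p][X]} {B Z : ℕ → ℕ} {T : ℕ → ℕ → ℕ}
  {s t : ℕ → ℕ} {K : Type*} [NormedField K] [IsUltrametricDist K]

theorem lv_not_dvd_unit (z : (ℤ_[p])ˣ) : ¬ (C (p : ℤ_[p]) ∣ (C (z : ℤ_[p]) : ℤ_[p][X])) := by
  intro h
  rw [Polynomial.C_dvd_iff_dvd_coeff] at h
  have h1 := h 0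
  rw [coeff_C_zero] at h1
  have h2 : IsUnit (p : ℤ_[p]) := isUnit_of_dvd_unit h1 z.isUnit
  exact PadicInt.prime_p.not_isUnit h2

/-- a polynomial which is a unit constant mod `p` has valuation `0` at every node -/
theorem gv_unit {u : ℤ_[p][X]} {z : (ℤ_[p])ˣ} (h : C (p : ℤ_[p]) ∣ u - C (z : ℤ_[p]))
    (c ν : ℕ) : gv p c ν u = 0 := by
  unfold gv
  rw [emultiplicity_eq_zero]
  intro hd
  obtain ⟨q, hq⟩ := h
  have h1 : sh p c ν u = C (z : ℤ_[p]) + C (p : ℤ_[p]) * sh p c ν q := by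
    have : u = C (z : ℤ_[p]) + C (p : ℤ_[p]) * q := by
      rw [← hq]
      ring
    unfold sh
    conv_lhs => rw [this]
    rw [add_comp, mul_comp, C_comp, C_comp]
  rw [h1] at hd
  exact lv_not_dvd_unit z ((dvd_add_left (dvd_mul_right _ _)).1 hd)

theorem lv_gv_pow (c ν : ℕ) (P : ℤ_[p][X]) (k : ℕ) : gv p c ν (P ^ k) = k * gv p c ν P := by
  induction k with
  | zero => simp [gv_one]
  | succ k ih =>
    rw [pow_succ, gv_mul, ih]
    push_cast
    ring

theorem lv_gv_prod {ι : Type*} (s : Finset ι) (c ν : ℕ) (P : ι → ℤ_[p][X]) :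
    gv p c ν (∏ i ∈ s, P i) = ∑ i ∈ s, gv p c ν (P i) := by
  classical
  induction s using Finset.induction_on with
  | empty => simp [gv_one]
  | insert a s ha ih => rw [Finset.prod_insert ha, Finset.sum_insert ha, gv_mul, ih]

theorem lv_gv_C_pow (c ν k : ℕ) : gv p c ν (C ((p : ℤ_[p]) ^ k)) = k := by
  unfold gv sh
  rw [C_comp, C_pow]
  exact emultiplicity_pow_self prime_C.ne_zero prime_C.not_isUnit k

theorem gv_lead (hM : Mat p M B Z T s t) (n c ν : ℕ) :
    gv p c ν (lead M n) = fv p B Z T n c ν := by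
  obtain ⟨u, z, hu, hl⟩ := hM.lead n
  rw [hl, gv_mul, gv_mul, lv_gv_C_pow, gv_unit hu, add_zero, lv_gv_prod]
  unfold fv
  push_cast
  congr 1
  refine Finset.sum_congr rfl fun m _ => ?_
  rw [lv_gv_pow, gv_X_sub]

theorem lv_norm_eval_le (φ : ℤ_[p] →+* K) (hφ : ∀ z, ‖φ z‖ = ‖z‖) {y : K} (hy : ‖y‖ ≤ 1)
    (q : ℤ_[p][X]) : ‖q.eval₂ φ y‖ ≤ 1 := by
  rw [eval₂_eq_sum_range]
  refine IsUltrametricDist.norm_sum_le_of_forall_le_of_nonneg zero_le_one fun i _ => ?_
  rw [norm_mul, norm_pow, hφ]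
  exact mul_le_one₀ (PadicInt.norm_le_one _) (by positivity) (pow_le_one₀ (norm_nonneg _) hy)

theorem norm_lead (hM : Mat p M B Z T s t) (φ : ℤ_[p] →+* K) (hφ : ∀ z, ‖φ z‖ = ‖z‖) {y : K}
    (hy : ‖y‖ ≤ 1) (n : ℕ) : ‖(lead M n).eval₂ φ y‖ =
      (p : ℝ) ^ (-(B n : ℝ)) * ∏ m ∈ Finset.range (Z n), ‖y - (m : K)‖ ^ T n m := by
  obtain ⟨u, z, ⟨q, hq⟩, hl⟩ := hM.lead n
  have hp : (1 : ℝ) < p := by exact_mod_cast (Fact.out : p.Prime).one_lt
  rw [hl, eval₂_mul, eval₂_mul, norm_mul, norm_mul, eval₂_C, hφ, PadicInt.norm_p_pow]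
  have hu : ‖u.eval₂ φ y‖ = 1 := by
    have h1 : u = C (z : ℤ_[p]) + C (p : ℤ_[p]) * q := by
      rw [← hq]
      ring
    rw [h1, eval₂_add, eval₂_mul, eval₂_C, eval₂_C]
    have h2 : ‖φ (z : ℤ_[p])‖ = 1 := by rw [hφ, PadicInt.norm_units]
    have h3 : ‖φ (p : ℤ_[p]) * q.eval₂ φ y‖ < ‖φ (z : ℤ_[p])‖ := by
      rw [h2, norm_mul, hφ, PadicInt.norm_p]
      calc (p : ℝ)⁻¹ * ‖q.eval₂ φ y‖ ≤ (p : ℝ)⁻¹ * 1 :=
            mul_le_mul_of_nonneg_left (lv_norm_eval_le φ hφ hy q) (by positivity)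
        _ < 1 := by
            rw [mul_one]
            exact inv_lt_one_of_one_lt₀ hp
    have h4 := IsUltrametricDist.norm_add_eq_max_of_norm_ne_norm h3.ne'
    rw [h4, max_eq_left h3.le, h2]
  rw [hu, mul_one]
  congr 1
  · rw [zpow_neg, zpow_natCast, Real.rpow_neg (by positivity), Real.rpow_natCast]
  · rw [← coe_eval₂RingHom, map_prod, norm_prod]
    refine Finset.prod_congr rfl fun m _ => ?_
    rw [map_pow, norm_pow, coe_eval₂RingHom, eval₂_sub, eval₂_X, eval₂_C, map_natCast]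

theorem lv_minor_eq {n : ℕ} (M : ℕ → ℕ → ℤ_[p][X]) (a b : Fin n → ℕ) (ha : ∀ i, a i < n)
    (hb : ∀ i, b i < n) (hai : Function.Injective a) (hbi : Function.Injective b) :
    minor M a b = lead M n ∨ minor M a b = - lead M n := by
  have hai' : Function.Injective (fun i => (⟨a i, ha i⟩ : Fin n)) := fun i j hij =>
    hai (by simpa using hij)
  have hbi' : Function.Injective (fun i => (⟨b i, hb i⟩ : Fin n)) := fun i j hij =>
    hbi (by simpa using hij)
  let σ : Equiv.Perm (Fin n) := Equiv.ofBijective _ (Finite.injective_iff_bijective.1 hai')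
  let τ : Equiv.Perm (Fin n) := Equiv.ofBijective _ (Finite.injective_iff_bijective.1 hbi')
  set L : Matrix (Fin n) (Fin n) ℤ_[p][X] := Matrix.of fun i j : Fin n => M i j with hL
  have h1 : minor M a b = ((L.submatrix σ id).submatrix id τ).det := rfl
  have h2 : lead M n = L.det := rfl
  rw [h1, h2, Matrix.det_permute', Matrix.det_permute]
  rcases Int.units_eq_one_or (Equiv.Perm.sign σ) with h | h <;>
    rcases Int.units_eq_one_or (Equiv.Perm.sign τ) with h' | h' <;> simp [h, h']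

/-- at the root all minors have valuation `≥ B n` -/
theorem root_le (hM : Mat p M B Z T s t) {n : ℕ} (a b : Fin n → ℕ) (c : ℕ) :
    (B n : ℕ∞) ≤ gv p c 0 (minor M a b) := by
  by_cases hab : ∃ i, n ≤ a i ∨ n ≤ b i
  · refine le_trans ?_ (hM.root n a b hab c)
    exact_mod_cast Nat.le_succ _
  push Not at hab
  by_cases hai : Function.Injective a
  · by_cases hbi : Function.Injective b
    · have h0 : gv p c 0 (lead M n) = B n := by rw [gv_lead hM, fv_root]
      rcases lv_minor_eq M a b (fun i => (hab i).1) (fun i => (hab i).2) hai hbi with h | h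
      · rw [h, h0]
      · rw [h, gv_neg, h0]
    · have hz : minor M a b = 0 := by
        unfold Function.Injective at hbi
        push Not at hbi
        obtain ⟨i, j, hij, hne⟩ := hbi
        exact Matrix.det_zero_of_column_eq hne fun k => by simp [hij]
      rw [hz, gv_zero]
      exact le_top
  · have hz : minor M a b = 0 := by
      unfold Function.Injective at hai
      push Not at hai
      obtain ⟨i, j, hij, hne⟩ := hai
      refine Matrix.det_zero_of_row_eq hne ?_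
      funext k
      simp [hij]
    rw [hz, gv_zero]
    exact le_top

end GH.Pot
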