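import Pool.Agent.GH.Pot.Gv

/-! Row P9: from the nodes to the points of the closed unit disc (helper10). -/

open Polynomial

noncomputable section

namespace GH.Pot

variable {p : ℕ} [Fact p.Prime] {K : Type*} [NormedField K] [IsUltrametricDist K]

/-! ### Helper lemmas (prefix `rt_`) -/

theorem rt_one_lt : (1 : ℝ) < p := by
  exact_mod_cast (Fact.out : p.Prime).one_lt

theorem rt_pos : (0 : ℝ) < p := zero_lt_one.trans rt_one_lt

theorem rt_rpow_neg_nat (k : ℕ) : (p : ℝ) ^ (-(k : ℝ)) = (p : ℝ) ^ (-(k : ℤ)) := by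
  rw [← Real.rpow_intCast]
  push_cast
  rfl

theorem rt_norm_le_of_dvd {z : ℤ_[p]} {k : ℕ} (h : (p : ℤ_[p]) ^ k ∣ z) :
    ‖z‖ ≤ (p : ℝ) ^ (-(k : ℝ)) := by
  rw [rt_rpow_neg_nat, PadicInt.norm_le_pow_iff_mem_span_pow, Ideal.mem_span_singleton]
  exact h

/-- The coefficients of the Taylor expansion at `c`. -/
theorem rt_coeff (P : ℤ_[p][X]) (c ν j : ℕ) :
    (sh p c ν P).coeff j = (P.comp (X + C (c : ℤ_[p]))).coeff j * ((p : ℤ_[p]) ^ ν) ^ j := by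
  have h1 : sh p c ν P = (P.comp (X + C (c : ℤ_[p]))).comp (C ((p : ℤ_[p]) ^ ν) * X) := by
    rw [sh, comp_assoc, add_comp, X_comp, C_comp, add_comm]
  rw [h1, comp_C_mul_X_coeff]

theorem rt_coeff_le (P : ℤ_[p][X]) (c ν j k : ℕ) (hk : (k : ℕ∞) ≤ gv p c ν P) :
    ‖(P.comp (X + C (c : ℤ_[p]))).coeff j‖ ≤ (p : ℝ) ^ ((ν : ℝ) * j - k) := by
  rw [le_gv_iff, C_dvd_iff_dvd_coeff] at hk
  have h1 := rt_norm_le_of_dvd (hk j)
  rw [rt_coeff, norm_mul, norm_pow, norm_pow, PadicInt.norm_p] at h1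
  have h2 : ((p : ℝ)⁻¹ ^ ν) ^ j = (p : ℝ) ^ (-((ν : ℝ) * j)) := by
    rw [← pow_mul, inv_pow, Real.rpow_neg rt_pos.le, ← Nat.cast_mul, Real.rpow_natCast]
  rw [h2] at h1
  have h3 : (0 : ℝ) < (p : ℝ) ^ ((ν : ℝ) * j) := Real.rpow_pos_of_pos rt_pos _
  calc ‖(P.comp (X + C (c : ℤ_[p]))).coeff j‖ =
      (‖(P.comp (X + C (c : ℤ_[p]))).coeff j‖ * (p : ℝ) ^ (-((ν : ℝ) * j))) *
        (p : ℝ) ^ ((ν : ℝ) * j) := by
        rw [mul_assoc, ← Real.rpow_add rt_pos, neg_add_cancel, Real.rpow_zero, mul_one]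
    _ ≤ (p : ℝ) ^ (-(k : ℝ)) * (p : ℝ) ^ ((ν : ℝ) * j) := by gcongr
    _ = (p : ℝ) ^ ((ν : ℝ) * j - k) := by
        rw [← Real.rpow_add rt_pos]
        congr 1
        ring

/-- Distances of natural numbers. -/
theorem rt_dist (φ : ℤ_[p] →+* K) (hφ : ∀ z, ‖φ z‖ = ‖z‖) (c m : ℕ) :
    (m = c) ∨ ∃ v : ℕ, ‖(m : K) - (c : K)‖ = (p : ℝ) ^ (-(v : ℝ)) ∧
      ∀ k, m ≡ c [MOD p ^ k] ↔ k ≤ v := by
  by_cases hmc : m = c
  · exact Or.inl hmc
  right
  have hz : ((m : ℤ_[p]) - (c : ℤ_[p])) ≠ 0 := by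
    rw [sub_ne_zero, Ne, Nat.cast_inj]
    exact hmc
  refine ⟨((m : ℤ_[p]) - (c : ℤ_[p])).valuation, ?_, fun k => ?_⟩
  · rw [rt_rpow_neg_nat, ← PadicInt.norm_eq_zpow_neg_valuation hz, ← hφ, map_sub, map_natCast,
      map_natCast]
  · rw [← PadicInt.norm_le_pow_iff_le_valuation _ hz]
    have h1 : ((m : ℤ_[p]) - (c : ℤ_[p])) = (((m : ℤ) - (c : ℤ) : ℤ) : ℤ_[p]) := by push_cast; rfl
    rw [h1, PadicInt.norm_int_le_pow_iff_dvd, Nat.ModEq.comm, Nat.modEq_iff_dvd]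
    push_cast
    rfl

/-- The value of `tau` at distance `v`. -/
theorem rt_tau {c m v : ℕ} (h : ∀ k, m ≡ c [MOD p ^ k] ↔ k ≤ v) (μ : ℕ) :
    tau p c μ m = min μ v := by
  unfold tau
  have h1 : (Finset.Icc 1 μ).filter (fun k ↦ m ≡ c [MOD p ^ k]) = Finset.Icc 1 (min μ v) := by
    ext k
    rw [Finset.mem_filter, Finset.mem_Icc, Finset.mem_Icc, h k]
    omega
  rw [h1, Nat.card_Icc]
  omega

theorem rt_norm_sub_of_lt {x y : K} (h : ‖y‖ < ‖x‖) : ‖x - y‖ = ‖x‖ := by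
  have h1 := IsUltrametricDist.norm_add_eq_max_of_norm_ne_norm (x := x) (y := -y)
    (by rw [norm_neg]; exact h.ne')
  rw [← sub_eq_add_neg, norm_neg, max_eq_left h.le] at h1
  exact h1

theorem rt_norm_sub_le_max (x y : K) : ‖x - y‖ ≤ max ‖x‖ ‖y‖ := by
  have h := IsUltrametricDist.norm_add_le_max x (-y)
  rwa [← sub_eq_add_neg, norm_neg] at h

/-! ### The statements of the row -/

/-- Bound of a polynomial on a disc, with interpolation between two nodes. -/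
theorem norm_eval_le (φ : ℤ_[p] →+* K) (hφ : ∀ z, ‖φ z‖ = ‖z‖) (P : ℤ_[p][X]) (c ν : ℕ)
    {θ : ℝ} (h0 : 0 ≤ θ) (h1 : θ ≤ 1) {k l : ℕ} (hk : (k : ℕ∞) ≤ gv p c ν P)
    (hl : (l : ℕ∞) ≤ gv p c (ν + 1) P) {y : K} (hy : ‖y - (c : K)‖ ≤ (p : ℝ) ^ (-(ν + θ : ℝ))) :
    ‖P.eval₂ φ y‖ ≤ (p : ℝ) ^ (-((1 - θ) * k + θ * l : ℝ)) := by
  set Q := P.comp (X + C (c : ℤ_[p])) with hQ
  have hPQ : P.eval₂ φ y = Q.eval₂ φ (y - c) := by
    rw [hQ, eval₂_comp, eval₂_add, eval₂_X, eval₂_C, map_natCast, sub_add_cancel]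
  rw [hPQ, eval₂_eq_sum_range]
  refine IsUltrametricDist.norm_sum_le_of_forall_le_of_nonneg (Real.rpow_nonneg rt_pos.le _)
    fun j _ => ?_
  rw [norm_mul, hφ, norm_pow]
  have ha := rt_coeff_le P c ν j k hk
  have hb := rt_coeff_le P c (ν + 1) j l hl
  have hab : ‖Q.coeff j‖ ≤
      (p : ℝ) ^ ((1 - θ) * ((ν : ℝ) * j - k) + θ * (((ν + 1 : ℕ) : ℝ) * j - l)) := by
    rcases le_total ((ν : ℝ) * j - k) (((ν + 1 : ℕ) : ℝ) * j - l) with h | h
    · refine ha.trans (Real.rpow_le_rpow_of_exponent_le rt_one_lt.le ?_)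
      nlinarith
    · refine hb.trans (Real.rpow_le_rpow_of_exponent_le rt_one_lt.le ?_)
      nlinarith
  have hyj : ‖y - (c : K)‖ ^ j ≤ (p : ℝ) ^ (-(ν + θ : ℝ) * j) := by
    rw [Real.rpow_mul rt_pos.le, Real.rpow_natCast]
    exact pow_le_pow_left₀ (norm_nonneg _) hy j
  calc ‖Q.coeff j‖ * ‖y - (c : K)‖ ^ j ≤
      (p : ℝ) ^ ((1 - θ) * ((ν : ℝ) * j - k) + θ * (((ν + 1 : ℕ) : ℝ) * j - l)) *
        (p : ℝ) ^ (-(ν + θ : ℝ) * j) :=
        mul_le_mul hab hyj (by positivity) (Real.rpow_nonneg rt_pos.le _)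
    _ = (p : ℝ) ^ (-((1 - θ) * k + θ * l : ℝ)) := by
        rw [← Real.rpow_add rt_pos]
        congr 1
        push_cast
        ring

/-- A point of the closed unit disc is a limit of natural numbers or it retracts to a point of the
tree. -/
theorem retract (φ : ℤ_[p] →+* K) (hφ : ∀ z, ‖φ z‖ = ‖z‖) {y : K} (hy : ‖y‖ ≤ 1) :
    (∀ ν : ℕ, ∃ c : ℕ, ‖y - (c : K)‖ ≤ (p : ℝ) ^ (-(ν : ℝ))) ∨
    ∃ (c ν : ℕ) (θ : ℝ), 0 ≤ θ ∧ θ < 1 ∧ ‖y - (c : K)‖ = (p : ℝ) ^ (-(ν + θ : ℝ)) ∧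
      ∀ m : ℕ, ‖y - (m : K)‖ =
        (p : ℝ) ^ (-((1 - θ) * tau p c ν m + θ * tau p c (ν + 1) m : ℝ)) := by
  by_cases hall : ∀ ν : ℕ, ∃ c : ℕ, ‖y - (c : K)‖ ≤ (p : ℝ) ^ (-(ν : ℝ))
  · exact Or.inl hall
  right
  push Not at hall
  obtain ⟨N, hN⟩ := hall
  have hppos : 0 < p ^ N := pow_pos (Fact.out : p.Prime).pos N
  obtain ⟨c, hc, hmin⟩ := Finset.exists_min_image (Finset.range (p ^ N))
    (fun c : ℕ => ‖y - (c : K)‖) ⟨0, Finset.mem_range.2 hppos⟩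
  -- `c` is a minimiser over all natural numbers
  have hmin' : ∀ m : ℕ, ‖y - (c : K)‖ ≤ ‖y - (m : K)‖ := by
    intro m
    have h1 := hmin (m % p ^ N) (Finset.mem_range.2 (Nat.mod_lt _ hppos))
    refine h1.trans (le_of_eq ?_)
    have h2 : ‖(m : K) - ((m % p ^ N : ℕ) : K)‖ ≤ (p : ℝ) ^ (-(N : ℝ)) := by
      rcases rt_dist φ hφ (m % p ^ N) m with h | ⟨v, hv, hv'⟩
      · rw [← h, sub_self, norm_zero]
        exact Real.rpow_nonneg rt_pos.le _
      · rw [hv]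
        have h3 : N ≤ v := (hv' N).1 (Nat.mod_modEq m (p ^ N)).symm
        apply Real.rpow_le_rpow_of_exponent_le rt_one_lt.le
        have : (N : ℝ) ≤ v := by exact_mod_cast h3
        linarith
    have h4 : y - ((m % p ^ N : ℕ) : K) = (y - (m : K)) - (((m % p ^ N : ℕ) : K) - (m : K)) := by
      ring
    rw [h4]
    apply rt_norm_sub_of_lt
    rw [norm_sub_rev]
    exact h2.trans_lt (hN m)
  have hpos : 0 < ‖y - (c : K)‖ := (Real.rpow_pos_of_pos rt_pos _).trans (hN c)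
  have hle1 : ‖y - (c : K)‖ ≤ 1 := by
    refine (hmin' 0).trans ?_
    rw [Nat.cast_zero, sub_zero]
    exact hy
  obtain ⟨g, hg⟩ : ∃ g : ℝ, ‖y - (c : K)‖ = (p : ℝ) ^ (-g) := by
    refine ⟨-Real.logb p ‖y - (c : K)‖, ?_⟩
    rw [neg_neg, Real.rpow_logb rt_pos rt_one_lt.ne' hpos]
  have hg0 : 0 ≤ g := by
    rw [hg] at hle1
    by_contra hlt
    push Not at hlt
    have : (1 : ℝ) < (p : ℝ) ^ (-g) := Real.one_lt_rpow rt_one_lt (by linarith)
    linarith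
  refine ⟨c, ⌊g⌋₊, g - ⌊g⌋₊, sub_nonneg.2 (Nat.floor_le hg0), ?_, ?_, fun m => ?_⟩
  · have := Nat.lt_floor_add_one g
    linarith
  · rw [hg]
    congr 1
    ring
  · have hfl := Nat.floor_le hg0
    have hfl' := Nat.lt_floor_add_one g
    rcases rt_dist φ hφ c m with h | ⟨v, hv, hv'⟩
    · subst h
      rw [tau_self, tau_self, hg]
      congr 1
      push_cast
      ring
    · rw [rt_tau hv', rt_tau hv']
      have hym : y - (m : K) = (y - (c : K)) - ((m : K) - (c : K)) := by ring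
      by_cases hvν : ⌊g⌋₊ + 1 ≤ v
      · rw [min_eq_left (by omega), min_eq_left (by omega), hym, rt_norm_sub_of_lt]
        · rw [hg]
          congr 1
          push_cast
          ring
        · rw [hv, hg]
          apply Real.rpow_lt_rpow_of_exponent_lt rt_one_lt
          have : ((⌊g⌋₊ + 1 : ℕ) : ℝ) ≤ v := by exact_mod_cast hvν
          push_cast at this
          linarith
      · rw [min_eq_right (by omega), min_eq_right (by omega)]
        have h5 : (p : ℝ) ^ (-((1 - (g - ⌊g⌋₊)) * (v : ℝ) + (g - ⌊g⌋₊) * (v : ℝ))) =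
            (p : ℝ) ^ (-(v : ℝ)) := by
          congr 1
          ring
        rw [h5]
        rcases lt_or_ge (v : ℝ) g with h6 | h6
        · rw [hym, norm_sub_rev, rt_norm_sub_of_lt, hv]
          rw [hv, hg]
          exact Real.rpow_lt_rpow_of_exponent_lt rt_one_lt (by linarith)
        · have h7 : (v : ℝ) ≤ ⌊g⌋₊ := by
            have : v ≤ ⌊g⌋₊ := by omega
            exact_mod_cast this
          have h8 : g = v := le_antisymm h6 (h7.trans hfl)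
          apply le_antisymm
          · rw [hym]
            refine (rt_norm_sub_le_max _ _).trans (max_le ?_ ?_)
            · rw [hg, h8]
            · rw [hv]
          · rw [← h8, ← hg]
            exact hmin' m

/-- In the first case the distances are the ones of a deep node. -/
theorem norm_sub_of_close (φ : ℤ_[p] →+* K) (hφ : ∀ z, ‖φ z‖ = ‖z‖) {y : K} {c ν m : ℕ}
    (hc : ‖y - (c : K)‖ ≤ (p : ℝ) ^ (-(ν : ℝ))) :
    ‖y - (m : K)‖ = (p : ℝ) ^ (-(tau p c ν m : ℝ)) ∨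
      (m ≡ c [MOD p ^ ν] ∧ ‖y - (m : K)‖ ≤ (p : ℝ) ^ (-(ν : ℝ))) := by
  rcases rt_dist φ hφ c m with h | ⟨v, hv, hv'⟩
  · subst h
    exact Or.inr ⟨Nat.ModEq.refl _, hc⟩
  · have hym : y - (m : K) = (y - (c : K)) - ((m : K) - (c : K)) := by ring
    by_cases hvν : ν ≤ v
    · right
      refine ⟨(hv' ν).2 hvν, ?_⟩
      rw [hym]
      refine (rt_norm_sub_le_max _ _).trans (max_le hc ?_)
      rw [hv]
      apply Real.rpow_le_rpow_of_exponent_le rt_one_lt.le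
      have : (ν : ℝ) ≤ v := by exact_mod_cast hvν
      linarith
    · left
      rw [rt_tau hv', min_eq_right (by omega), hym, norm_sub_rev, rt_norm_sub_of_lt, hv]
      rw [hv]
      refine hc.trans_lt ?_
      apply Real.rpow_lt_rpow_of_exponent_lt rt_one_lt
      have : (v : ℝ) < ν := by exact_mod_cast not_le.1 hvν
      linarith

end GH.Pot
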