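import Pool.Agent.GH.Pot.Weak

/-!
# GH-POT, row P8: Theorem 2 (strictness)
-/

open Polynomial

noncomputable section

namespace GH.Pot

variable {p : ℕ} [Fact p.Prime] {M : ℕ → ℕ → ℤ_[p][X]} {B Z : ℕ → ℕ} {T : ℕ → ℕ → ℕ}
  {s t : ℕ → ℕ} {h : ℕ → ℕ → ℕ → ℤ}

/-- the hull depends only on the class -/
theorem st_hull_congr (hC : Comb p B Z T s t h) {c c' ν : ℕ} (hc : c ≡ c' [MOD p ^ ν]) :
    (fun k ↦ h k c ν) = fun k ↦ h k c' ν := by
  have h1 := hC.hull c ν
  have h2 := hC.hull c' ν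
  have h3 : (fun n ↦ fv p B Z T n c ν) = fun n ↦ fv p B Z T n c' ν :=
    funext fun n => fv_congr hc B Z T n
  rw [← h3] at h2
  exact h1.unique h2

omit [Fact p.Prime] in
theorem st_class (c ε ν : ℕ) : c + ε * p ^ ν ≡ c [MOD p ^ ν] := by
  unfold Nat.ModEq
  rw [Nat.add_mul_mod_self_right]

/-- THEOREM 2. -/
theorem strict (hC : Comb p B Z T s t h) (hM : Mat p M B Z T s t) (n : ℕ) (a b : Fin n → ℕ)
    (hab : ∃ i, n ≤ a i ∨ n ≤ b i) (c ν : ℕ) (hv : Vtx (fun k ↦ h k c ν) n) :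
    ((fv p B Z T n c ν + 1 : ℕ) : ℕ∞) ≤ gv p c ν (minor M a b) := by
  by_cases hP : minor M a b = 0
  · rw [hP, gv_zero]
    exact le_top
  induction ν generalizing c with
  | zero =>
    rw [fv_root]
    exact hM.root n a b hab c
  | succ ν ih =>
    have ih' := ih c (hC.k3b n c ν hv)
    obtain ⟨g0, hg0⟩ := ENat.ne_top_iff_exists.1 (gv_ne_top hP c ν)
    obtain ⟨g1, hg1⟩ := ENat.ne_top_iff_exists.1 (gv_ne_top hP c (ν + 1))
    -- `h = f` at the vertex
    have hf1 : h n c (ν + 1) = fv p B Z T n c (ν + 1) := (hC.hull c (ν + 1)).eq_of_vtx hv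
    have hw := weak hC hM n a b c (ν + 1)
    rw [hf1, Int.toNat_natCast, ← hg1] at hw
    rw [← hg0] at ih'
    rw [← hg1]
    have hw' : fv p B Z T n c (ν + 1) ≤ g1 := by exact_mod_cast hw
    have ih2 : fv p B Z T n c ν + 1 ≤ g0 := by exact_mod_cast ih'
    by_contra hlt
    have hlt' : g1 < fv p B Z T n c (ν + 1) + 1 := by
      rw [not_le] at hlt
      exact_mod_cast hlt
    have heq : g1 = fv p B Z T n c (ν + 1) := by omega
    -- the children
    have hchild : ∀ ε, (fv p B Z T n (c + ε * p ^ (ν + 1)) (ν + 2) : ℤ) ≤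
        ((gv p (c + ε * p ^ (ν + 1)) (ν + 2) (minor M a b)).toNat : ℤ) := by
      intro ε
      have hcl : c + ε * p ^ (ν + 1) ≡ c [MOD p ^ (ν + 1)] := st_class c ε (ν + 1)
      have hvc : Vtx (fun k ↦ h k (c + ε * p ^ (ν + 1)) (ν + 1)) n := by
        rw [st_hull_congr hC hcl]
        exact hv
      have hk := hC.k3a n (c + ε * p ^ (ν + 1)) (ν + 1) hvc
      have hw2 := weak hC hM n a b (c + ε * p ^ (ν + 1)) (ν + 1 + 1)
      rw [hk, Int.toNat_natCast] at hw2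
      obtain ⟨g2, hg2⟩ := ENat.ne_top_iff_exists.1
        (gv_ne_top hP (c + ε * p ^ (ν + 1)) (ν + 2))
      rw [← hg2, ENat.toNat_natCast]
      rw [show ν + 1 + 1 = ν + 2 from rfl, ← hg2] at hw2
      exact_mod_cast hw2
    have hsup := gv_super hP c ν
    have hharm := fv_harm (p := p) B Z T n c ν
    rw [← hg0, ← hg1, ENat.toNat_natCast, ENat.toNat_natCast] at hsup
    have hsum : ∑ ε ∈ Finset.range p, ((fv p B Z T n (c + ε * p ^ (ν + 1)) (ν + 2) : ℤ) -
        fv p B Z T n c (ν + 1)) ≤ ∑ ε ∈ Finset.range p,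
        (((gv p (c + ε * p ^ (ν + 1)) (ν + 2) (minor M a b)).toNat : ℤ) - g1) := by
      refine Finset.sum_le_sum fun ε _ => ?_
      have := hchild ε
      omega
    rw [hharm] at hsum
    have := hsum.trans hsup
    omega

end GH.Pot
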