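import Pool.Agent.GH.Pot.Defs

/-!
# GH-POT, version for one residue disc `x ≡ ρ mod p`, the root being the Gauss point of `|x| ≤ 1`

Nodes are the classes `c mod p^ν`, `c ≡ ρ mod p`, `ν ≥ 0`.
-/

open Polynomial

noncomputable section

namespace GH.Pot

/-- The combinatorial input: `Comb` for the classes `c ≡ ρ mod p`. -/
structure CombA (p ρ : ℕ) (B Z : ℕ → ℕ) (T : ℕ → ℕ → ℕ) (s t : ℕ → ℕ)
    (h : ℕ → ℕ → ℕ → ℤ) : Prop where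
  hull : ∀ c ν, c ≡ ρ [MOD p] → IsHull (fun n ↦ fv p B Z T n c ν) (fun n ↦ h n c ν)
  /-- there are vertices within a bounded distance -/
  near : ∀ n, ∃ Q, ∀ c ν, c ≡ ρ [MOD p] → ∃ b, n ≤ b ∧ b ≤ Q ∧ Vtx (fun k ↦ h k c ν) b
  /-- (K1) -/
  k1 : ∀ n c ν, c ≡ ρ [MOD p] → Vtx (fun k ↦ h k c (ν + 1)) n →
    (fv p B Z T (n + 1) c ν : ℤ) - h (n + 1) c ν ≤
      fv p B Z T (n + 1) c (ν + 1) - h (n + 1) c (ν + 1)
  /-- (K2) -/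
  k2 : ∀ n c ν, c ≡ ρ [MOD p] → Vtx (fun k ↦ h k c ν) n →
    (fv p B Z T (n + 1) c (ν + 1) : ℤ) - h (n + 1) c (ν + 1) ≤
      fv p B Z T (n + 1) c ν - h (n + 1) c ν + 1
  /-- (K3a) -/
  k3a : ∀ n c ν, c ≡ ρ [MOD p] → Vtx (fun k ↦ h k c ν) n →
    h n c (ν + 1) = fv p B Z T n c (ν + 1)
  /-- (K3b) -/
  k3b : ∀ n c ν, c ≡ ρ [MOD p] → Vtx (fun k ↦ h k c (ν + 1)) n → Vtx (fun k ↦ h k c ν) n
  /-- support of the tents -/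
  supp : ∀ n m, Z n ≤ m → T n m = 0
  /-- the centres are in the residue disc -/
  cls : ∀ n m, T n m ≠ 0 → m ≡ ρ [MOD p]
  /-- the tents are finite -/
  fin : ∀ m, ∃ N, ∀ n, N ≤ n → T n m = 0
  /-- the tent of `m` starts at `t m` -/
  start : ∀ n m, T n m = 0 → T (n + 1) m ≠ 0 → n = t m
  /-- the slope at the leaf `m` -/
  leaf : ∀ n m, T n m = 0 → T (n + 1) m ≠ 0 → ∃ b, n < b ∧ ∃ K, ∀ ν, K ≤ ν →
    (fv p B Z T b m ν : ℤ) ≤ fv p B Z T n m ν + s m * (b - n : ℕ)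

/-- The input about the matrix. -/
structure MatA (p ρ : ℕ) [Fact p.Prime] (M : ℕ → ℕ → ℤ_[p][X]) (B Z : ℕ → ℕ)
    (T : ℕ → ℕ → ℕ) (s t : ℕ → ℕ) : Prop where
  /-- (M1) the leading minors: `p^(B n) u ∏ (X - m)^(T n m)` with `u(ρ)` a unit -/
  lead : ∀ n, ∃ u : ℤ_[p][X], IsUnit (u.eval (ρ : ℤ_[p])) ∧
    lead M n = C ((p : ℤ_[p]) ^ B n) * u *
      ∏ m ∈ Finset.range (Z n), (X - C (m : ℤ_[p])) ^ T n m
  /-- (M2) at the root no minor is smaller than the leading one -/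
  root : ∀ n (a b : Fin n → ℕ), (B n : ℕ∞) ≤ gv p ρ 0 (minor M a b)
  /-- (M3) corank at the integers which are zeros of some leading minor -/
  corank : ∀ m, (∃ n, T n m ≠ 0) → ∃ (x : ℕ → Fin (t m) → ℚ_[p]) (y : Fin (t m) → ℕ → ℚ_[p]),
    ∀ i j, ∃ z : ℤ_[p],
      (((M i j).eval (m : ℤ_[p]) : ℤ_[p]) : ℚ_[p]) = ∑ l, x i l * y l j + (p : ℚ_[p]) ^ s m * z

end GH.Pot
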