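import Pool.Agent.GH.Pot.Defs

/-! Basic properties of the Gauss valuations `gv`. -/

open Polynomial

noncomputable section

namespace GH.Pot

variable {p : ℕ} [Fact p.Prime]

theorem prime_C : Prime (C (p : ℤ_[p]) : ℤ_[p][X]) :=
  Polynomial.prime_C_iff.2 PadicInt.prime_p

theorem gv_mul (c ν : ℕ) (P Q : ℤ_[p][X]) : gv p c ν (P * Q) = gv p c ν P + gv p c ν Q := by
  unfold gv sh
  rw [mul_comp]
  exact emultiplicity_mul prime_C

theorem gv_neg (c ν : ℕ) (P : ℤ_[p][X]) : gv p c ν (-P) = gv p c ν P := by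
  unfold gv sh
  rw [neg_comp, emultiplicity_neg]

theorem gv_zero (c ν : ℕ) : gv p c ν (0 : ℤ_[p][X]) = ⊤ := by
  unfold gv sh
  rw [zero_comp, emultiplicity_zero]

theorem gv_one (c ν : ℕ) : gv p c ν (1 : ℤ_[p][X]) = 0 := by
  unfold gv sh
  rw [one_comp]
  exact (multiplicity_addValuation (prime_C (p := p))).map_one

theorem gv_sh_ne_zero {P : ℤ_[p][X]} (hP : P ≠ 0) (c ν : ℕ) : sh p c ν P ≠ 0 := by
  intro h
  unfold sh at h
  rw [comp_eq_zero_iff] at h
  rcases h with h | h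
  · exact hP h
  · have h1 := congrArg (fun Q : ℤ_[p][X] => Q.coeff 1) h.2
    simp only [coeff_add, coeff_C_mul, coeff_X_one, mul_one, coeff_C_succ, zero_add] at h1
    exact pow_ne_zero ν PadicInt.prime_p.ne_zero h1

theorem gv_ne_top {P : ℤ_[p][X]} (hP : P ≠ 0) (c ν : ℕ) : gv p c ν P ≠ ⊤ := by
  unfold gv
  rw [← finiteMultiplicity_iff_emultiplicity_ne_top]
  exact FiniteMultiplicity.of_not_isUnit prime_C.not_isUnit (gv_sh_ne_zero hP c ν)

theorem le_gv_iff (c ν k : ℕ) (P : ℤ_[p][X]) :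
    (k : ℕ∞) ≤ gv p c ν P ↔ C ((p : ℤ_[p]) ^ k) ∣ sh p c ν P := by
  unfold gv
  rw [← pow_dvd_iff_le_emultiplicity, C_pow]

theorem gv_dvd_comp {a : ℤ_[p]} {Q : ℤ_[p][X]} (h : C a ∣ Q) (R : ℤ_[p][X]) :
    C a ∣ Q.comp R := by
  obtain ⟨Q', rfl⟩ := h
  rw [mul_comp, C_comp]
  exact dvd_mul_right _ _

theorem gv_le_of_comp {c ν c' ν' : ℕ} {P : ℤ_[p][X]} (R : ℤ_[p][X])
    (h : sh p c' ν' P = (sh p c ν P).comp R) : gv p c ν P ≤ gv p c' ν' P := by
  rw [← ENat.forall_natCast_le_iff_le]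
  intro k hk
  rw [le_gv_iff] at hk ⊢
  rw [h]
  exact gv_dvd_comp hk R

theorem gv_congr_aux {c c' ν : ℕ} (d : ℤ_[p]) (h : (c' : ℤ_[p]) = c + (p : ℤ_[p]) ^ ν * d)
    (P : ℤ_[p][X]) : gv p c ν P ≤ gv p c' ν P := by
  apply gv_le_of_comp (X + C d)
  unfold sh
  rw [comp_assoc]
  congr 1
  simp only [add_comp, C_comp, mul_comp, X_comp]
  rw [h]
  simp only [C_add, C_mul]
  ring

/-- the value at a node depends only on the class of `c mod p^ν` -/
theorem gv_congr {c c' ν : ℕ} (h : c ≡ c' [MOD p ^ ν]) (P : ℤ_[p][X]) :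
    gv p c ν P = gv p c' ν P := by
  obtain ⟨d, hd⟩ := Nat.modEq_iff_dvd.1 h
  have hd' : (c' : ℤ_[p]) - (c : ℤ_[p]) = (p : ℤ_[p]) ^ ν * (d : ℤ_[p]) := by
    have := congrArg (fun z : ℤ => (z : ℤ_[p])) hd
    push_cast at this
    exact this
  apply le_antisymm
  · exact gv_congr_aux (d : ℤ_[p]) (by rw [← hd']; ring) P
  · exact gv_congr_aux (-(d : ℤ_[p])) (by linear_combination -hd') P

/-- the value increases when one goes down -/
theorem gv_mono (c ν : ℕ) (P : ℤ_[p][X]) : gv p c ν P ≤ gv p c (ν + 1) P := by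
  apply gv_le_of_comp (C (p : ℤ_[p]) * X)
  unfold sh
  rw [comp_assoc]
  congr 1
  simp only [add_comp, C_comp, mul_comp, X_comp, pow_succ, C_mul]
  ring

theorem tau_congr {c c' ν : ℕ} (h : c ≡ c' [MOD p ^ ν]) (m : ℕ) :
    tau p c ν m = tau p c' ν m := by
  unfold tau
  congr 1
  apply Finset.filter_congr
  intro k hk
  rw [Finset.mem_Icc] at hk
  have h1 : c ≡ c' [MOD p ^ k] := h.of_dvd (pow_dvd_pow p hk.2)
  exact ⟨fun h2 => h2.trans h1, fun h2 => h2.trans h1.symm⟩

theorem tau_succ (c ν m : ℕ) :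
    tau p c (ν + 1) m = tau p c ν m + if m ≡ c [MOD p ^ (ν + 1)] then 1 else 0 := by
  unfold tau
  have h1 : Finset.Icc 1 (ν + 1) = insert (ν + 1) (Finset.Icc 1 ν) := by
    ext k
    simp only [Finset.mem_Icc, Finset.mem_insert]
    omega
  rw [h1, Finset.filter_insert]
  split_ifs with h
  · rw [Finset.card_insert_of_notMem]
    simp
  · simp

theorem tau_self (ν m : ℕ) : tau p m ν m = ν := by
  unfold tau
  rw [Finset.filter_true_of_mem (fun k _ => Nat.ModEq.refl m)]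
  simp

theorem le_tau_iff (c ν m k : ℕ) : k ≤ tau p c ν m ↔ k ≤ ν ∧ m ≡ c [MOD p ^ k] := by
  induction ν with
  | zero =>
    have h0 : tau p c 0 m = 0 := by simp [tau]
    rw [h0]
    constructor
    · intro h
      have : k = 0 := by omega
      subst this
      exact ⟨le_rfl, by rw [pow_zero]; exact Nat.modEq_one⟩
    · exact fun h => h.1
  | succ ν ih =>
    rw [tau_succ]
    split_ifs with h
    · have h1 : tau p c ν m = ν := by
        have h2 := (ih.not).1
        by_contra hne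
        have h3 : tau p c ν m ≤ ν := by
          unfold tau
          refine (Finset.card_filter_le _ _).trans ?_
          simp
        have h4 : ∀ k', k' ≤ ν → m ≡ c [MOD p ^ k'] := fun k' hk' =>
          h.of_dvd (pow_dvd_pow p (by omega))
        apply hne
        unfold tau
        rw [Finset.filter_true_of_mem (fun k' hk' => h4 k' (Finset.mem_Icc.1 hk').2)]
        simp
      rw [h1]
      constructor
      · intro h2
        exact ⟨h2, h.of_dvd (pow_dvd_pow p h2)⟩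
      · exact fun h2 => h2.1
    · rw [add_zero, ih]
      constructor
      · rintro ⟨h1, h2⟩
        exact ⟨by omega, h2⟩
      · rintro ⟨h1, h2⟩
        refine ⟨?_, h2⟩
        rcases Nat.lt_or_ge ν k with h3 | h3
        · have : k = ν + 1 := by omega
          subst this
          exact absurd h2 h
        · exact h3

/-- far from `m` the value of `τ` is eventually constant along every branch -/
theorem tau_le_of_ne {c m : ℕ} (h : c ≠ m) (ν : ℕ) : tau p c ν m ≤ max c m := by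
  have hp : p.Prime := Fact.out
  have h1 := ((le_tau_iff (p := p) c ν m (tau p c ν m)).1 le_rfl).2
  have h2 : tau p c ν m < p ^ tau p c ν m := Nat.lt_pow_self hp.one_lt
  rcases Nat.lt_or_ge c m with hcm | hcm
  · have h3 := (Nat.modEq_iff_dvd' hcm.le).1 h1.symm
    have h4 := Nat.le_of_dvd (by omega) h3
    have : m ≤ max c m := le_max_right _ _
    omega
  · have h3 := (Nat.modEq_iff_dvd' hcm).1 h1
    have h4 := Nat.le_of_dvd (by omega) h3
    have : c ≤ max c m := le_max_left _ _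
    omega

theorem gv_X_sub (c ν m : ℕ) : gv p c ν (X - C (m : ℤ_[p])) = tau p c ν m := by
  apply ENat.eq_of_forall_natCast_le_iff
  intro k
  rw [le_gv_iff, Nat.cast_le, le_tau_iff]
  have h1 : sh p c ν (X - C (m : ℤ_[p])) =
      C ((c : ℤ_[p]) - m) + C ((p : ℤ_[p]) ^ ν) * X := by
    unfold sh
    rw [sub_comp, X_comp, C_comp, C_sub]
    ring
  rw [h1, C_dvd_iff_dvd_coeff]
  have hp0 : (p : ℤ_[p]) ≠ 0 := PadicInt.prime_p.ne_zero
  have hcong : (p : ℤ_[p]) ^ k ∣ (c : ℤ_[p]) - m ↔ m ≡ c [MOD p ^ k] := by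
    rw [Nat.modEq_iff_dvd]
    have h2 := PadicInt.norm_int_le_pow_iff_dvd (p := p) (k := (c : ℤ) - m) (n := k)
    have h3 := PadicInt.norm_le_pow_iff_mem_span_pow (p := p) ((c : ℤ_[p]) - m) k
    rw [Ideal.mem_span_singleton] at h3
    rw [← h3]
    push_cast at h2 ⊢
    exact h2
  constructor
  · intro h
    have h0 := h 0
    have h1' := h 1
    simp only [coeff_add, coeff_C_zero, coeff_C_mul, coeff_X_zero, mul_zero, add_zero] at h0
    simp only [coeff_add, coeff_C_succ, coeff_C_mul, coeff_X_one, mul_one, zero_add] at h1'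
    refine ⟨?_, hcong.1 h0⟩
    by_contra hk
    have h5 : (p : ℤ_[p]) ^ (ν + 1) ∣ (p : ℤ_[p]) ^ ν :=
      (pow_dvd_pow _ (by omega)).trans h1'
    have h6 := (pow_dvd_pow_iff hp0 PadicInt.prime_p.not_isUnit).1 h5
    omega
  · rintro ⟨hk, hc⟩ i
    have h2 : (p : ℤ_[p]) ^ k ∣ (p : ℤ_[p]) ^ ν := pow_dvd_pow _ hk
    have h3 := hcong.2 hc
    rw [coeff_add, coeff_C_mul]
    refine dvd_add ?_ (h2.mul_right _)
    rw [coeff_C]
    split_ifs
    · exact h3
    · exact dvd_zero _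

theorem fv_congr {c c' ν : ℕ} (h : c ≡ c' [MOD p ^ ν]) (B Z : ℕ → ℕ) (T : ℕ → ℕ → ℕ) (n : ℕ) :
    fv p B Z T n c ν = fv p B Z T n c' ν := by
  unfold fv
  congr 1
  apply Finset.sum_congr rfl
  intro m _
  rw [tau_congr h]

theorem tau_harm (m c ν : ℕ) :
    ∑ ε ∈ Finset.range p, ((tau p (c + ε * p ^ (ν + 1)) (ν + 2) m : ℤ) -
      tau p c (ν + 1) m) = (tau p c (ν + 1) m : ℤ) - tau p c ν m := by
  have hp : p.Prime := Fact.out
  have h1 : ∀ ε, (tau p (c + ε * p ^ (ν + 1)) (ν + 2) m : ℤ) - tau p c (ν + 1) m =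
      if m ≡ c + ε * p ^ (ν + 1) [MOD p ^ (ν + 2)] then 1 else 0 := by
    intro ε
    rw [tau_succ (c + ε * p ^ (ν + 1)) (ν + 1) m]
    have h2 : tau p (c + ε * p ^ (ν + 1)) (ν + 1) m = tau p c (ν + 1) m := by
      apply tau_congr
      have : c + ε * p ^ (ν + 1) ≡ c + 0 [MOD p ^ (ν + 1)] :=
        Nat.ModEq.add_left c ((Nat.modEq_zero_iff_dvd).2 (dvd_mul_left _ _))
      exact this
    rw [h2]
    push_cast
    ring
  simp only [h1]
  rw [tau_succ c ν m]
  push_cast
  rw [add_sub_cancel_left, Finset.sum_ite, Finset.sum_const_zero, add_zero, Finset.sum_const,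
    nsmul_eq_mul, mul_one]
  split_ifs with h
  · -- exactly one child
    obtain ⟨d, hd⟩ := Nat.modEq_iff_dvd.1 h.symm
    -- m - c = p^(ν+1) d
    have hpz : (0 : ℤ) < p := by exact_mod_cast hp.pos
    have key : ∀ ε : ℕ, m ≡ c + ε * p ^ (ν + 1) [MOD p ^ (ν + 2)] ↔
        (p : ℤ) ∣ (ε : ℤ) - d := by
      intro ε
      rw [Nat.modEq_iff_dvd]
      have e1 : ((c + ε * p ^ (ν + 1) : ℕ) : ℤ) - (m : ℤ) =
          (p : ℤ) ^ (ν + 1) * ((ε : ℤ) - d) := by
        push_cast at hd ⊢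
        linear_combination -hd
      rw [e1]
      push_cast
      rw [pow_succ (p : ℤ) (ν + 1)]
      exact mul_dvd_mul_iff_left (pow_ne_zero _ hpz.ne')
    have hcard : (Finset.filter (fun ε => m ≡ c + ε * p ^ (ν + 1) [MOD p ^ (ν + 2)])
        (Finset.range p)).card = 1 := by
      rw [Finset.card_eq_one]
      refine ⟨(d % p).toNat, ?_⟩
      have hd0 : 0 ≤ d % p := Int.emod_nonneg _ hpz.ne'
      have hd1 : d % p < p := Int.emod_lt_of_pos _ hpz
      ext ε
      simp only [Finset.mem_filter, Finset.mem_range, Finset.mem_singleton]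
      rw [key]
      constructor
      · rintro ⟨h2, h3⟩
        have h4 : d % p = (ε : ℤ) % p := Int.modEq_iff_dvd.2 h3
        have h5 : (ε : ℤ) % p = ε := Int.emod_eq_of_lt (by positivity) (by exact_mod_cast h2)
        omega
      · intro h2
        refine ⟨by omega, ?_⟩
        have h3 : (ε : ℤ) = d % p := by omega
        rw [h3]
        have := Int.emod_add_mul_ediv d p
        exact ⟨-(d / p), by linear_combination this⟩
    rw [hcard]
    simp
  · have hcard : (Finset.filter (fun ε => m ≡ c + ε * p ^ (ν + 1) [MOD p ^ (ν + 2)])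
        (Finset.range p)) = ∅ := by
      rw [Finset.filter_eq_empty_iff]
      intro ε _ h2
      apply h
      have h3 : m ≡ c + ε * p ^ (ν + 1) [MOD p ^ (ν + 1)] :=
        h2.of_dvd (pow_dvd_pow p (by omega))
      have : c + ε * p ^ (ν + 1) ≡ c + 0 [MOD p ^ (ν + 1)] :=
        Nat.ModEq.add_left c ((Nat.modEq_zero_iff_dvd).2 (dvd_mul_left _ _))
      simpa using h3.trans this
    rw [hcard]
    simp

/-- harmonicity of `fv` -/
theorem fv_harm (B Z : ℕ → ℕ) (T : ℕ → ℕ → ℕ) (n c ν : ℕ) :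
    ∑ ε ∈ Finset.range p, ((fv p B Z T n (c + ε * p ^ (ν + 1)) (ν + 2) : ℤ) -
      fv p B Z T n c (ν + 1)) = (fv p B Z T n c (ν + 1) : ℤ) - fv p B Z T n c ν := by
  have h1 : ∀ ε, (fv p B Z T n (c + ε * p ^ (ν + 1)) (ν + 2) : ℤ) - fv p B Z T n c (ν + 1) =
      ∑ m ∈ Finset.range (Z n), (T n m : ℤ) *
        ((tau p (c + ε * p ^ (ν + 1)) (ν + 2) m : ℤ) - tau p c (ν + 1) m) := by
    intro ε
    unfold fv
    push_cast
    rw [add_sub_add_left_eq_sub, ← Finset.sum_sub_distrib]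
    apply Finset.sum_congr rfl
    intro m _
    ring
  simp only [h1]
  rw [Finset.sum_comm]
  unfold fv
  push_cast
  rw [add_sub_add_left_eq_sub, ← Finset.sum_sub_distrib]
  apply Finset.sum_congr rfl
  intro m _
  rw [← Finset.mul_sum, tau_harm]
  ring

theorem fv_root (B Z : ℕ → ℕ) (T : ℕ → ℕ → ℕ) (n c : ℕ) : fv p B Z T n c 0 = B n := by
  unfold fv tau
  simp

end GH.Pot
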