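import Pool.Agent.GH.Pot.WDefs

/-!
# GH-POT, version for the whole disc with flat indices

Paper: notes 5024 and 5287 (5), (6) on MP_370013_nt. An index `n` is flat if it is not a vertex of
the hull at the root. A flat index may become a vertex further down, but only on the path to the
integer `zf n`, whose tent starts at `n`. Strictness at these nodes comes from the leaf `zf n`
instead of the root.
-/

open Polynomial

noncomputable section

namespace GH.Pot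

/-- The combinatorial input: the hull `h n c ν` of `n ↦ f n c ν` at every node. -/
structure CombF (p : ℕ) (B Z : ℕ → ℕ) (T : ℕ → ℕ → ℕ) (s t zf : ℕ → ℕ)
    (h : ℕ → ℕ → ℕ → ℤ) : Prop where
  hull : ∀ c ν, IsHull (fun n ↦ fv p B Z T n c ν) (fun n ↦ h n c ν)
  /-- there are vertices within a bounded distance -/
  near : ∀ n, ∃ Q, ∀ c ν, ∃ b, n ≤ b ∧ b ≤ Q ∧ Vtx (fun k ↦ h k c ν) b
  /-- (K1) -/
  k1 : ∀ n c ν, Vtx (fun k ↦ h k c (ν + 1)) n →
    (fv p B Z T (n + 1) c ν : ℤ) - h (n + 1) c ν ≤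
      fv p B Z T (n + 1) c (ν + 1) - h (n + 1) c (ν + 1)
  /-- (K2) -/
  k2 : ∀ n c ν, Vtx (fun k ↦ h k c ν) n →
    (fv p B Z T (n + 1) c (ν + 1) : ℤ) - h (n + 1) c (ν + 1) ≤
      fv p B Z T (n + 1) c ν - h (n + 1) c ν + 1
  /-- (K3a) -/
  k3a : ∀ n c ν, Vtx (fun k ↦ h k c ν) n → h n c (ν + 1) = fv p B Z T n c (ν + 1)
  /-- (K3b) a vertex of a node is a vertex of the parent, or it is flat, `h = f` at the parent and
  the node contains `zf n` -/
  k3b : ∀ n c ν, Vtx (fun k ↦ h k c (ν + 1)) n → Vtx (fun k ↦ h k c ν) n ∨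
    (¬ Vtx (fun k ↦ h k 0 0) n ∧ h n c ν = fv p B Z T n c ν ∧ c ≡ zf n [MOD p ^ (ν + 1)])
  /-- a flat index which is a vertex at some node over `zf n` remains one further down -/
  down : ∀ n ν, ¬ Vtx (fun k ↦ h k 0 0) n → Vtx (fun k ↦ h k (zf n) ν) n →
    Vtx (fun k ↦ h k (zf n) (ν + 1)) n
  /-- the tent of `zf n` starts at the flat index `n` -/
  flat : ∀ n, ¬ Vtx (fun k ↦ h k 0 0) n → T n (zf n) = 0 ∧ T (n + 1) (zf n) ≠ 0
  /-- support of the tents -/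
  supp : ∀ n m, Z n ≤ m → T n m = 0
  /-- the tents are finite -/
  fin : ∀ m, ∃ N, ∀ n, N ≤ n → T n m = 0
  /-- the tent of `m` starts at `t m` -/
  start : ∀ n m, T n m = 0 → T (n + 1) m ≠ 0 → n = t m
  /-- the slope at the leaf `m` -/
  leaf : ∀ n m, T n m = 0 → T (n + 1) m ≠ 0 → ∃ b, n < b ∧ ∃ K, ∀ ν, K ≤ ν →
    (fv p B Z T b m ν : ℤ) ≤ fv p B Z T n m ν + s m * (b - n : ℕ)

/-- Modulo `p^s`, the rows `i ≥ n` of `M(m)` are `p` times integral combinations of the first `n`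
rows. -/
def FlatRow (p : ℕ) [Fact p.Prime] (M : ℕ → ℕ → ℤ_[p][X]) (n m s : ℕ) : Prop :=
  ∀ i, n ≤ i → ∃ x : ℕ → ℤ_[p], ∀ j, ∃ z : ℤ_[p],
    (M i j).eval (m : ℤ_[p]) =
      ∑ l ∈ Finset.range n, (p : ℤ_[p]) * x l * (M l j).eval (m : ℤ_[p]) + (p : ℤ_[p]) ^ s * z

variable {p : ℕ} [Fact p.Prime] {M : ℕ → ℕ → ℤ_[p][X]} {B Z : ℕ → ℕ} {T : ℕ → ℕ → ℕ}
  {s t : ℕ → ℕ}

theorem f_gv_lead (hM : MatW p M B Z T s t) (n c ν : ℕ) :
    gv p c ν (lead M n) = fv p B Z T n c ν := by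
  have h1 := a_gv_lead (hM.toA c) n (Nat.ModEq.refl c) ν
  rw [w_fv (Nat.ModEq.refl c)] at h1
  exact h1

end GH.Pot
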