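import Pool.Agent.GH.Pot.FDefs

/-!
# GH-POT, version for the whole disc with several flat centres

As `CombF`, but a flat index `n` may become a vertex on the paths to all integers whose tent
starts at `n`, and flat indices without such an integer are allowed.
-/

open Polynomial

noncomputable section

namespace GH.Pot

/-- The combinatorial input: the hull `h n c ν` of `n ↦ f n c ν` at every node. -/
structure CombG (p : ℕ) (B Z : ℕ → ℕ) (T : ℕ → ℕ → ℕ) (s t : ℕ → ℕ)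
    (h : ℕ → ℕ → ℕ → ℤ) : Prop where
  hull : ∀ c ν, IsHull (fun n ↦ fv p B Z T n c ν) (fun n ↦ h n c ν)
  /-- there are vertices within a bounded distance -/
  near : ∀ n, ∃ Q, ∀ c ν, ∃ b, n ≤ b ∧ b ≤ Q ∧ Vtx (fun k ↦ h k c ν) b
  /-- (K1) -/
  k1 : ∀ n c ν, Vtx (fun k ↦ h k c (ν + 1)) n →
    (fv p B Z T (n + 1) c ν : ℤ) - h (n + 1) c ν ≤
      fv p B Z T (n + 1) c (ν + 1) - h (n + 1) c (ν + 1)
  /-- (K2) -/
  k2 : ∀ n c ν, Vtx (fun k ↦ h k c ν) n →
    (fv p B Z T (n + 1) c (ν + 1) : ℤ) - h (n + 1) c (ν + 1) ≤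
      fv p B Z T (n + 1) c ν - h (n + 1) c ν + 1
  /-- (K3a) -/
  k3a : ∀ n c ν, Vtx (fun k ↦ h k c ν) n → h n c (ν + 1) = fv p B Z T n c (ν + 1)
  /-- (K3b) a vertex of a node is a vertex of the parent, or it is flat, `h = f` at the parent and
  the node contains an integer `m` whose tent starts at `n` -/
  k3b : ∀ n c ν, Vtx (fun k ↦ h k c (ν + 1)) n → Vtx (fun k ↦ h k c ν) n ∨
    (¬ Vtx (fun k ↦ h k 0 0) n ∧ h n c ν = fv p B Z T n c ν ∧
      ∃ m, T n m = 0 ∧ T (n + 1) m ≠ 0 ∧ c ≡ m [MOD p ^ (ν + 1)])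
  /-- a flat index which is a vertex at some node over such an `m` remains one further down -/
  down : ∀ n ν m, ¬ Vtx (fun k ↦ h k 0 0) n → T n m = 0 → T (n + 1) m ≠ 0 →
    Vtx (fun k ↦ h k m ν) n → Vtx (fun k ↦ h k m (ν + 1)) n
  /-- support of the tents -/
  supp : ∀ n m, Z n ≤ m → T n m = 0
  /-- the tents are finite -/
  fin : ∀ m, ∃ N, ∀ n, N ≤ n → T n m = 0
  /-- the tent of `m` starts at `t m` -/
  start : ∀ n m, T n m = 0 → T (n + 1) m ≠ 0 → n = t m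
  /-- the slope at the leaf `m` -/
  leaf : ∀ n m, T n m = 0 → T (n + 1) m ≠ 0 → ∃ b, n < b ∧ ∃ K, ∀ ν, K ≤ ν →
    (fv p B Z T b m ν : ℤ) ≤ fv p B Z T n m ν + s m * (b - n : ℕ)

end GH.Pot
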