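import Pool.Agent.GH.Pot.WDefs

/-! The output of GH-POT in the whole disc `|y| ≤ 1`, weak root dominance. -/

open Polynomial

noncomputable section

namespace GH.Pot

variable {p : ℕ} [Fact p.Prime] {M : ℕ → ℕ → ℤ_[p][X]} {B Z : ℕ → ℕ} {T : ℕ → ℕ → ℕ}
  {s t : ℕ → ℕ} {h : ℕ → ℕ → ℕ → ℤ} {K : Type*} [NormedField K] [IsUltrametricDist K]

/-- The norm of a leading minor if the distances to the zeros are given. -/
theorem w_norm_lead_of (hM : MatW p M B Z T s t) (φ : ℤ_[p] →+* K) (hφ : ∀ z, ‖φ z‖ = ‖z‖) {y : K}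
    (hy : ‖y‖ ≤ 1) (k : ℕ) (w : ℕ → ℝ)
    (hw : ∀ m ∈ Finset.range (Z k), T k m ≠ 0 → ‖y - (m : K)‖ = (p : ℝ) ^ (-(w m))) :
    ‖(lead M k).eval₂ φ y‖ =
      (p : ℝ) ^ (-((B k : ℝ) + ∑ m ∈ Finset.range (Z k), (T k m : ℝ) * w m)) := by
  rw [w_norm_lead hM φ hφ hy]
  have h1 : ∏ m ∈ Finset.range (Z k), ‖y - (m : K)‖ ^ T k m =
      (p : ℝ) ^ (-(∑ m ∈ Finset.range (Z k), (T k m : ℝ) * w m)) := by
    rw [← Finset.sum_neg_distrib, Real.rpow_sum_of_pos rt_pos]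
    refine Finset.prod_congr rfl fun m hm => ?_
    by_cases h0 : T k m = 0
    · rw [h0, pow_zero, Nat.cast_zero, zero_mul, neg_zero, Real.rpow_zero]
    · rw [hw m hm h0, ← Real.rpow_natCast, ← Real.rpow_mul rt_pos.le]
      congr 1
      ring
  rw [h1, ← Real.rpow_add rt_pos]
  congr 1
  ring

/-- Case A. -/
theorem w_lead_A (hM : MatW p M B Z T s t) (φ : ℤ_[p] →+* K) (hφ : ∀ z, ‖φ z‖ = ‖z‖) {y : K}
    (hy : ‖y‖ ≤ 1) {c ν : ℕ} {θ : ℝ}
    (hm : ∀ m : ℕ, ‖y - (m : K)‖ =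
        (p : ℝ) ^ (-((1 - θ) * tau p c ν m + θ * tau p c (ν + 1) m : ℝ))) (k : ℕ) :
    ‖(lead M k).eval₂ φ y‖ =
      (p : ℝ) ^ (-((1 - θ) * (fv p B Z T k c ν : ℝ) + θ * (fv p B Z T k c (ν + 1) : ℝ))) := by
  rw [w_norm_lead_of hM φ hφ hy k _ fun m _ _ => hm m]
  congr 2
  unfold fv
  push_cast
  have h1 : ∑ m ∈ Finset.range (Z k), (T k m : ℝ) *
      ((1 - θ) * (tau p c ν m : ℝ) + θ * (tau p c (ν + 1) m : ℝ)) =
      (1 - θ) * ∑ m ∈ Finset.range (Z k), (T k m : ℝ) * (tau p c ν m : ℝ) +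
        θ * ∑ m ∈ Finset.range (Z k), (T k m : ℝ) * (tau p c (ν + 1) m : ℝ) := by
    rw [Finset.mul_sum, Finset.mul_sum, ← Finset.sum_add_distrib]
    refine Finset.sum_congr rfl fun m _ => ?_
    ring
  rw [h1]
  ring

/-- Case B. -/
theorem w_lead_B (hM : MatW p M B Z T s t) (φ : ℤ_[p] →+* K) (hφ : ∀ z, ‖φ z‖ = ‖z‖) {y : K}
    (hy : ‖y‖ ≤ 1) {c ν : ℕ} (hc : ‖y - (c : K)‖ ≤ (p : ℝ) ^ (-(ν : ℝ))) (k : ℕ) :
    ‖(lead M k).eval₂ φ y‖ = (p : ℝ) ^ (-(fv p B Z T k c ν : ℝ)) ∨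
      (ν ≤ fv p B Z T k c ν ∧ ‖(lead M k).eval₂ φ y‖ ≤ (p : ℝ) ^ (-(ν : ℝ))) := by
  by_cases hall : ∀ m ∈ Finset.range (Z k), T k m ≠ 0 →
      ‖y - (m : K)‖ = (p : ℝ) ^ (-(tau p c ν m : ℝ))
  · left
    rw [w_norm_lead_of hM φ hφ hy k (fun m => (tau p c ν m : ℝ)) hall]
    congr 2
    unfold fv
    push_cast
    rfl
  · right
    push Not at hall
    obtain ⟨m, hm, hT, hne⟩ := hall
    obtain ⟨hmod, hle⟩ := (norm_sub_of_close φ hφ (m := m) hc).resolve_left hne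
    have htau : tau p c ν m = ν := by
      unfold tau
      rw [Finset.filter_true_of_mem, Nat.card_Icc, Nat.add_sub_cancel]
      intro j hj
      rw [Finset.mem_Icc] at hj
      exact hmod.of_dvd (pow_dvd_pow p hj.2)
    have hTpos : 1 ≤ T k m := Nat.one_le_iff_ne_zero.2 hT
    refine ⟨?_, ?_⟩
    · unfold fv
      have h1 : T k m * tau p c ν m ≤ ∑ m ∈ Finset.range (Z k), T k m * tau p c ν m :=
        Finset.single_le_sum (f := fun m => T k m * tau p c ν m) (fun _ _ => Nat.zero_le _) hm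
      rw [htau] at h1
      nlinarith
    · rw [w_norm_lead hM φ hφ hy]
      have hle1 : ∀ j : ℕ, ‖y - (j : K)‖ ≤ 1 := fun j => fn_norm_sub_le φ hφ hy j
      have h2 : ∏ m ∈ Finset.range (Z k), ‖y - (m : K)‖ ^ T k m ≤ ‖y - (m : K)‖ := by
        rw [← Finset.mul_prod_erase _ _ hm]
        have h3 : ∏ x ∈ (Finset.range (Z k)).erase m, ‖y - (x : K)‖ ^ T k x ≤ 1 :=
          Finset.prod_le_one (fun _ _ => by positivity)
            fun j _ => pow_le_one₀ (norm_nonneg _) (hle1 j)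
        calc ‖y - (m : K)‖ ^ T k m * ∏ x ∈ (Finset.range (Z k)).erase m, ‖y - (x : K)‖ ^ T k x
            ≤ ‖y - (m : K)‖ ^ 1 * 1 := by
              refine mul_le_mul ?_ h3 (Finset.prod_nonneg fun _ _ => by positivity)
                (by positivity)
              exact pow_le_pow_of_le_one (norm_nonneg _) (hle1 m) hTpos
          _ = ‖y - (m : K)‖ := by rw [pow_one, mul_one]
      have h4 : (p : ℝ) ^ (-(B k : ℝ)) ≤ 1 :=
        Real.rpow_le_one_of_one_le_of_nonpos rt_one_lt.le (by simp)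
      calc (p : ℝ) ^ (-(B k : ℝ)) * ∏ m ∈ Finset.range (Z k), ‖y - (m : K)‖ ^ T k m
          ≤ 1 * ‖y - (m : K)‖ :=
            mul_le_mul h4 h2 (Finset.prod_nonneg fun _ _ => by positivity) zero_le_one
        _ = ‖y - (m : K)‖ := one_mul _
        _ ≤ _ := hle

theorem final_weakW (hC : Comb p B Z T s t h) (hM : MatW p M B Z T s t) (φ : ℤ_[p] →+* K)
    (hφ : ∀ z, ‖φ z‖ = ‖z‖) {y : K} (hy : ‖y‖ ≤ 1) {R r : ℝ}
    (hR : 0 < R) (hr : 0 < r) (hD : ∀ k, ‖(lead M k).eval₂ φ y‖ ≤ R * r ^ k)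
    {n : ℕ} (a b : Fin n → ℕ) : ‖(minor M a b).eval₂ φ y‖ ≤ R * r ^ n := by
  set L : ℝ := -Real.logb p R with hL
  set sl : ℝ := -Real.logb p r with hsl
  have hlog : ∀ k : ℕ, R * r ^ k = (p : ℝ) ^ (-(L + sl * k)) := fun k => fn_log hR hr k
  rcases retract φ hφ hy with hB | ⟨c, ν, θ, h0, h1, hyc, hm⟩
  · obtain ⟨Q, hQ⟩ := hC.near n
    obtain ⟨ν, hν⟩ := fn_exists_level Q L sl
    obtain ⟨c, hc⟩ := hB ν
    obtain ⟨b', hnb, hbQ, hvb⟩ := hQ c ν
    have hline : ∀ k, k ≤ b' → L + sl * k ≤ (fv p B Z T k c ν : ℕ) := by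
      intro k hk
      rcases w_lead_B hM φ hφ hy hc k with h3 | ⟨h3, -⟩
      · have h4 := hD k
        rw [h3, hlog, fn_le_iff] at h4
        exact h4
      · have h4 : (ν : ℝ) ≤ (fv p B Z T k c ν : ℕ) := by exact_mod_cast h3
        exact (hν k (hk.trans hbQ)).le.trans h4
    have h5 := (hC.hull c ν).line_le ((hC.hull c ν).eq_of_vtx hvb) hline hnb
    have h6 := weakW hC hM n a b c ν
    have h7 := norm_eval_le φ hφ (minor M a b) c ν (θ := 0) le_rfl zero_le_one h6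
      (l := 0) (by simp) (y := y) (by rw [add_zero]; exact hc)
    refine h7.trans ?_
    rw [hlog, fn_le_iff]
    have h8 : ((h n c ν : ℤ) : ℝ) ≤ ((h n c ν).toNat : ℝ) := by
      exact_mod_cast Int.self_le_toNat _
    linarith
  · have hl : ∀ k : ℕ, L + sl * k ≤ (1 - θ) * (fv p B Z T k c ν : ℕ) +
        θ * (fv p B Z T k c (ν + 1) : ℕ) := by
      intro k
      have h3 := hD k
      rw [w_lead_A hM φ hφ hy hm k, hlog, fn_le_iff] at h3
      exact h3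
    have h4 := hull_interp (hC.hull c ν) (hC.hull c (ν + 1)) (fun k hk => hC.k3a k c ν hk)
      (fun k hk => hC.k3b k c ν hk) (fun k => by
        obtain ⟨Q, hQ⟩ := hC.near k
        obtain ⟨b', hnb, -, hvb⟩ := hQ c ν
        exact ⟨b', hnb, hvb⟩) h0 h1.le hl n
    have h6 := weakW hC hM n a b c ν
    have h6' := weakW hC hM n a b c (ν + 1)
    have h7 := norm_eval_le φ hφ (minor M a b) c ν h0 h1.le h6 h6' (y := y) hyc.le
    refine h7.trans ?_
    rw [hlog, fn_le_iff]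
    refine h4.trans ?_
    have h8 : ((h n c ν : ℤ) : ℝ) ≤ ((h n c ν).toNat : ℝ) := by
      exact_mod_cast Int.self_le_toNat _
    have h9 : ((h n c (ν + 1) : ℤ) : ℝ) ≤ ((h n c (ν + 1)).toNat : ℝ) := by
      exact_mod_cast Int.self_le_toNat _
    exact add_le_add (mul_le_mul_of_nonneg_left h8 (by linarith))
      (mul_le_mul_of_nonneg_left h9 h0)

theorem final_strictW (hC : Comb p B Z T s t h) (hM : MatW p M B Z T s t) (φ : ℤ_[p] →+* K)
    (hφ : ∀ z, ‖φ z‖ = ‖z‖) {y : K} (hy : ‖y‖ ≤ 1) {R r : ℝ}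
    (hR : 0 < R) (hr : 0 < r) {n : ℕ} (hn : ‖(lead M n).eval₂ φ y‖ = R * r ^ n)
    (hD : ∀ k, k ≠ n → ‖(lead M k).eval₂ φ y‖ < R * r ^ k)
    (a b : Fin n → ℕ) (hab : ((B n + 1 : ℕ) : ℕ∞) ≤ gv p 0 0 (minor M a b)) :
    ‖(minor M a b).eval₂ φ y‖ < R * r ^ n := by
  set L : ℝ := -Real.logb p R with hL
  set sl : ℝ := -Real.logb p r with hsl
  have hlog : ∀ k : ℕ, R * r ^ k = (p : ℝ) ^ (-(L + sl * k)) := fun k => fn_log hR hr k
  rcases retract φ hφ hy with hB | ⟨c, ν, θ, h0, h1, hyc, hm⟩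
  · obtain ⟨Q, hQ⟩ := hC.near (n + 1)
    obtain ⟨ν, hν⟩ := fn_exists_level Q L sl
    obtain ⟨c, hc⟩ := hB ν
    obtain ⟨b', hnb, hbQ, hvb⟩ := hQ c ν
    have hneq : L + sl * n = (fv p B Z T n c ν : ℕ) := by
      rcases w_lead_B hM φ hφ hy hc n with h3 | ⟨-, h3⟩
      · rw [h3, hlog, fn_eq_iff] at hn
        exact hn.symm
      · rw [hn, hlog, fn_le_iff] at h3
        exact absurd h3 (not_le.2 (hν n (by omega)))
    have hline : ∀ k, k ≤ b' → k ≠ n → L + sl * k < (fv p B Z T k c ν : ℕ) := by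
      intro k hk hkn
      rcases w_lead_B hM φ hφ hy hc k with h3 | ⟨h3, -⟩
      · have h4 := hD k hkn
        rw [h3, hlog, fn_lt_iff] at h4
        exact h4
      · have h4 : (ν : ℝ) ≤ (fv p B Z T k c ν : ℕ) := by exact_mod_cast h3
        exact (hν k (hk.trans hbQ)).trans_le h4
    have h5 := (hC.hull c ν).vtx_of_line ((hC.hull c ν).eq_of_vtx hvb) (by omega) hneq hline
    have h6 := strictW hC hM n a b hab c ν h5
    have h7 := norm_eval_le φ hφ (minor M a b) c ν (θ := 0) le_rfl zero_le_one h6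
      (l := 0) (by simp) (y := y) (by rw [add_zero]; exact hc)
    refine h7.trans_lt ?_
    rw [hlog, fn_lt_iff, hneq]
    push_cast
    linarith
  · have hneq : L + sl * n = (1 - θ) * (fv p B Z T n c ν : ℕ) +
        θ * (fv p B Z T n c (ν + 1) : ℕ) := by
      rw [w_lead_A hM φ hφ hy hm n, hlog, fn_eq_iff] at hn
      exact hn.symm
    have hl : ∀ k : ℕ, k ≠ n → L + sl * k < (1 - θ) * (fv p B Z T k c ν : ℕ) +
        θ * (fv p B Z T k c (ν + 1) : ℕ) := by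
      intro k hk
      have h3 := hD k hk
      rw [w_lead_A hM φ hφ hy hm k, hlog, fn_lt_iff] at h3
      exact h3
    have hvn := hull_interp_vtx (hC.hull c ν) (hC.hull c (ν + 1)) (fun k hk => hC.k3a k c ν hk)
      (fun k hk => hC.k3b k c ν hk) (fun k => by
        obtain ⟨Q, hQ⟩ := hC.near k
        obtain ⟨b', hnb, -, hvb⟩ := hQ c ν
        exact ⟨b', hnb, hvb⟩) h0 h1 hneq hl
    have h6 := strictW hC hM n a b hab c ν hvn
    have h6' := weakW hC hM n a b c (ν + 1)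
    rw [hC.k3a n c ν hvn, Int.toNat_natCast] at h6'
    have h7 := norm_eval_le φ hφ (minor M a b) c ν h0 h1.le h6 h6' (y := y) hyc.le
    refine h7.trans_lt ?_
    rw [hlog, fn_lt_iff, hneq]
    push_cast
    nlinarith

end GH.Pot
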