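import Pool.Agent.GH.Pot.GFinal

/-!
# GH-POT on one branch of the tree, several flat centres

`MatB p a`: the input about the matrix, with the corank condition only at the integers
`m ≡ a mod p`. The node bounds follow at the nodes `(c, ν)`, `c ≡ a mod p` (`ν = 0` is the root).
Also the final estimates for one polynomial which satisfies the node bounds.
-/

open Polynomial

noncomputable section

namespace GH.Pot

/-- The input about the matrix on the branch of `a mod p`. -/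
structure MatB (p a : ℕ) [Fact p.Prime] (M : ℕ → ℕ → ℤ_[p][X]) (B Z : ℕ → ℕ)
    (T : ℕ → ℕ → ℕ) (s t : ℕ → ℕ) : Prop where
  /-- (M1) the leading minors: `p^(B n) u ∏ (X - m)^(T n m)` with `u` a unit mod `p` -/
  lead : ∀ n, ∃ (u : ℤ_[p][X]) (z : (ℤ_[p])ˣ), C (p : ℤ_[p]) ∣ u - C (z : ℤ_[p]) ∧
    lead M n = C ((p : ℤ_[p]) ^ B n) * u *
      ∏ m ∈ Finset.range (Z n), (X - C (m : ℤ_[p])) ^ T n m
  /-- (M2) at the root no minor is smaller than the leading one -/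
  root : ∀ n (a b : Fin n → ℕ), (B n : ℕ∞) ≤ gv p 0 0 (minor M a b)
  /-- (M3) corank at the integers `m ≡ a mod p` which are zeros of some leading minor -/
  corank : ∀ m, m ≡ a [MOD p] → (∃ n, T n m ≠ 0) →
    ∃ (x : ℕ → Fin (t m) → ℚ_[p]) (y : Fin (t m) → ℕ → ℚ_[p]),
    ∀ i j, ∃ z : ℤ_[p],
      (((M i j).eval (m : ℤ_[p]) : ℤ_[p]) : ℚ_[p]) = ∑ l, x i l * y l j + (p : ℚ_[p]) ^ s m * z

variable {p a : ℕ} [Fact p.Prime] {M : ℕ → ℕ → ℤ_[p][X]} {B Z : ℕ → ℕ} {T : ℕ → ℕ → ℕ}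
  {s t : ℕ → ℕ} {h : ℕ → ℕ → ℕ → ℤ} {K : Type*} [NormedField K] [IsUltrametricDist K]

theorem MatB.toA (hM : MatB p a M B Z T s t) : MatA p a M B Z (TA p a T) s t where
  lead n := by
    obtain ⟨u, z, ⟨q, hq⟩, hl⟩ := hM.lead n
    refine ⟨u * ∏ m ∈ Finset.range (Z n), (if m % p = a % p then 1 else
      (X - C (m : ℤ_[p])) ^ T n m), ?_, ?_⟩
    · rw [eval_mul, eval_prod]
      refine IsUnit.mul ?_ ?_
      · have h1 : u = C (z : ℤ_[p]) + C (p : ℤ_[p]) * q := by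
          rw [← hq]
          ring
        rw [h1, eval_add, eval_mul, eval_C, eval_C, PadicInt.isUnit_iff]
        have h2 : ‖(z : ℤ_[p])‖ = 1 := PadicInt.norm_units z
        have h3 : ‖(p : ℤ_[p]) * q.eval (a : ℤ_[p])‖ < ‖(z : ℤ_[p])‖ := by
          rw [h2]
          exact PadicInt.norm_lt_one_iff_dvd _ |>.2 (dvd_mul_right _ _)
        have h4 := IsUltrametricDist.norm_add_eq_max_of_norm_ne_norm h3.ne'
        rw [h4, max_eq_left h3.le, h2]
      · rw [IsUnit.prod_iff]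
        intro m _
        by_cases hm : m % p = a % p
        · rw [if_pos hm, eval_one]
          exact isUnit_one
        · rw [if_neg hm, eval_pow, eval_sub, eval_X, eval_C]
          exact (w_unit_sub hm).pow _
    · rw [hl]
      have h1 : ∏ m ∈ Finset.range (Z n), (X - C (m : ℤ_[p])) ^ T n m =
          (∏ m ∈ Finset.range (Z n), (if m % p = a % p then 1 else
            (X - C (m : ℤ_[p])) ^ T n m)) *
          ∏ m ∈ Finset.range (Z n), (X - C (m : ℤ_[p])) ^ TA p a T n m := by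
        rw [← Finset.prod_mul_distrib]
        refine Finset.prod_congr rfl fun m _ => ?_
        unfold TA
        by_cases hm : m % p = a % p
        · rw [if_pos hm, if_pos hm, one_mul]
        · rw [if_neg hm, if_neg hm, pow_zero, mul_one]
      rw [h1]
      ring
  root n b b' := by
    have h1 := hM.root n b b'
    have h2 : gv p 0 0 (minor M b b') = gv p a 0 (minor M b b') :=
      gv_congr (by simp [Nat.ModEq, Nat.mod_one]) _
    rw [← h2]
    exact h1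
  corank m hm := by
    obtain ⟨n, hn⟩ := hm
    unfold TA at hn
    by_cases hma : m % p = a % p
    · rw [if_pos hma] at hn
      exact hM.corank m hma ⟨n, hn⟩
    · rw [if_neg hma] at hn
      exact absurd rfl hn

namespace GBranch

open Weak (E E_le E_congr fv_bdd)
open AWeak (E_mem E_convex E_mono E_super E_root)

theorem E_le_fv (hM : MatB p a M B Z T s t) (n : ℕ) {c : ℕ} (hc : c ≡ a [MOD p]) (ν : ℕ) :
    E p M n c ν ≤ fv p B Z T n c ν := by
  have h1 := AWeak.E_le_fv hM.toA n hc ν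
  rw [w_fv hc] at h1
  exact h1

theorem E_le_h (hC : CombG p B Z T s t h) (hM : MatB p a M B Z T s t) (n : ℕ) {c : ℕ}
    (hc : c ≡ a [MOD p]) (ν : ℕ) : (E p M n c ν : ℤ) ≤ h n c ν :=
  (hC.hull c ν).of_convex (fun n ↦ (E p M n c ν : ℤ)) (fun n => E_convex hM.toA n hc ν)
    (fun n => by exact_mod_cast E_le_fv hM n hc ν) n

theorem fv_zero (hM : MatB p a M B Z T s t) {c : ℕ} (hc : c ≡ a [MOD p]) (ν : ℕ) :
    fv p B Z T 0 c ν = 0 := by
  have h1 := AWeak.fv_zero hM.toA hc ν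
  rw [w_fv hc] at h1
  exact h1

/-- deep nodes on the ray towards `m` -/
theorem deep_m (hC : CombG p B Z T s t h) (hM : MatB p a M B Z T s t) (n : ℕ)
    (ih : ∀ k, k ≤ n → ∀ c ν, c ≡ a [MOD p] → h k c ν ≤ E p M k c ν) (m : ℕ)
    (hcl : m ≡ a [MOD p]) (hm : T (n + 1) m ≠ 0) :
    ∃ K, ∀ ν, K ≤ ν → Vtx (fun k ↦ h k m ν) n → h (n + 1) m ν ≤ E p M (n + 1) m ν := by
  by_cases hn : T n m = 0
  · obtain ⟨b, hnb, K, hK⟩ := hC.leaf n m hn hm
    have hnt := hC.start n m hn hm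
    obtain ⟨x, y, hxy⟩ := hM.corank m hcl ⟨n + 1, hm⟩
    refine ⟨max K (s m), fun ν hν hv => ?_⟩
    have h1 := hK ν (le_trans (le_max_left _ _) hν)
    have h2 := (hC.hull m ν).chord (a := n) (n := n + 1) (b := b) (by omega) (by omega)
    have h3 : (fv p B Z T n m ν : ℤ) = h n m ν := ((hC.hull m ν).eq_of_vtx hv).symm
    obtain ⟨a1, b1, hab⟩ := E_mem hM.toA (n + 1) hcl ν
    obtain ⟨a2, b2, hab2⟩ := corank_minor M m (s m) (t m) x y hxy
      (le_trans (le_max_right _ _) hν) (n := n) (by omega) a1 b1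
    have h4 := E_le (p := p) (M := M) n m ν a2 b2
    have h5 : (E p M n m ν : ℕ∞) + s m ≤ E p M (n + 1) m ν := by
      rw [← hab]
      exact (add_le_add_left h4 _).trans hab2
    have h6 : E p M n m ν + s m ≤ E p M (n + 1) m ν := by exact_mod_cast h5
    have h7 := ih n le_rfl m ν hcl
    have h8 := E_le_h hC hM n hcl ν
    -- (b - n) * h (n+1) ≤ (b - n) * (h n + s m)
    have h9 : ((b : ℤ) - n) * h (n + 1) m ν ≤ ((b : ℤ) - n) * (h n m ν + s m) := by
      have e1 : ((b - n : ℕ) : ℤ) = (b : ℤ) - n := by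
        rw [Nat.cast_sub (le_of_lt hnb)]
      rw [e1] at h1
      push_cast at h2
      rw [h3] at h1 h2
      nlinarith [h1, h2]
    have h10 : h (n + 1) m ν ≤ h n m ν + s m :=
      le_of_mul_le_mul_left h9 (by omega)
    omega
  · obtain ⟨N, hN⟩ := hC.fin m
    set b := max N (n + 1) with hb
    have hTb : T b m = 0 := hN b (le_max_left _ _)
    have hnb : n < b := lt_of_lt_of_le (Nat.lt_succ_self n) (le_max_right _ _)
    set Q := B b + ∑ m' ∈ Finset.range (Z b), T b m' * max m m' with hQ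
    refine ⟨Q + 1, fun ν hν hv => ?_⟩
    exfalso
    have h2 := (hC.hull m ν).chord (a := 0) (n := n) (b := b) (by omega) (by omega)
    have h3 : (fv p B Z T n m ν : ℤ) = h n m ν := ((hC.hull m ν).eq_of_vtx hv).symm
    have h4 := fv_bdd (p := p) (B := B) (Z := Z) b m hTb ν
    have h5 := GWeak.le_fv_of_mem (p := p) hC hn ν
    have h6 := fv_zero hM hcl ν
    rw [h6] at h2
    rw [← h3] at h2
    push_cast at h2
    have h7 : (fv p B Z T b m ν : ℤ) ≤ Q := by exact_mod_cast h4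
    have h8 : (Q : ℤ) + 1 ≤ fv p B Z T n m ν := by
      have : Q + 1 ≤ fv p B Z T n m ν := hν.trans h5
      exact_mod_cast this
    have hb1 : (n : ℤ) < b := by exact_mod_cast hnb
    have hn0 : (0 : ℤ) ≤ n := Int.natCast_nonneg n
    have hQ0 : (0 : ℤ) ≤ Q := Int.natCast_nonneg Q
    have h9 : (b : ℤ) * (Q + 1) ≤ n * Q := by
      have e1 : (b : ℤ) * (Q + 1) ≤ b * fv p B Z T n m ν :=
        mul_le_mul_of_nonneg_left h8 (by omega)
      have e2 : (n : ℤ) * fv p B Z T b m ν ≤ n * Q := mul_le_mul_of_nonneg_left h7 hn0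
      nlinarith [h2, e1, e2]
    nlinarith [h9, hb1, hn0, hQ0]

theorem main (hC : CombG p B Z T s t h) (hM : MatB p a M B Z T s t) (n : ℕ) :
    ∀ k, k ≤ n → ∀ c ν, c ≡ a [MOD p] → h k c ν ≤ E p M k c ν := by
  induction n with
  | zero =>
    intro k hk c ν hc
    obtain rfl : k = 0 := by omega
    have h1 := (hC.hull c ν).zero
    have h2 := fv_zero hM hc ν
    rw [h1, h2]
    exact_mod_cast Nat.zero_le _
  | succ n ih =>
    intro k hk
    rcases Nat.lt_or_ge k (n + 1) with hlt | hge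
    · exact ih k (by omega)
    obtain rfl : k = n + 1 := by omega
    have hd : ∀ m, ∃ K, m ≡ a [MOD p] → T (n + 1) m ≠ 0 → ∀ ν, K ≤ ν →
        Vtx (fun k ↦ h k m ν) n → h (n + 1) m ν ≤ E p M (n + 1) m ν := by
      intro m
      by_cases hcl : m ≡ a [MOD p]
      · by_cases hm : T (n + 1) m ≠ 0
        · obtain ⟨K, hK⟩ := deep_m hC hM n ih m hcl hm
          exact ⟨K, fun _ _ => hK⟩
        · exact ⟨0, fun _ hm' => absurd hm' hm⟩
      · exact ⟨0, fun hcl' => absurd hcl' hcl⟩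
    choose Kf hKf using hd
    set K := (Finset.range (Z (n + 1))).sup Kf with hK
    intro c₀ ν₀ hc₀
    refine tree_stepA (p := p) (ρ := a)
      (fun c ν ↦ (fv p B Z T (n + 1) c ν : ℤ)) (fun c ν ↦ (E p M (n + 1) c ν : ℤ))
      (fun c ν ↦ h (n + 1) c ν) (fun c ν ↦ Vtx (fun k ↦ h k c ν) n) K ?_ ?_ ?_ ?_ ?_ ?_ ?_ ?_ ?_
      ?_ ?_ c₀ ν₀ hc₀
    · intro c c' ν _ _ hc
      have := fv_congr hc B Z T (n + 1)
      simp only [this]
    · intro c c' ν _ _ hc
      have := E_congr (M := M) hc (n + 1)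
      simp only [this]
    · intro c c' ν _ _ hc
      exact GWeak.h_congr hC hc (n + 1)
    · intro c ν _
      exact fv_harm B Z T (n + 1) c ν
    · intro c ν hc
      exact E_super hM.toA (n + 1) hc ν
    · intro c ν hc
      exact_mod_cast E_mono hM.toA (n + 1) hc ν
    · intro c hc
      have h1 := (hC.hull c 0).le (n + 1)
      have h2 := fv_root (p := p) B Z T (n + 1) c
      have h3 := E_root hM.toA (n + 1) hc
      rw [h2] at h1
      have h4 : (B (n + 1) : ℤ) ≤ E p M (n + 1) c 0 := by exact_mod_cast h3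
      exact h1.trans h4
    · intro c ν hc hv
      obtain ⟨hn0, h1⟩ := (hC.hull c ν).of_not_vtx hv
      obtain ⟨j, rfl⟩ : ∃ j, n = j + 1 := ⟨n - 1, by omega⟩
      have h2 := E_convex hM.toA j hc ν
      have h3 := ih (j + 1) le_rfl c ν hc
      have h4 := E_le_h hC hM j hc ν
      simp only [Nat.add_sub_cancel] at h1
      have e1 : j + 1 + 1 = j + 2 := rfl
      show h (j + 2) c ν ≤ (E p M (j + 2) c ν : ℤ)
      rw [e1] at h1
      omega
    · intro c ν _ hv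
      exact hC.k1 n c ν hv
    · intro c ν _ hv
      exact hC.k2 n c ν hv
    · intro c ν hc hKν hv hlt
      obtain ⟨m, hmZ, hTm, hmc⟩ : ∃ m, m ∈ Finset.range (Z (n + 1)) ∧ T (n + 1) m ≠ 0 ∧
          m ≡ c [MOD p ^ (ν + 1)] := by
        by_contra hcon
        push Not at hcon
        have : fv p B Z T (n + 1) c (ν + 1) ≤ fv p B Z T (n + 1) c ν := by
          unfold fv
          refine Nat.add_le_add_left (Finset.sum_le_sum fun m hm => ?_) _
          by_cases hT : T (n + 1) m = 0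
          · simp [hT]
          · rw [tau_succ, if_neg (hcon m hm hT), add_zero]
        omega
      have hcm : c ≡ m [MOD p ^ (ν + 1)] := hmc.symm
      have hcl : m ≡ a [MOD p] := (hmc.of_dvd (dvd_pow_self p (Nat.succ_ne_zero ν))).trans hc
      have e1 := GWeak.h_congr hC hcm (n + 1)
      have e2 := E_congr (M := M) hcm (n + 1)
      have e3 : (fun k ↦ h k c (ν + 1)) = fun k ↦ h k m (ν + 1) :=
        funext fun k => GWeak.h_congr hC hcm k
      rw [e1, e2]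
      rw [e3] at hv
      refine hKf m hcl hTm (ν + 1) ?_ hv
      have : Kf m ≤ K := Finset.le_sup (f := Kf) hmZ
      omega

end GBranch

open Weak (E E_le)

/-- THEOREM 1 on the branch of `a`. -/
theorem weakB (hC : CombG p B Z T s t h) (hM : MatB p a M B Z T s t) (n : ℕ)
    (b b' : Fin n → ℕ) (c ν : ℕ) (hc : c ≡ a [MOD p]) :
    ((h n c ν).toNat : ℕ∞) ≤ gv p c ν (minor M b b') := by
  have h1 := GBranch.main hC hM n n le_rfl c ν hc
  have h2 : (h n c ν).toNat ≤ E p M n c ν := by omega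
  calc ((h n c ν).toNat : ℕ∞) ≤ (E p M n c ν : ℕ∞) := by exact_mod_cast h2
    _ ≤ _ := E_le n c ν b b'

/-! ### Strictness -/

/-- The minors with a row `≥ n` are strictly bigger near the leaf `m`. -/
theorem b_leaf (hC : CombG p B Z T s t h) (hM : MatB p a M B Z T s t) {n m : ℕ}
    (hcl : m ≡ a [MOD p])
    (hfl : ¬ Vtx (fun k ↦ h k 0 0) n) (hT0 : T n m = 0) (hT1 : T (n + 1) m ≠ 0)
    (hrow : FlatRow p M n m (s m)) (b b' : Fin n → ℕ) (i0 : Fin n) (hi0 : n ≤ b i0) :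
    ∃ K, ∀ ν, K ≤ ν → Vtx (fun k ↦ h k m ν) n →
      ((fv p B Z T n m ν + 1 : ℕ) : ℕ∞) ≤ gv p m ν (minor M b b') := by
  classical
  obtain ⟨b0, hb0, K, hK⟩ := hC.leaf n m hT0 hT1
  refine ⟨max K (s m), fun ν hν hv => ?_⟩
  have hn0 : n ≠ 0 := fun h0 => hfl (Or.inl h0)
  obtain ⟨n', rfl⟩ : ∃ n', n = n' + 1 := ⟨n - 1, by omega⟩
  -- the slopes
  have hfn : h (n' + 1) m ν = fv p B Z T (n' + 1) m ν := (hC.hull m ν).eq_of_vtx hv
  have h1 := hK ν (le_trans (le_max_left _ _) hν)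
  have h2 := (hC.hull m ν).chord (a := n' + 1) (n := n' + 2) (b := b0) (by omega) (by omega)
  have e1 : ((b0 - (n' + 1) : ℕ) : ℤ) = (b0 : ℤ) - (n' + 1) := by
    rw [Nat.cast_sub (le_of_lt hb0)]
    push_cast
    ring
  rw [e1] at h1
  push_cast at h2
  have h9 : ((b0 : ℤ) - (n' + 1)) * h (n' + 2) m ν ≤
      ((b0 : ℤ) - (n' + 1)) * ((fv p B Z T (n' + 1) m ν : ℤ) + s m) := by
    nlinarith [h1, h2]
  have h10 : h (n' + 2) m ν ≤ (fv p B Z T (n' + 1) m ν : ℤ) + s m :=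
    le_of_mul_le_mul_left h9 (by omega)
  have h11 : 2 * h (n' + 1) m ν < h n' m ν + h (n' + 2) m ν := by
    rcases hv with hv | hv
    · omega
    · exact hv
  have hsl : (fv p B Z T (n' + 1) m ν : ℤ) + 1 ≤ h n' m ν + s m := by
    rw [hfn] at h11
    omega
  -- the row
  obtain ⟨x, hx⟩ := hrow (b i0) hi0
  choose z hz using hx
  set q : Fin (n' + 1) → ℤ_[p][X] := fun j => M (b i0) (b' j) -
    ∑ l ∈ Finset.range (n' + 1), C ((p : ℤ_[p]) * x l) * M l (b' j) with hq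
  have hqv : ∀ j, (s m : ℕ∞) ≤ gv p m ν (q j) := by
    intro j
    have e2 : (q j).eval (m : ℤ_[p]) = (p : ℤ_[p]) ^ s m * z (b' j) := by
      rw [hq]
      simp only [eval_sub, eval_finsetSum, eval_mul, eval_C]
      rw [hz (b' j)]
      ring
    have e3 : q j = (q j - C ((q j).eval (m : ℤ_[p]))) + C ((q j).eval (m : ℤ_[p])) := by
      rw [sub_add_cancel]
    rw [e3]
    refine co_le_gv_add ?_ ?_
    · exact le_trans (by exact_mod_cast (le_trans (le_max_right _ _) hν))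
        (co_gv_sub_eval m ν (q j))
    · rw [e2, C_mul, gv_mul]
      exact (co_gv_C_pow m ν (s m)).trans le_self_add
  set A : Matrix (Fin (n' + 1)) (Fin (n' + 1)) ℤ_[p][X] := Matrix.of fun i j ↦ M (b i) (b' j)
    with hA
  have hrowA : A i0 = ∑ l ∈ Finset.range (n' + 1), C ((p : ℤ_[p]) * x l) •
      (fun j ↦ M l (b' j)) + q := by
    funext j
    rw [Pi.add_apply, Finset.sum_apply, hq]
    simp only [Pi.smul_apply, smul_eq_mul]
    show M (b i0) (b' j) = _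
    ring
  have hl : ∀ l : ℕ, (A.updateRow i0 (fun j ↦ M l (b' j))).det =
      minor M (Function.update b i0 l) b' := by
    intro l
    unfold minor
    congr 1
    ext i j : 2
    rw [Matrix.of_apply]
    by_cases hi : i = i0
    · subst hi
      rw [Matrix.updateRow_self, Function.update_self]
    · rw [Matrix.updateRow_ne hi, Function.update_of_ne hi, hA, Matrix.of_apply]
  have hdet : minor M b b' = ∑ l ∈ Finset.range (n' + 1), C ((p : ℤ_[p]) * x l) *
      minor M (Function.update b i0 l) b' + (A.updateRow i0 q).det := by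
    have h3 : minor M b b' = (A.updateRow i0 (A i0)).det := by
      rw [Matrix.updateRow_eq_self]
      rfl
    rw [h3, hrowA, f_det_row, Finset.sum_congr rfl fun l _ => by rw [hl l]]
  rw [hdet]
  refine co_le_gv_add (co_le_gv_sum _ _ fun l _ => ?_) ?_
  · rw [C_mul, gv_mul, gv_mul]
    have h4 := weakB hC hM (n' + 1) (Function.update b i0 l) b' m ν hcl
    rw [hfn, Int.toNat_natCast] at h4
    have h5 := co_gv_C_pow (p := p) m ν 1
    rw [pow_one] at h5
    calc ((fv p B Z T (n' + 1) m ν + 1 : ℕ) : ℕ∞) =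
          ((1 : ℕ) : ℕ∞) + (fv p B Z T (n' + 1) m ν : ℕ∞) := by
            push_cast
            rw [add_comm]
      _ ≤ gv p m ν (C (p : ℤ_[p])) + gv p m ν (minor M (Function.update b i0 l) b') :=
          add_le_add h5 h4
      _ ≤ _ := add_le_add le_self_add le_rfl
  · have hexp : (A.updateRow i0 q).det = ∑ j : Fin (n' + 1), (-1) ^ ((i0 : ℕ) + (j : ℕ)) * q j *
        minor M (fun k => b (i0.succAbove k)) (fun k => b' (j.succAbove k)) := by
      rw [Matrix.det_succ_row _ i0]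
      refine Finset.sum_congr rfl fun j _ => ?_
      rw [Matrix.updateRow_self]
      congr 1
      unfold minor
      congr 1
      ext k l : 2
      rw [Matrix.submatrix_apply, Matrix.updateRow_ne (Fin.succAbove_ne i0 k)]
      rfl
    rw [hexp]
    refine co_le_gv_sum _ _ fun j _ => ?_
    rw [gv_mul, gv_mul]
    have h4 := weakB hC hM n' (fun k => b (i0.succAbove k)) (fun k => b' (j.succAbove k)) m ν hcl
    have h6 : fv p B Z T (n' + 1) m ν + 1 ≤ s m + (h n' m ν).toNat := by omega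
    calc ((fv p B Z T (n' + 1) m ν + 1 : ℕ) : ℕ∞) ≤ ((s m + (h n' m ν).toNat : ℕ) : ℕ∞) := by
          exact_mod_cast h6
      _ = (s m : ℕ∞) + ((h n' m ν).toNat : ℕ∞) := by push_cast; rfl
      _ ≤ gv p m ν (q j) + gv p m ν (minor M (fun k => b (i0.succAbove k))
            (fun k => b' (j.succAbove k))) := add_le_add (hqv j) h4
      _ ≤ _ := add_le_add le_add_self le_rfl

theorem b_u_nonneg (hC : CombG p B Z T s t h) (hM : MatB p a M B Z T s t) {n : ℕ}
    {b b' : Fin n → ℕ} (hP : minor M b b' ≠ 0) {c ν : ℕ} (hc : c ≡ a [MOD p])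
    (hU : h n c ν = fv p B Z T n c ν) : 0 ≤ uF p M B Z T b b' c ν := by
  have h1 := weakB hC hM n b b' c ν hc
  obtain ⟨g, hg⟩ := ENat.ne_top_iff_exists.1 (gv_ne_top hP c ν)
  unfold uF
  rw [hU, Int.toNat_natCast, ← hg] at h1
  rw [← hg, ENat.toNat_natCast]
  have h2 : fv p B Z T n c ν ≤ g := by exact_mod_cast h1
  omega

/-- If the excess is zero at a node where `n` is a vertex, then it is `≤ 0` at the parent; if it
is zero there, then it is zero at the children. -/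
theorem b_u_step (hC : CombG p B Z T s t h) (hM : MatB p a M B Z T s t) {n : ℕ}
    {b b' : Fin n → ℕ} (hP : minor M b b' ≠ 0) {c ν : ℕ} (hc : c ≡ a [MOD p])
    (hv : Vtx (fun k ↦ h k c (ν + 1)) n) (h0 : uF p M B Z T b b' c (ν + 1) ≤ 0) :
    uF p M B Z T b b' c ν ≤ 0 ∧ (0 ≤ uF p M B Z T b b' c ν →
      ∀ ε ∈ Finset.range p, uF p M B Z T b b' (c + ε * p ^ (ν + 1)) (ν + 2) ≤ 0) := by
  have hu0 : uF p M B Z T b b' c (ν + 1) = 0 :=
    le_antisymm h0 (b_u_nonneg hC hM hP hc ((hC.hull c (ν + 1)).eq_of_vtx hv))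
  have hch : ∀ ε, 0 ≤ uF p M B Z T b b' (c + ε * p ^ (ν + 1)) (ν + 2) := by
    intro ε
    have hcl : c + ε * p ^ (ν + 1) ≡ c [MOD p ^ (ν + 1)] := st_class c ε (ν + 1)
    have hvc : Vtx (fun k ↦ h k (c + ε * p ^ (ν + 1)) (ν + 1)) n := by
      rw [g_hull_congr hC hcl]
      exact hv
    exact b_u_nonneg hC hM hP ((a_class_p p c ε ν).trans hc)
      (hC.k3a n (c + ε * p ^ (ν + 1)) (ν + 1) hvc)
  have hsup := gv_super hP c ν
  have hharm := fv_harm (p := p) B Z T n c ν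
  have hsum : ∑ ε ∈ Finset.range p, uF p M B Z T b b' (c + ε * p ^ (ν + 1)) (ν + 2) ≤
      - uF p M B Z T b b' c ν := by
    have e1 : ∑ ε ∈ Finset.range p, uF p M B Z T b b' (c + ε * p ^ (ν + 1)) (ν + 2) =
        ∑ ε ∈ Finset.range p, (((gv p (c + ε * p ^ (ν + 1)) (ν + 2) (minor M b b')).toNat : ℤ) -
          (gv p c (ν + 1) (minor M b b')).toNat) -
        ∑ ε ∈ Finset.range p, ((fv p B Z T n (c + ε * p ^ (ν + 1)) (ν + 2) : ℤ) -
          fv p B Z T n c (ν + 1)) := by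
      rw [← Finset.sum_sub_distrib]
      refine Finset.sum_congr rfl fun ε _ => ?_
      unfold uF at hu0 ⊢
      omega
    rw [e1, hharm]
    unfold uF at hu0 ⊢
    omega
  constructor
  · have h1 : 0 ≤ ∑ ε ∈ Finset.range p, uF p M B Z T b b' (c + ε * p ^ (ν + 1)) (ν + 2) :=
      Finset.sum_nonneg fun ε _ => hch ε
    omega
  · intro h1 ε hε
    have h2 := Finset.single_le_sum
      (f := fun ε => uF p M B Z T b b' (c + ε * p ^ (ν + 1)) (ν + 2)) (fun ε _ => hch ε) hε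
    have h3 : uF p M B Z T b b' (c + ε * p ^ (ν + 1)) (ν + 2) ≤ - uF p M B Z T b b' c ν :=
      h2.trans hsum
    omega

/-- THEOREM 2 on the branch of `a`. -/
theorem strictB (hC : CombG p B Z T s t h) (hM : MatB p a M B Z T s t) (n : ℕ)
    (b b' : Fin n → ℕ)
    (hroot : Vtx (fun k ↦ h k 0 0) n → ((B n + 1 : ℕ) : ℕ∞) ≤ gv p 0 0 (minor M b b'))
    (hflat : ¬ Vtx (fun k ↦ h k 0 0) n →
      (∀ m, m ≡ a [MOD p] → T n m = 0 → T (n + 1) m ≠ 0 → FlatRow p M n m (s m)) ∧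
        ∃ i, n ≤ b i)
    (c ν : ℕ) (hc : c ≡ a [MOD p]) (hv : Vtx (fun k ↦ h k c ν) n) :
    ((fv p B Z T n c ν + 1 : ℕ) : ℕ∞) ≤ gv p c ν (minor M b b') := by
  by_cases hP : minor M b b' = 0
  · rw [hP, gv_zero]
    exact le_top
  rw [f_one_le_u hP]
  have hlevel0 : ∀ c, c ≡ 0 [MOD p ^ 0] := fun c => by simp [Nat.ModEq, Nat.mod_one]
  induction ν generalizing c with
  | zero =>
    rw [f_u_congr b b' (hlevel0 c), ← f_one_le_u hP, fv_root]
    refine hroot ?_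
    rw [g_hull_congr hC (hlevel0 c)] at hv
    exact hv
  | succ ν ih =>
    by_contra hlt
    have hle : uF p M B Z T b b' c (ν + 1) ≤ 0 := by omega
    obtain ⟨h1, -⟩ := b_u_step hC hM hP hc hv hle
    rcases hC.k3b n c ν hv with h2 | ⟨hfl, hU, m, hT0, hT1, hcz⟩
    · have := ih c hc h2
      omega
    · obtain ⟨hrow, i0, hi0⟩ := hflat hfl
      have hma : m ≡ a [MOD p] :=
        (hcz.symm.of_dvd (dvd_pow_self p (Nat.succ_ne_zero ν))).trans hc
      obtain ⟨K, hK⟩ := b_leaf hC hM hma hfl hT0 hT1 (hrow m hma hT0 hT1) b b' i0 hi0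
      have h3 := b_u_nonneg hC hM hP hc hU
      -- down the path to `m`
      have key : ∀ i : ℕ, Vtx (fun k ↦ h k m (ν + i + 1)) n ∧
          uF p M B Z T b b' m (ν + i + 1) ≤ 0 ∧ 0 ≤ uF p M B Z T b b' m (ν + i) := by
        intro i
        induction i with
        | zero =>
          rw [Nat.add_zero]
          refine ⟨?_, ?_, ?_⟩
          · rw [← g_hull_congr hC hcz]
            exact hv
          · rw [← f_u_congr b b' hcz]
            exact hle
          · show 0 ≤ uF p M B Z T b b' m ν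
            rw [← f_u_congr b b' (hcz.of_dvd (pow_dvd_pow p (Nat.le_succ ν)))]
            exact h3
        | succ i ihi =>
          obtain ⟨k1, k2, k3⟩ := ihi
          refine ⟨hC.down n (ν + i + 1) m hfl hT0 hT1 k1, ?_, ?_⟩
          · obtain ⟨-, h5⟩ := b_u_step hC hM hP hma k1 k2
            have h6 := h5 k3 0 (Finset.mem_range.2 (Fact.out (p := p.Prime)).pos)
            rw [zero_mul, add_zero] at h6
            exact h6
          · exact b_u_nonneg hC hM hP hma ((hC.hull m (ν + i + 1)).eq_of_vtx k1)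
      obtain ⟨k1, k2, -⟩ := key K
      have h7 := (f_one_le_u hP _ _).1 (hK (ν + K + 1) (by omega) k1)
      omega

/-! ### One polynomial -/

theorem b_norm_lead (hlead : ∀ n, ∃ (u : ℤ_[p][X]) (z : (ℤ_[p])ˣ),
      C (p : ℤ_[p]) ∣ u - C (z : ℤ_[p]) ∧ lead M n = C ((p : ℤ_[p]) ^ B n) * u *
        ∏ m ∈ Finset.range (Z n), (X - C (m : ℤ_[p])) ^ T n m)
    (φ : ℤ_[p] →+* K) (hφ : ∀ z, ‖φ z‖ = ‖z‖) {y : K}
    (hy : ‖y‖ ≤ 1) (n : ℕ) : ‖(lead M n).eval₂ φ y‖ =
      (p : ℝ) ^ (-(B n : ℝ)) * ∏ m ∈ Finset.range (Z n), ‖y - (m : K)‖ ^ T n m := by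
  obtain ⟨u, z, ⟨q, hq⟩, hl⟩ := hlead n
  have hp : (1 : ℝ) < p := by exact_mod_cast (Fact.out : p.Prime).one_lt
  rw [hl, eval₂_mul, eval₂_mul, norm_mul, norm_mul, eval₂_C, hφ, PadicInt.norm_p_pow]
  have hu : ‖u.eval₂ φ y‖ = 1 := by
    have h1 : u = C (z : ℤ_[p]) + C (p : ℤ_[p]) * q := by
      rw [← hq]
      ring
    rw [h1, eval₂_add, eval₂_mul, eval₂_C, eval₂_C]
    have h2 : ‖φ (z : ℤ_[p])‖ = 1 := by rw [hφ, PadicInt.norm_units]
    have h3 : ‖φ (p : ℤ_[p]) * q.eval₂ φ y‖ < ‖φ (z : ℤ_[p])‖ := by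
      rw [h2, norm_mul, hφ, PadicInt.norm_p]
      calc (p : ℝ)⁻¹ * ‖q.eval₂ φ y‖ ≤ (p : ℝ)⁻¹ * 1 :=
            mul_le_mul_of_nonneg_left (lv_norm_eval_le φ hφ hy q) (by positivity)
        _ < 1 := by
            rw [mul_one]
            exact inv_lt_one_of_one_lt₀ hp
    have h4 := IsUltrametricDist.norm_add_eq_max_of_norm_ne_norm h3.ne'
    rw [h4, max_eq_left h3.le, h2]
  rw [hu, mul_one]
  congr 1
  · rw [zpow_neg, zpow_natCast, Real.rpow_neg (by positivity), Real.rpow_natCast]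
  · rw [← coe_eval₂RingHom, map_prod, norm_prod]
    refine Finset.prod_congr rfl fun m _ => ?_
    rw [map_pow, norm_pow, coe_eval₂RingHom, eval₂_sub, eval₂_X, eval₂_C, map_natCast]

/-- The norm of a leading minor if the distances to the zeros are given. -/
theorem b_norm_lead_of (hlead : ∀ n, ∃ (u : ℤ_[p][X]) (z : (ℤ_[p])ˣ),
      C (p : ℤ_[p]) ∣ u - C (z : ℤ_[p]) ∧ lead M n = C ((p : ℤ_[p]) ^ B n) * u *
        ∏ m ∈ Finset.range (Z n), (X - C (m : ℤ_[p])) ^ T n m)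
    (φ : ℤ_[p] →+* K) (hφ : ∀ z, ‖φ z‖ = ‖z‖) {y : K}
    (hy : ‖y‖ ≤ 1) (k : ℕ) (w : ℕ → ℝ)
    (hw : ∀ m ∈ Finset.range (Z k), T k m ≠ 0 → ‖y - (m : K)‖ = (p : ℝ) ^ (-(w m))) :
    ‖(lead M k).eval₂ φ y‖ =
      (p : ℝ) ^ (-((B k : ℝ) + ∑ m ∈ Finset.range (Z k), (T k m : ℝ) * w m)) := by
  rw [b_norm_lead hlead φ hφ hy]
  have h1 : ∏ m ∈ Finset.range (Z k), ‖y - (m : K)‖ ^ T k m =
      (p : ℝ) ^ (-(∑ m ∈ Finset.range (Z k), (T k m : ℝ) * w m)) := by
    rw [← Finset.sum_neg_distrib, Real.rpow_sum_of_pos rt_pos]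
    refine Finset.prod_congr rfl fun m hm => ?_
    by_cases h0 : T k m = 0
    · rw [h0, pow_zero, Nat.cast_zero, zero_mul, neg_zero, Real.rpow_zero]
    · rw [hw m hm h0, ← Real.rpow_natCast, ← Real.rpow_mul rt_pos.le]
      congr 1
      ring
  rw [h1, ← Real.rpow_add rt_pos]
  congr 1
  ring

/-- Case A. -/
theorem b_lead_A (hlead : ∀ n, ∃ (u : ℤ_[p][X]) (z : (ℤ_[p])ˣ),
      C (p : ℤ_[p]) ∣ u - C (z : ℤ_[p]) ∧ lead M n = C ((p : ℤ_[p]) ^ B n) * u *
        ∏ m ∈ Finset.range (Z n), (X - C (m : ℤ_[p])) ^ T n m)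
    (φ : ℤ_[p] →+* K) (hφ : ∀ z, ‖φ z‖ = ‖z‖) {y : K}
    (hy : ‖y‖ ≤ 1) {c ν : ℕ} {θ : ℝ}
    (hm : ∀ m : ℕ, ‖y - (m : K)‖ =
        (p : ℝ) ^ (-((1 - θ) * tau p c ν m + θ * tau p c (ν + 1) m : ℝ))) (k : ℕ) :
    ‖(lead M k).eval₂ φ y‖ =
      (p : ℝ) ^ (-((1 - θ) * (fv p B Z T k c ν : ℝ) + θ * (fv p B Z T k c (ν + 1) : ℝ))) := by
  rw [b_norm_lead_of hlead φ hφ hy k _ fun m _ _ => hm m]
  congr 2
  unfold fv
  push_cast
  have h1 : ∑ m ∈ Finset.range (Z k), (T k m : ℝ) *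
      ((1 - θ) * (tau p c ν m : ℝ) + θ * (tau p c (ν + 1) m : ℝ)) =
      (1 - θ) * ∑ m ∈ Finset.range (Z k), (T k m : ℝ) * (tau p c ν m : ℝ) +
        θ * ∑ m ∈ Finset.range (Z k), (T k m : ℝ) * (tau p c (ν + 1) m : ℝ) := by
    rw [Finset.mul_sum, Finset.mul_sum, ← Finset.sum_add_distrib]
    refine Finset.sum_congr rfl fun m _ => ?_
    ring
  rw [h1]
  ring

/-- Case B. -/
theorem b_lead_B (hlead : ∀ n, ∃ (u : ℤ_[p][X]) (z : (ℤ_[p])ˣ),
      C (p : ℤ_[p]) ∣ u - C (z : ℤ_[p]) ∧ lead M n = C ((p : ℤ_[p]) ^ B n) * u *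
        ∏ m ∈ Finset.range (Z n), (X - C (m : ℤ_[p])) ^ T n m)
    (φ : ℤ_[p] →+* K) (hφ : ∀ z, ‖φ z‖ = ‖z‖) {y : K}
    (hy : ‖y‖ ≤ 1) {c ν : ℕ} (hc : ‖y - (c : K)‖ ≤ (p : ℝ) ^ (-(ν : ℝ))) (k : ℕ) :
    ‖(lead M k).eval₂ φ y‖ = (p : ℝ) ^ (-(fv p B Z T k c ν : ℝ)) ∨
      (ν ≤ fv p B Z T k c ν ∧ ‖(lead M k).eval₂ φ y‖ ≤ (p : ℝ) ^ (-(ν : ℝ))) := by
  by_cases hall : ∀ m ∈ Finset.range (Z k), T k m ≠ 0 →
      ‖y - (m : K)‖ = (p : ℝ) ^ (-(tau p c ν m : ℝ))
  · left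
    rw [b_norm_lead_of hlead φ hφ hy k (fun m => (tau p c ν m : ℝ)) hall]
    congr 2
    unfold fv
    push_cast
    rfl
  · right
    push Not at hall
    obtain ⟨m, hm, hT, hne⟩ := hall
    obtain ⟨hmod, hle⟩ := (norm_sub_of_close φ hφ (m := m) hc).resolve_left hne
    have htau : tau p c ν m = ν := by
      unfold tau
      rw [Finset.filter_true_of_mem, Nat.card_Icc, Nat.add_sub_cancel]
      intro j hj
      rw [Finset.mem_Icc] at hj
      exact hmod.of_dvd (pow_dvd_pow p hj.2)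
    have hTpos : 1 ≤ T k m := Nat.one_le_iff_ne_zero.2 hT
    refine ⟨?_, ?_⟩
    · unfold fv
      have h1 : T k m * tau p c ν m ≤ ∑ m ∈ Finset.range (Z k), T k m * tau p c ν m :=
        Finset.single_le_sum (f := fun m => T k m * tau p c ν m) (fun _ _ => Nat.zero_le _) hm
      rw [htau] at h1
      nlinarith
    · rw [b_norm_lead hlead φ hφ hy]
      have hle1 : ∀ j : ℕ, ‖y - (j : K)‖ ≤ 1 := fun j => fn_norm_sub_le φ hφ hy j
      have h2 : ∏ m ∈ Finset.range (Z k), ‖y - (m : K)‖ ^ T k m ≤ ‖y - (m : K)‖ := by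
        rw [← Finset.mul_prod_erase _ _ hm]
        have h3 : ∏ x ∈ (Finset.range (Z k)).erase m, ‖y - (x : K)‖ ^ T k x ≤ 1 :=
          Finset.prod_le_one (fun _ _ => by positivity)
            fun j _ => pow_le_one₀ (norm_nonneg _) (hle1 j)
        calc ‖y - (m : K)‖ ^ T k m * ∏ x ∈ (Finset.range (Z k)).erase m, ‖y - (x : K)‖ ^ T k x
            ≤ ‖y - (m : K)‖ ^ 1 * 1 := by
              refine mul_le_mul ?_ h3 (Finset.prod_nonneg fun _ _ => by positivity)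
                (by positivity)
              exact pow_le_pow_of_le_one (norm_nonneg _) (hle1 m) hTpos
          _ = ‖y - (m : K)‖ := by rw [pow_one, mul_one]
      have h4 : (p : ℝ) ^ (-(B k : ℝ)) ≤ 1 :=
        Real.rpow_le_one_of_one_le_of_nonpos rt_one_lt.le (by simp)
      calc (p : ℝ) ^ (-(B k : ℝ)) * ∏ m ∈ Finset.range (Z k), ‖y - (m : K)‖ ^ T k m
          ≤ 1 * ‖y - (m : K)‖ :=
            mul_le_mul h4 h2 (Finset.prod_nonneg fun _ _ => by positivity) zero_le_one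
        _ = ‖y - (m : K)‖ := one_mul _
        _ ≤ _ := hle

theorem final_weakP (hC : CombG p B Z T s t h) (hlead : ∀ n, ∃ (u : ℤ_[p][X]) (z : (ℤ_[p])ˣ),
      C (p : ℤ_[p]) ∣ u - C (z : ℤ_[p]) ∧ lead M n = C ((p : ℤ_[p]) ^ B n) * u *
        ∏ m ∈ Finset.range (Z n), (X - C (m : ℤ_[p])) ^ T n m) (φ : ℤ_[p] →+* K)
    (hφ : ∀ z, ‖φ z‖ = ‖z‖) {y : K} (hy : ‖y‖ ≤ 1) {R r : ℝ}
    (hR : 0 < R) (hr : 0 < r) (hD : ∀ k, ‖(lead M k).eval₂ φ y‖ ≤ R * r ^ k)
    {n : ℕ} (Q : ℤ_[p][X]) (hQw : ∀ c ν, ((h n c ν).toNat : ℕ∞) ≤ gv p c ν Q) :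
    ‖Q.eval₂ φ y‖ ≤ R * r ^ n := by
  set L : ℝ := -Real.logb p R with hL
  set sl : ℝ := -Real.logb p r with hsl
  have hlog : ∀ k : ℕ, R * r ^ k = (p : ℝ) ^ (-(L + sl * k)) := fun k => fn_log hR hr k
  rcases retract φ hφ hy with hB | ⟨c, ν, θ, h0, h1, hyc, hm⟩
  · obtain ⟨Q', hQ'⟩ := hC.near n
    obtain ⟨ν, hν⟩ := fn_exists_level Q' L sl
    obtain ⟨c, hc⟩ := hB ν
    obtain ⟨b', hnb, hbQ, hvb⟩ := hQ' c ν
    have hline : ∀ k, k ≤ b' → L + sl * k ≤ (fv p B Z T k c ν : ℕ) := by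
      intro k hk
      rcases b_lead_B hlead φ hφ hy hc k with h3 | ⟨h3, -⟩
      · have h4 := hD k
        rw [h3, hlog, fn_le_iff] at h4
        exact h4
      · have h4 : (ν : ℝ) ≤ (fv p B Z T k c ν : ℕ) := by exact_mod_cast h3
        exact (hν k (hk.trans hbQ)).le.trans h4
    have h5 := (hC.hull c ν).line_le ((hC.hull c ν).eq_of_vtx hvb) hline hnb
    have h6 := hQw c ν
    have h7 := norm_eval_le φ hφ Q c ν (θ := 0) le_rfl zero_le_one h6
      (l := 0) (by simp) (y := y) (by rw [add_zero]; exact hc)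
    refine h7.trans ?_
    rw [hlog, fn_le_iff]
    have h8 : ((h n c ν : ℤ) : ℝ) ≤ ((h n c ν).toNat : ℝ) := by
      exact_mod_cast Int.self_le_toNat _
    linarith
  · have hl : ∀ k : ℕ, L + sl * k ≤ (1 - θ) * (fv p B Z T k c ν : ℕ) +
        θ * (fv p B Z T k c (ν + 1) : ℕ) := by
      intro k
      have h3 := hD k
      rw [b_lead_A hlead φ hφ hy hm k, hlog, fn_le_iff] at h3
      exact h3
    have h4 := hull_interpF (hC.hull c ν) (hC.hull c (ν + 1)) (fun k hk => hC.k3a k c ν hk)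
      (fun k hk => g_vtx_parent hC hk) (fun k => by
        obtain ⟨Q', hQ'⟩ := hC.near k
        obtain ⟨b', hnb, -, hvb⟩ := hQ' c ν
        exact ⟨b', hnb, hvb⟩) hl n
    have h6 := hQw c ν
    have h6' := hQw c (ν + 1)
    have h7 := norm_eval_le φ hφ Q c ν h0 h1.le h6 h6' (y := y) hyc.le
    refine h7.trans ?_
    rw [hlog, fn_le_iff]
    refine h4.trans ?_
    have h8 : ((h n c ν : ℤ) : ℝ) ≤ ((h n c ν).toNat : ℝ) := by
      exact_mod_cast Int.self_le_toNat _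
    have h9 : ((h n c (ν + 1) : ℤ) : ℝ) ≤ ((h n c (ν + 1)).toNat : ℝ) := by
      exact_mod_cast Int.self_le_toNat _
    exact add_le_add (mul_le_mul_of_nonneg_left h8 (by linarith))
      (mul_le_mul_of_nonneg_left h9 h0)

theorem final_strictP (hC : CombG p B Z T s t h) (hlead : ∀ n, ∃ (u : ℤ_[p][X]) (z : (ℤ_[p])ˣ),
      C (p : ℤ_[p]) ∣ u - C (z : ℤ_[p]) ∧ lead M n = C ((p : ℤ_[p]) ^ B n) * u *
        ∏ m ∈ Finset.range (Z n), (X - C (m : ℤ_[p])) ^ T n m)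
    (φ : ℤ_[p] →+* K) (hφ : ∀ z, ‖φ z‖ = ‖z‖) {y : K} (hy : ‖y‖ ≤ 1) {R r : ℝ}
    (hR : 0 < R) (hr : 0 < r) {n : ℕ} (hn : ‖(lead M n).eval₂ φ y‖ = R * r ^ n)
    (hD : ∀ k, k ≠ n → ‖(lead M k).eval₂ φ y‖ < R * r ^ k)
    (Q : ℤ_[p][X]) (hQw : ∀ c ν, ((h n c ν).toNat : ℕ∞) ≤ gv p c ν Q)
    (hQs : ∀ c ν, Vtx (fun k ↦ h k c ν) n →
      ((fv p B Z T n c ν + 1 : ℕ) : ℕ∞) ≤ gv p c ν Q) :
    ‖Q.eval₂ φ y‖ < R * r ^ n := by
  set L : ℝ := -Real.logb p R with hL
  set sl : ℝ := -Real.logb p r with hsl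
  have hlog : ∀ k : ℕ, R * r ^ k = (p : ℝ) ^ (-(L + sl * k)) := fun k => fn_log hR hr k
  rcases retract φ hφ hy with hB | ⟨c, ν, θ, h0, h1, hyc, hm⟩
  · obtain ⟨Q', hQ'⟩ := hC.near (n + 1)
    obtain ⟨ν, hν⟩ := fn_exists_level Q' L sl
    obtain ⟨c, hc⟩ := hB ν
    obtain ⟨b', hnb, hbQ, hvb⟩ := hQ' c ν
    have hneq : L + sl * n = (fv p B Z T n c ν : ℕ) := by
      rcases b_lead_B hlead φ hφ hy hc n with h3 | ⟨-, h3⟩
      · rw [h3, hlog, fn_eq_iff] at hn
        exact hn.symm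
      · rw [hn, hlog, fn_le_iff] at h3
        exact absurd h3 (not_le.2 (hν n (by omega)))
    have hline : ∀ k, k ≤ b' → k ≠ n → L + sl * k < (fv p B Z T k c ν : ℕ) := by
      intro k hk hkn
      rcases b_lead_B hlead φ hφ hy hc k with h3 | ⟨h3, -⟩
      · have h4 := hD k hkn
        rw [h3, hlog, fn_lt_iff] at h4
        exact h4
      · have h4 : (ν : ℝ) ≤ (fv p B Z T k c ν : ℕ) := by exact_mod_cast h3
        exact (hν k (hk.trans hbQ)).trans_le h4
    have h5 := (hC.hull c ν).vtx_of_line ((hC.hull c ν).eq_of_vtx hvb) (by omega) hneq hline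
    have h6 := hQs c ν h5
    have h7 := norm_eval_le φ hφ Q c ν (θ := 0) le_rfl zero_le_one h6
      (l := 0) (by simp) (y := y) (by rw [add_zero]; exact hc)
    refine h7.trans_lt ?_
    rw [hlog, fn_lt_iff, hneq]
    push_cast
    linarith
  · have hneq : L + sl * n = (1 - θ) * (fv p B Z T n c ν : ℕ) +
        θ * (fv p B Z T n c (ν + 1) : ℕ) := by
      rw [b_lead_A hlead φ hφ hy hm n, hlog, fn_eq_iff] at hn
      exact hn.symm
    have hl : ∀ k : ℕ, k ≠ n → L + sl * k < (1 - θ) * (fv p B Z T k c ν : ℕ) +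
        θ * (fv p B Z T k c (ν + 1) : ℕ) := by
      intro k hk
      have h3 := hD k hk
      rw [b_lead_A hlead φ hφ hy hm k, hlog, fn_lt_iff] at h3
      exact h3
    have hvn := hull_interp_vtxF (hC.hull c ν) (hC.hull c (ν + 1))
      (fun k hk => hC.k3a k c ν hk) (fun k hk => g_vtx_parent hC hk) (fun k => by
        obtain ⟨Q', hQ'⟩ := hC.near k
        obtain ⟨b', hnb, -, hvb⟩ := hQ' c ν
        exact ⟨b', hnb, hvb⟩) h0 h1 hneq hl
    rcases hvn with hvn | ⟨hpos, hvn⟩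
    · have h6 := hQs c ν hvn
      have h6' := hQw c (ν + 1)
      rw [hC.k3a n c ν hvn, Int.toNat_natCast] at h6'
      have h7 := norm_eval_le φ hφ Q c ν h0 h1.le h6 h6' (y := y) hyc.le
      refine h7.trans_lt ?_
      rw [hlog, fn_lt_iff, hneq]
      push_cast
      nlinarith
    · have h6 := hQw c ν
      rw [g_vtx_parent hC hvn, Int.toNat_natCast] at h6
      have h6' := hQs c (ν + 1) hvn
      have h7 := norm_eval_le φ hφ Q c ν h0 h1.le h6 h6' (y := y) hyc.le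
      refine h7.trans_lt ?_
      rw [hlog, fn_lt_iff, hneq]
      push_cast
      nlinarith

end GH.Pot
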