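import Pool.Agent.GH.Pot.FStrict
import Pool.Agent.GH.Pot.WFinal

/-! The output of GH-POT in the whole disc `|y| ≤ 1`, weak root dominance, flat indices. -/

open Polynomial

noncomputable section

namespace GH.Pot

/-! ### Interpolation of two hulls -/

section

variable {f f' : ℕ → ℕ} {h h' : ℕ → ℤ}

/-- the data for two hulls, each on the graph at the vertices of the other -/
theorem Hull_twoF (H : IsHull f h) (H' : IsHull f' h')
    (hv : ∀ n, Vtx h n → h' n = f' n) (hvv : ∀ n, Vtx h' n → h n = f n)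
    (hinf : ∀ n, ∃ k, n ≤ k ∧ Vtx h k) (θ : ℝ) (n : ℕ) :
    ∃ a b, a ≤ n ∧ n ≤ b ∧ (a = b → a = n) ∧ (¬ (Vtx h n ∨ Vtx h' n) → a < n ∧ n < b) ∧
      ((1 - θ) * h a + θ * h' a = (1 - θ) * f a + θ * f' a) ∧
      ((1 - θ) * h b + θ * h' b = (1 - θ) * f b + θ * f' b) ∧
      ((b : ℝ) - a) * ((1 - θ) * h n + θ * h' n) =
        ((b : ℝ) - n) * ((1 - θ) * h a + θ * h' a) +
          ((n : ℝ) - a) * ((1 - θ) * h b + θ * h' b) := by
  obtain ⟨a, b, h1, h2, h3, h4, h5, -, -⟩ := Hull_between (fun k ↦ Vtx h k ∨ Vtx h' k)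
    (Or.inl (Or.inl rfl)) (fun n => by
      obtain ⟨k, hk1, hk2⟩ := hinf n
      exact ⟨k, hk1, Or.inl hk2⟩) n
  have hval : ∀ k, Vtx h k ∨ Vtx h' k →
      (1 - θ) * (h k : ℝ) + θ * h' k = (1 - θ) * f k + θ * f' k := by
    intro k hk
    rcases hk with hk | hk
    · rw [H.eq_of_vtx hk, hv k hk]
      simp
    · rw [H'.eq_of_vtx hk, hvv k hk]
      simp
  refine ⟨a, b, h1, h2, fun e ↦ by omega, ?_, hval a h3, hval b h4, ?_⟩
  · intro hn
    constructor
    · rcases Nat.lt_or_ge a n with h | h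
      · exact h
      · have : a = n := by omega
        subst this
        exact absurd h3 hn
    · rcases Nat.lt_or_ge n b with h | h
      · exact h
      · have : b = n := by omega
        subst this
        exact absurd h4 hn
  · refine Hull_lin_chord (g := fun k ↦ (1 - θ) * (h k : ℝ) + θ * (h' k : ℝ)) ?_ h1 h2
    intro k hk1 hk2
    have hk := h5 k hk1 hk2
    have l1 := (H.of_not_vtx fun h ↦ hk (Or.inl h)).2
    have l2 := (H'.of_not_vtx fun h ↦ hk (Or.inr h)).2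
    have l1' : 2 * (h k : ℝ) = (h (k - 1) : ℝ) + (h (k + 1) : ℝ) := by exact_mod_cast l1
    have l2' : 2 * (h' k : ℝ) = (h' (k - 1) : ℝ) + (h' (k + 1) : ℝ) := by exact_mod_cast l2
    show 2 * ((1 - θ) * (h k : ℝ) + θ * (h' k : ℝ)) = (1 - θ) * (h (k - 1) : ℝ) +
      θ * (h' (k - 1) : ℝ) + ((1 - θ) * (h (k + 1) : ℝ) + θ * (h' (k + 1) : ℝ))
    linear_combination (1 - θ) * l1' + θ * l2'

/-- A line below the weighted sum of the functions is below the weighted sum of the hulls. -/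
theorem hull_interpF (H : IsHull f h) (H' : IsHull f' h')
    (hv : ∀ n, Vtx h n → h' n = f' n) (hvv : ∀ n, Vtx h' n → h n = f n)
    (hinf : ∀ n, ∃ k, n ≤ k ∧ Vtx h k) {θ L s : ℝ}
    (hl : ∀ n, L + s * n ≤ (1 - θ) * f n + θ * f' n) (n : ℕ) :
    L + s * n ≤ (1 - θ) * h n + θ * h' n := by
  obtain ⟨a, b, han, hnb, h3, -, h5, h6, h7⟩ := Hull_twoF H H' hv hvv hinf θ n
  have la := hl a
  have lb := hl b
  rw [← h5] at la
  rw [← h6] at lb
  rcases Nat.lt_or_ge a b with hab | hab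
  · have c1 : (0 : ℝ) ≤ (b : ℝ) - n := by
      have : (n : ℝ) ≤ b := by exact_mod_cast hnb
      linarith
    have c2 : (0 : ℝ) ≤ (n : ℝ) - a := by
      have : (a : ℝ) ≤ n := by exact_mod_cast han
      linarith
    have c3 : (0 : ℝ) < (b : ℝ) - a := by
      have : (a : ℝ) < b := by exact_mod_cast hab
      linarith
    refine le_of_mul_le_mul_left ?_ c3
    rw [h7]
    nlinarith [mul_le_mul_of_nonneg_left la c1, mul_le_mul_of_nonneg_left lb c2]
  · have hab' : a = b := by omega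
    have := h3 hab'
    subst this
    exact la

/-- If the line touches the weighted sum of the functions only at `n`, then `n` is a vertex of the
first hull, or of the second one and `θ > 0`. -/
theorem hull_interp_vtxF (H : IsHull f h) (H' : IsHull f' h')
    (hv : ∀ n, Vtx h n → h' n = f' n) (hvv : ∀ n, Vtx h' n → h n = f n)
    (hinf : ∀ n, ∃ k, n ≤ k ∧ Vtx h k) {θ L s : ℝ} (h0 : 0 ≤ θ) (h1 : θ < 1) {n : ℕ}
    (hn : L + s * n = (1 - θ) * f n + θ * f' n)
    (hl : ∀ k, k ≠ n → L + s * k < (1 - θ) * f k + θ * f' k) :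
    Vtx h n ∨ (0 < θ ∧ Vtx h' n) := by
  rcases h0.eq_or_lt with h00 | hpos
  · left
    subst h00
    obtain ⟨b, hb1, hb2⟩ := hinf (n + 1)
    refine H.vtx_of_line (b := b) (L := L) (s := s) (H.eq_of_vtx hb2) (by omega) ?_ ?_
    · rw [hn]
      ring
    · intro k _ hk
      have := hl k hk
      linarith
  · by_contra hcon
    push Not at hcon
    obtain ⟨hc1, hc2⟩ := hcon
    obtain ⟨a, b, -, -, -, h4, h5, h6, h7⟩ := Hull_twoF H H' hv hvv hinf θ n
    obtain ⟨han, hnb⟩ := h4 (by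
      rintro (h | h)
      · exact hc1 h
      · exact hc2 hpos h)
    have la := hl a (by omega)
    have lb := hl b (by omega)
    rw [← h5] at la
    rw [← h6] at lb
    have c1 : (0 : ℝ) < (b : ℝ) - n := by
      have : (n : ℝ) < b := by exact_mod_cast hnb
      linarith
    have c2 : (0 : ℝ) < (n : ℝ) - a := by
      have : (a : ℝ) < n := by exact_mod_cast han
      linarith
    have hle : (1 - θ) * (h n : ℝ) + θ * h' n ≤ L + s * n := by
      rw [hn]
      have e1 : (h n : ℝ) ≤ f n := by exact_mod_cast H.le n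
      have e2 : (h' n : ℝ) ≤ f' n := by exact_mod_cast H'.le n
      exact add_le_add (mul_le_mul_of_nonneg_left e1 (by linarith))
        (mul_le_mul_of_nonneg_left e2 h0)
    have e3 := mul_lt_mul_of_pos_left la c1
    have e4 := mul_lt_mul_of_pos_left lb c2
    have e5 : ((b : ℝ) - a) * ((1 - θ) * (h n : ℝ) + θ * h' n) ≤ ((b : ℝ) - a) * (L + s * n) :=
      mul_le_mul_of_nonneg_left hle (by linarith)
    rw [h7] at e5
    nlinarith [e3, e4, e5]

end

variable {p : ℕ} [Fact p.Prime] {M : ℕ → ℕ → ℤ_[p][X]} {B Z : ℕ → ℕ} {T : ℕ → ℕ → ℕ}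
  {s t zf : ℕ → ℕ} {h : ℕ → ℕ → ℕ → ℤ} {K : Type*} [NormedField K] [IsUltrametricDist K]

omit [Fact p.Prime] in
theorem f_vtx_parent (hC : CombF p B Z T s t zf h) {n c ν : ℕ}
    (hv : Vtx (fun k ↦ h k c (ν + 1)) n) : h n c ν = fv p B Z T n c ν := by
  rcases hC.k3b n c ν hv with h1 | ⟨-, h1, -⟩
  · exact (hC.hull c ν).eq_of_vtx h1
  · exact h1

theorem final_weakF (hC : CombF p B Z T s t zf h) (hM : MatW p M B Z T s t) (φ : ℤ_[p] →+* K)
    (hφ : ∀ z, ‖φ z‖ = ‖z‖) {y : K} (hy : ‖y‖ ≤ 1) {R r : ℝ}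
    (hR : 0 < R) (hr : 0 < r) (hD : ∀ k, ‖(lead M k).eval₂ φ y‖ ≤ R * r ^ k)
    {n : ℕ} (a b : Fin n → ℕ) : ‖(minor M a b).eval₂ φ y‖ ≤ R * r ^ n := by
  set L : ℝ := -Real.logb p R with hL
  set sl : ℝ := -Real.logb p r with hsl
  have hlog : ∀ k : ℕ, R * r ^ k = (p : ℝ) ^ (-(L + sl * k)) := fun k => fn_log hR hr k
  rcases retract φ hφ hy with hB | ⟨c, ν, θ, h0, h1, hyc, hm⟩
  · obtain ⟨Q, hQ⟩ := hC.near n
    obtain ⟨ν, hν⟩ := fn_exists_level Q L sl
    obtain ⟨c, hc⟩ := hB ν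
    obtain ⟨b', hnb, hbQ, hvb⟩ := hQ c ν
    have hline : ∀ k, k ≤ b' → L + sl * k ≤ (fv p B Z T k c ν : ℕ) := by
      intro k hk
      rcases w_lead_B hM φ hφ hy hc k with h3 | ⟨h3, -⟩
      · have h4 := hD k
        rw [h3, hlog, fn_le_iff] at h4
        exact h4
      · have h4 : (ν : ℝ) ≤ (fv p B Z T k c ν : ℕ) := by exact_mod_cast h3
        exact (hν k (hk.trans hbQ)).le.trans h4
    have h5 := (hC.hull c ν).line_le ((hC.hull c ν).eq_of_vtx hvb) hline hnb
    have h6 := weakF hC hM n a b c ν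
    have h7 := norm_eval_le φ hφ (minor M a b) c ν (θ := 0) le_rfl zero_le_one h6
      (l := 0) (by simp) (y := y) (by rw [add_zero]; exact hc)
    refine h7.trans ?_
    rw [hlog, fn_le_iff]
    have h8 : ((h n c ν : ℤ) : ℝ) ≤ ((h n c ν).toNat : ℝ) := by
      exact_mod_cast Int.self_le_toNat _
    linarith
  · have hl : ∀ k : ℕ, L + sl * k ≤ (1 - θ) * (fv p B Z T k c ν : ℕ) +
        θ * (fv p B Z T k c (ν + 1) : ℕ) := by
      intro k
      have h3 := hD k
      rw [w_lead_A hM φ hφ hy hm k, hlog, fn_le_iff] at h3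
      exact h3
    have h4 := hull_interpF (hC.hull c ν) (hC.hull c (ν + 1)) (fun k hk => hC.k3a k c ν hk)
      (fun k hk => f_vtx_parent hC hk) (fun k => by
        obtain ⟨Q, hQ⟩ := hC.near k
        obtain ⟨b', hnb, -, hvb⟩ := hQ c ν
        exact ⟨b', hnb, hvb⟩) hl n
    have h6 := weakF hC hM n a b c ν
    have h6' := weakF hC hM n a b c (ν + 1)
    have h7 := norm_eval_le φ hφ (minor M a b) c ν h0 h1.le h6 h6' (y := y) hyc.le
    refine h7.trans ?_
    rw [hlog, fn_le_iff]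
    refine h4.trans ?_
    have h8 : ((h n c ν : ℤ) : ℝ) ≤ ((h n c ν).toNat : ℝ) := by
      exact_mod_cast Int.self_le_toNat _
    have h9 : ((h n c (ν + 1) : ℤ) : ℝ) ≤ ((h n c (ν + 1)).toNat : ℝ) := by
      exact_mod_cast Int.self_le_toNat _
    exact add_le_add (mul_le_mul_of_nonneg_left h8 (by linarith))
      (mul_le_mul_of_nonneg_left h9 h0)

theorem final_strictF (hC : CombF p B Z T s t zf h) (hM : MatW p M B Z T s t)
    (φ : ℤ_[p] →+* K) (hφ : ∀ z, ‖φ z‖ = ‖z‖) {y : K} (hy : ‖y‖ ≤ 1) {R r : ℝ}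
    (hR : 0 < R) (hr : 0 < r) {n : ℕ} (hn : ‖(lead M n).eval₂ φ y‖ = R * r ^ n)
    (hD : ∀ k, k ≠ n → ‖(lead M k).eval₂ φ y‖ < R * r ^ k)
    (a b : Fin n → ℕ)
    (hroot : Vtx (fun k ↦ h k 0 0) n → ((B n + 1 : ℕ) : ℕ∞) ≤ gv p 0 0 (minor M a b))
    (hflat : ¬ Vtx (fun k ↦ h k 0 0) n → FlatRow p M n (zf n) (s (zf n)) ∧ ∃ i, n ≤ a i) :
    ‖(minor M a b).eval₂ φ y‖ < R * r ^ n := by
  set L : ℝ := -Real.logb p R with hL
  set sl : ℝ := -Real.logb p r with hsl
  have hlog : ∀ k : ℕ, R * r ^ k = (p : ℝ) ^ (-(L + sl * k)) := fun k => fn_log hR hr k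
  rcases retract φ hφ hy with hB | ⟨c, ν, θ, h0, h1, hyc, hm⟩
  · obtain ⟨Q, hQ⟩ := hC.near (n + 1)
    obtain ⟨ν, hν⟩ := fn_exists_level Q L sl
    obtain ⟨c, hc⟩ := hB ν
    obtain ⟨b', hnb, hbQ, hvb⟩ := hQ c ν
    have hneq : L + sl * n = (fv p B Z T n c ν : ℕ) := by
      rcases w_lead_B hM φ hφ hy hc n with h3 | ⟨-, h3⟩
      · rw [h3, hlog, fn_eq_iff] at hn
        exact hn.symm
      · rw [hn, hlog, fn_le_iff] at h3
        exact absurd h3 (not_le.2 (hν n (by omega)))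
    have hline : ∀ k, k ≤ b' → k ≠ n → L + sl * k < (fv p B Z T k c ν : ℕ) := by
      intro k hk hkn
      rcases w_lead_B hM φ hφ hy hc k with h3 | ⟨h3, -⟩
      · have h4 := hD k hkn
        rw [h3, hlog, fn_lt_iff] at h4
        exact h4
      · have h4 : (ν : ℝ) ≤ (fv p B Z T k c ν : ℕ) := by exact_mod_cast h3
        exact (hν k (hk.trans hbQ)).trans_le h4
    have h5 := (hC.hull c ν).vtx_of_line ((hC.hull c ν).eq_of_vtx hvb) (by omega) hneq hline
    have h6 := strictF hC hM n a b hroot hflat c ν h5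
    have h7 := norm_eval_le φ hφ (minor M a b) c ν (θ := 0) le_rfl zero_le_one h6
      (l := 0) (by simp) (y := y) (by rw [add_zero]; exact hc)
    refine h7.trans_lt ?_
    rw [hlog, fn_lt_iff, hneq]
    push_cast
    linarith
  · have hneq : L + sl * n = (1 - θ) * (fv p B Z T n c ν : ℕ) +
        θ * (fv p B Z T n c (ν + 1) : ℕ) := by
      rw [w_lead_A hM φ hφ hy hm n, hlog, fn_eq_iff] at hn
      exact hn.symm
    have hl : ∀ k : ℕ, k ≠ n → L + sl * k < (1 - θ) * (fv p B Z T k c ν : ℕ) +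
        θ * (fv p B Z T k c (ν + 1) : ℕ) := by
      intro k hk
      have h3 := hD k hk
      rw [w_lead_A hM φ hφ hy hm k, hlog, fn_lt_iff] at h3
      exact h3
    have hvn := hull_interp_vtxF (hC.hull c ν) (hC.hull c (ν + 1))
      (fun k hk => hC.k3a k c ν hk) (fun k hk => f_vtx_parent hC hk) (fun k => by
        obtain ⟨Q, hQ⟩ := hC.near k
        obtain ⟨b', hnb, -, hvb⟩ := hQ c ν
        exact ⟨b', hnb, hvb⟩) h0 h1 hneq hl
    rcases hvn with hvn | ⟨hpos, hvn⟩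
    · have h6 := strictF hC hM n a b hroot hflat c ν hvn
      have h6' := weakF hC hM n a b c (ν + 1)
      rw [hC.k3a n c ν hvn, Int.toNat_natCast] at h6'
      have h7 := norm_eval_le φ hφ (minor M a b) c ν h0 h1.le h6 h6' (y := y) hyc.le
      refine h7.trans_lt ?_
      rw [hlog, fn_lt_iff, hneq]
      push_cast
      nlinarith
    · have h6 := weakF hC hM n a b c ν
      rw [f_vtx_parent hC hvn, Int.toNat_natCast] at h6
      have h6' := strictF hC hM n a b hroot hflat c (ν + 1) hvn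
      have h7 := norm_eval_le φ hφ (minor M a b) c ν h0 h1.le h6 h6' (y := y) hyc.le
      refine h7.trans_lt ?_
      rw [hlog, fn_lt_iff, hneq]
      push_cast
      nlinarith

end GH.Pot
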