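import Pool.Agent.GH.Pot.AFinal

/-!
# GH-POT, version for the whole disc with weak root dominance

Input: `Comb` (all residue classes) and `MatW`: as `Mat`, but at the root only `B n ≤` for all
minors. Strictness is then available minor by minor.
-/

open Polynomial

noncomputable section

namespace GH.Pot

/-- The input about the matrix, weak form. -/
structure MatW (p : ℕ) [Fact p.Prime] (M : ℕ → ℕ → ℤ_[p][X]) (B Z : ℕ → ℕ) (T : ℕ → ℕ → ℕ)
    (s t : ℕ → ℕ) : Prop where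
  /-- (M1) the leading minors: `p^(B n) u ∏ (X - m)^(T n m)` with `u` a unit mod `p` -/
  lead : ∀ n, ∃ (u : ℤ_[p][X]) (z : (ℤ_[p])ˣ), C (p : ℤ_[p]) ∣ u - C (z : ℤ_[p]) ∧
    lead M n = C ((p : ℤ_[p]) ^ B n) * u *
      ∏ m ∈ Finset.range (Z n), (X - C (m : ℤ_[p])) ^ T n m
  /-- (M2) at the root no minor is smaller than the leading one -/
  root : ∀ n (a b : Fin n → ℕ), (B n : ℕ∞) ≤ gv p 0 0 (minor M a b)
  /-- (M3) corank at the integers which are zeros of some leading minor -/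
  corank : ∀ m, (∃ n, T n m ≠ 0) → ∃ (x : ℕ → Fin (t m) → ℚ_[p]) (y : Fin (t m) → ℕ → ℚ_[p]),
    ∀ i j, ∃ z : ℤ_[p],
      (((M i j).eval (m : ℤ_[p]) : ℤ_[p]) : ℚ_[p]) = ∑ l, x i l * y l j + (p : ℚ_[p]) ^ s m * z

variable {p : ℕ} [Fact p.Prime] {M : ℕ → ℕ → ℤ_[p][X]} {B Z : ℕ → ℕ} {T : ℕ → ℕ → ℕ}
  {s t : ℕ → ℕ} {h : ℕ → ℕ → ℕ → ℤ} {K : Type*} [NormedField K] [IsUltrametricDist K]

/-- The tents in the class of `ρ`. -/
def TA (p ρ : ℕ) (T : ℕ → ℕ → ℕ) (n m : ℕ) : ℕ := if m % p = ρ % p then T n m else 0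

theorem w_tau_eq_zero {c m : ℕ} (hcm : ¬ m ≡ c [MOD p]) (ν : ℕ) : tau p c ν m = 0 := by
  unfold tau
  rw [Finset.card_eq_zero, Finset.filter_eq_empty_iff]
  intro j hj hcon
  rw [Finset.mem_Icc] at hj
  exact hcm (hcon.of_dvd (dvd_pow_self p (by omega)))

theorem w_fv {ρ c : ℕ} (hc : c ≡ ρ [MOD p]) (n ν : ℕ) :
    fv p B Z (TA p ρ T) n c ν = fv p B Z T n c ν := by
  unfold fv
  congr 1
  refine Finset.sum_congr rfl fun m _ => ?_
  unfold TA
  by_cases hm : m % p = ρ % p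
  · rw [if_pos hm]
  · rw [if_neg hm, w_tau_eq_zero (fun h => hm (h.trans hc)), mul_zero, mul_zero]

theorem Comb.toA (hC : Comb p B Z T s t h) (ρ : ℕ) : CombA p ρ B Z (TA p ρ T) s t h where
  hull c ν hc := by
    have : (fun n ↦ fv p B Z (TA p ρ T) n c ν) = fun n ↦ fv p B Z T n c ν :=
      funext fun n => w_fv hc n ν
    rw [this]
    exact hC.hull c ν
  near n := by
    obtain ⟨Q, hQ⟩ := hC.near n
    exact ⟨Q, fun c ν _ => hQ c ν⟩
  k1 n c ν hc hv := by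
    rw [w_fv hc, w_fv hc]
    exact hC.k1 n c ν hv
  k2 n c ν hc hv := by
    rw [w_fv hc, w_fv hc]
    exact hC.k2 n c ν hv
  k3a n c ν hc hv := by
    rw [w_fv hc]
    exact hC.k3a n c ν hv
  k3b n c ν _ hv := hC.k3b n c ν hv
  supp n m hm := by
    unfold TA
    rw [hC.supp n m hm, ite_self]
  cls n m hm := by
    unfold TA at hm
    by_contra hne
    exact hm (if_neg hne)
  fin m := by
    obtain ⟨N, hN⟩ := hC.fin m
    refine ⟨N, fun n hn => ?_⟩
    unfold TA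
    rw [hN n hn, ite_self]
  start n m h0 h1 := by
    unfold TA at h0 h1
    by_cases hm : m % p = ρ % p
    · rw [if_pos hm] at h0 h1
      exact hC.start n m h0 h1
    · rw [if_neg hm] at h1
      exact absurd rfl h1
  leaf n m h0 h1 := by
    unfold TA at h0 h1
    by_cases hm : m % p = ρ % p
    · rw [if_pos hm] at h0 h1
      obtain ⟨b, hb, K, hK⟩ := hC.leaf n m h0 h1
      refine ⟨b, hb, K, fun ν hν => ?_⟩
      have hc : m ≡ ρ [MOD p] := hm
      rw [w_fv hc, w_fv hc]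
      exact hK ν hν
    · rw [if_neg hm] at h1
      exact absurd rfl h1

theorem w_unit_sub {ρ m : ℕ} (hm : ¬ m % p = ρ % p) :
    IsUnit ((ρ : ℤ_[p]) - (m : ℤ_[p])) := by
  rw [PadicInt.isUnit_iff]
  have h1 : ¬ ‖(((ρ : ℤ) - m : ℤ) : ℤ_[p])‖ < 1 := by
    intro hlt
    have h2 := (PadicInt.norm_int_lt_one_iff_dvd _).1 hlt
    exact hm (Nat.modEq_iff_dvd.2 h2)
  push_cast at h1
  exact le_antisymm (PadicInt.norm_le_one _) (not_lt.1 h1)

theorem MatW.toA (hM : MatW p M B Z T s t) (ρ : ℕ) : MatA p ρ M B Z (TA p ρ T) s t where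
  lead n := by
    obtain ⟨u, z, ⟨q, hq⟩, hl⟩ := hM.lead n
    refine ⟨u * ∏ m ∈ Finset.range (Z n), (if m % p = ρ % p then 1 else
      (X - C (m : ℤ_[p])) ^ T n m), ?_, ?_⟩
    · rw [eval_mul, eval_prod]
      refine IsUnit.mul ?_ ?_
      · have h1 : u = C (z : ℤ_[p]) + C (p : ℤ_[p]) * q := by
          rw [← hq]
          ring
        rw [h1, eval_add, eval_mul, eval_C, eval_C, PadicInt.isUnit_iff]
        have h2 : ‖(z : ℤ_[p])‖ = 1 := PadicInt.norm_units z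
        have h3 : ‖(p : ℤ_[p]) * q.eval (ρ : ℤ_[p])‖ < ‖(z : ℤ_[p])‖ := by
          rw [h2]
          exact PadicInt.norm_lt_one_iff_dvd _ |>.2 (dvd_mul_right _ _)
        have h4 := IsUltrametricDist.norm_add_eq_max_of_norm_ne_norm h3.ne'
        rw [h4, max_eq_left h3.le, h2]
      · rw [IsUnit.prod_iff]
        intro m _
        by_cases hm : m % p = ρ % p
        · rw [if_pos hm, eval_one]
          exact isUnit_one
        · rw [if_neg hm, eval_pow, eval_sub, eval_X, eval_C]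
          exact (w_unit_sub hm).pow _
    · rw [hl]
      have h1 : ∏ m ∈ Finset.range (Z n), (X - C (m : ℤ_[p])) ^ T n m =
          (∏ m ∈ Finset.range (Z n), (if m % p = ρ % p then 1 else
            (X - C (m : ℤ_[p])) ^ T n m)) *
          ∏ m ∈ Finset.range (Z n), (X - C (m : ℤ_[p])) ^ TA p ρ T n m := by
        rw [← Finset.prod_mul_distrib]
        refine Finset.prod_congr rfl fun m _ => ?_
        unfold TA
        by_cases hm : m % p = ρ % p
        · rw [if_pos hm, if_pos hm, one_mul]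
        · rw [if_neg hm, if_neg hm, pow_zero, mul_one]
      rw [h1]
      ring
  root n a b := by
    have h1 := hM.root n a b
    have h2 : gv p 0 0 (minor M a b) = gv p ρ 0 (minor M a b) :=
      gv_congr (by simp [Nat.ModEq, Nat.mod_one]) _
    rw [← h2]
    exact h1
  corank m hm := by
    obtain ⟨n, hn⟩ := hm
    refine hM.corank m ⟨n, fun h0 => hn ?_⟩
    unfold TA
    rw [h0, ite_self]

/-- THEOREM 1. -/
theorem weakW (hC : Comb p B Z T s t h) (hM : MatW p M B Z T s t) (n : ℕ) (a b : Fin n → ℕ)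
    (c ν : ℕ) : ((h n c ν).toNat : ℕ∞) ≤ gv p c ν (minor M a b) :=
  weakA (hC.toA c) (hM.toA c) n a b (Nat.ModEq.refl c) ν

/-- THEOREM 2. -/
theorem strictW (hC : Comb p B Z T s t h) (hM : MatW p M B Z T s t) (n : ℕ) (a b : Fin n → ℕ)
    (hab : ((B n + 1 : ℕ) : ℕ∞) ≤ gv p 0 0 (minor M a b)) (c ν : ℕ)
    (hv : Vtx (fun k ↦ h k c ν) n) :
    ((fv p B Z T n c ν + 1 : ℕ) : ℕ∞) ≤ gv p c ν (minor M a b) := by
  have h2 : gv p 0 0 (minor M a b) = gv p c 0 (minor M a b) :=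
    gv_congr (by simp [Nat.ModEq, Nat.mod_one]) _
  rw [h2] at hab
  have h1 := strictA (hC.toA c) (hM.toA c) n a b hab (Nat.ModEq.refl c) ν hv
  rw [w_fv (Nat.ModEq.refl c)] at h1
  exact h1

theorem w_norm_lead (hM : MatW p M B Z T s t) (φ : ℤ_[p] →+* K) (hφ : ∀ z, ‖φ z‖ = ‖z‖) {y : K}
    (hy : ‖y‖ ≤ 1) (n : ℕ) : ‖(lead M n).eval₂ φ y‖ =
      (p : ℝ) ^ (-(B n : ℝ)) * ∏ m ∈ Finset.range (Z n), ‖y - (m : K)‖ ^ T n m := by
  obtain ⟨u, z, ⟨q, hq⟩, hl⟩ := hM.lead n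
  have hp : (1 : ℝ) < p := by exact_mod_cast (Fact.out : p.Prime).one_lt
  rw [hl, eval₂_mul, eval₂_mul, norm_mul, norm_mul, eval₂_C, hφ, PadicInt.norm_p_pow]
  have hu : ‖u.eval₂ φ y‖ = 1 := by
    have h1 : u = C (z : ℤ_[p]) + C (p : ℤ_[p]) * q := by
      rw [← hq]
      ring
    rw [h1, eval₂_add, eval₂_mul, eval₂_C, eval₂_C]
    have h2 : ‖φ (z : ℤ_[p])‖ = 1 := by rw [hφ, PadicInt.norm_units]
    have h3 : ‖φ (p : ℤ_[p]) * q.eval₂ φ y‖ < ‖φ (z : ℤ_[p])‖ := by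
      rw [h2, norm_mul, hφ, PadicInt.norm_p]
      calc (p : ℝ)⁻¹ * ‖q.eval₂ φ y‖ ≤ (p : ℝ)⁻¹ * 1 :=
            mul_le_mul_of_nonneg_left (lv_norm_eval_le φ hφ hy q) (by positivity)
        _ < 1 := by
            rw [mul_one]
            exact inv_lt_one_of_one_lt₀ hp
    have h4 := IsUltrametricDist.norm_add_eq_max_of_norm_ne_norm h3.ne'
    rw [h4, max_eq_left h3.le, h2]
  rw [hu, mul_one]
  congr 1
  · rw [zpow_neg, zpow_natCast, Real.rpow_neg (by positivity), Real.rpow_natCast]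
  · rw [← coe_eval₂RingHom, map_prod, norm_prod]
    refine Finset.prod_congr rfl fun m _ => ?_
    rw [map_pow, norm_pow, coe_eval₂RingHom, eval₂_sub, eval₂_X, eval₂_C, map_natCast]

end GH.Pot
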