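import Pool.Agent.GH.Pot.ADefs
import Pool.Agent.GH.Pot.LeadVal

/-! Valuations of the leading minors in one residue disc. -/

open Polynomial

noncomputable section

namespace GH.Pot

variable {p ρ : ℕ} [Fact p.Prime] {M : ℕ → ℕ → ℤ_[p][X]} {B Z : ℕ → ℕ} {T : ℕ → ℕ → ℕ}
  {s t : ℕ → ℕ} {K : Type*} [NormedField K] [IsUltrametricDist K]

/-- `u(c)` is a unit for `c ≡ ρ`. -/
theorem a_unit_eval {u : ℤ_[p][X]} (h : IsUnit (u.eval (ρ : ℤ_[p]))) {c : ℕ}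
    (hc : c ≡ ρ [MOD p]) : IsUnit (u.eval (c : ℤ_[p])) := by
  obtain ⟨q, hq⟩ := u.sub_dvd_eval_sub (c : ℤ_[p]) (ρ : ℤ_[p])
  have h1 : (p : ℤ_[p]) ∣ (c : ℤ_[p]) - ρ := by
    have h2 : ((p : ℤ)) ∣ (c : ℤ) - ρ := (Nat.modEq_iff_dvd.1 hc.symm)
    have h3 := map_dvd (Int.castRingHom ℤ_[p]) h2
    simpa using h3
  rw [PadicInt.isUnit_iff] at h ⊢
  have h4 : ‖u.eval (c : ℤ_[p]) - u.eval (ρ : ℤ_[p])‖ < 1 := by
    rw [hq]
    exact PadicInt.norm_lt_one_iff_dvd _ |>.2 (h1.mul_right q)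
  have h5 := IsUltrametricDist.norm_add_eq_max_of_norm_ne_norm
    (x := u.eval (c : ℤ_[p]) - u.eval (ρ : ℤ_[p])) (y := u.eval (ρ : ℤ_[p]))
    (by rw [h]; exact h4.ne)
  rw [sub_add_cancel, h, max_eq_right h4.le] at h5
  exact h5

theorem a_gv_unit {u : ℤ_[p][X]} (h : IsUnit (u.eval (ρ : ℤ_[p]))) {c : ℕ}
    (hc : c ≡ ρ [MOD p]) (ν : ℕ) : gv p c ν u = 0 := by
  unfold gv
  rw [emultiplicity_eq_zero]
  rintro ⟨q, hq⟩
  have h1 : (sh p c ν u).eval 0 = u.eval (c : ℤ_[p]) := by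
    unfold sh
    rw [eval_comp]
    simp
  rw [hq, eval_mul, eval_C] at h1
  have h2 := a_unit_eval h hc
  rw [← h1] at h2
  exact PadicInt.prime_p.not_isUnit (isUnit_of_mul_isUnit_left h2)

theorem a_gv_lead (hM : MatA p ρ M B Z T s t) (n : ℕ) {c : ℕ} (hc : c ≡ ρ [MOD p]) (ν : ℕ) :
    gv p c ν (lead M n) = fv p B Z T n c ν := by
  obtain ⟨u, hu, hl⟩ := hM.lead n
  rw [hl, gv_mul, gv_mul, lv_gv_C_pow, a_gv_unit hu hc, add_zero, lv_gv_prod]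
  unfold fv
  push_cast
  congr 1
  refine Finset.sum_congr rfl fun m _ => ?_
  rw [lv_gv_pow, gv_X_sub]

theorem a_norm_unit {u : ℤ_[p][X]} (h : IsUnit (u.eval (ρ : ℤ_[p]))) (φ : ℤ_[p] →+* K)
    (hφ : ∀ z, ‖φ z‖ = ‖z‖) {y : K} (hy : ‖y - (ρ : K)‖ < 1) : ‖u.eval₂ φ y‖ = 1 := by
  have hy1 : ‖y‖ ≤ 1 := by
    have h1 : ‖(ρ : K)‖ ≤ 1 := by
      have := hφ (ρ : ℤ_[p])
      rw [map_natCast] at this
      rw [this]
      exact PadicInt.norm_le_one _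
    have h2 := IsUltrametricDist.norm_add_le_max (y - (ρ : K)) (ρ : K)
    rw [sub_add_cancel] at h2
    exact h2.trans (max_le hy.le h1)
  obtain ⟨q, hq⟩ : ∃ q : ℤ_[p][X], u = C (u.eval (ρ : ℤ_[p])) + (X - C (ρ : ℤ_[p])) * q := by
    obtain ⟨q, hq⟩ := X_sub_C_dvd_sub_C_eval (a := (ρ : ℤ_[p])) (p := u)
    exact ⟨q, by rw [← hq]; ring⟩
  rw [hq, eval₂_add, eval₂_mul, eval₂_C, eval₂_sub, eval₂_X, eval₂_C, map_natCast]
  have h2 : ‖φ (u.eval (ρ : ℤ_[p]))‖ = 1 := by rw [hφ]; exact PadicInt.isUnit_iff.1 h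
  have h3 : ‖(y - (ρ : K)) * q.eval₂ φ y‖ < ‖φ (u.eval (ρ : ℤ_[p]))‖ := by
    rw [h2, norm_mul]
    calc ‖y - (ρ : K)‖ * ‖q.eval₂ φ y‖ ≤ ‖y - (ρ : K)‖ * 1 :=
          mul_le_mul_of_nonneg_left (lv_norm_eval_le φ hφ hy1 q) (norm_nonneg _)
      _ < 1 := by rw [mul_one]; exact hy
  have h4 := IsUltrametricDist.norm_add_eq_max_of_norm_ne_norm h3.ne'
  rw [h4, max_eq_left h3.le, h2]

theorem a_norm_lead (hM : MatA p ρ M B Z T s t) (φ : ℤ_[p] →+* K) (hφ : ∀ z, ‖φ z‖ = ‖z‖)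
    {y : K} (hy : ‖y - (ρ : K)‖ < 1) (n : ℕ) : ‖(lead M n).eval₂ φ y‖ =
      (p : ℝ) ^ (-(B n : ℝ)) * ∏ m ∈ Finset.range (Z n), ‖y - (m : K)‖ ^ T n m := by
  obtain ⟨u, hu, hl⟩ := hM.lead n
  rw [hl, eval₂_mul, eval₂_mul, norm_mul, norm_mul, eval₂_C, hφ, PadicInt.norm_p_pow,
    a_norm_unit hu φ hφ hy, mul_one]
  congr 1
  · rw [zpow_neg, zpow_natCast, Real.rpow_neg (by positivity), Real.rpow_natCast]
  · rw [← coe_eval₂RingHom, map_prod, norm_prod]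
    refine Finset.prod_congr rfl fun m _ => ?_
    rw [map_pow, norm_pow, coe_eval₂RingHom, eval₂_sub, eval₂_X, eval₂_C, map_natCast]

end GH.Pot
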