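import Pool.Agent.GH.Pot.Tree

/-! The abstract descent, restricted to the classes `c ≡ ρ mod p`. -/

noncomputable section

namespace GH.Pot

theorem a_class (p c ε ν : ℕ) : c + ε * p ^ ν ≡ c [MOD p ^ ν] := by
  unfold Nat.ModEq
  rw [Nat.add_mul_mod_self_right]

theorem a_class_p (p c ε ν : ℕ) : c + ε * p ^ (ν + 1) ≡ c [MOD p] :=
  (a_class p c ε (ν + 1)).of_dvd (dvd_pow_self p (Nat.succ_ne_zero ν))

theorem tree_stepA {p ρ : ℕ} (f e h : ℕ → ℕ → ℤ) (V : ℕ → ℕ → Prop) (K : ℕ)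
    (cf : ∀ c c' ν, c ≡ ρ [MOD p] → c' ≡ ρ [MOD p] → c ≡ c' [MOD p ^ ν] → f c ν = f c' ν)
    (ce : ∀ c c' ν, c ≡ ρ [MOD p] → c' ≡ ρ [MOD p] → c ≡ c' [MOD p ^ ν] → e c ν = e c' ν)
    (ch : ∀ c c' ν, c ≡ ρ [MOD p] → c' ≡ ρ [MOD p] → c ≡ c' [MOD p ^ ν] → h c ν = h c' ν)
    (harm : ∀ c ν, c ≡ ρ [MOD p] →
      ∑ ε ∈ Finset.range p, (f (c + ε * p ^ (ν + 1)) (ν + 2) - f c (ν + 1)) =
        f c (ν + 1) - f c ν)
    (sup : ∀ c ν, c ≡ ρ [MOD p] →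
      ∑ ε ∈ Finset.range p, (e (c + ε * p ^ (ν + 1)) (ν + 2) - e c (ν + 1)) ≤
        e c (ν + 1) - e c ν)
    (mono : ∀ c ν, c ≡ ρ [MOD p] → e c ν ≤ e c (ν + 1))
    (root : ∀ c, c ≡ ρ [MOD p] → h c 0 ≤ e c 0)
    (hV : ∀ c ν, c ≡ ρ [MOD p] → ¬ V c ν → h c ν ≤ e c ν)
    (k1 : ∀ c ν, c ≡ ρ [MOD p] → V c (ν + 1) → f c ν - h c ν ≤ f c (ν + 1) - h c (ν + 1))
    (k2 : ∀ c ν, c ≡ ρ [MOD p] → V c ν → f c (ν + 1) - h c (ν + 1) ≤ f c ν - h c ν + 1)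
    (deep : ∀ c ν, c ≡ ρ [MOD p] → K ≤ ν → V c (ν + 1) → f c ν < f c (ν + 1) →
      h c (ν + 1) ≤ e c (ν + 1))
    (c ν : ℕ) (hc : c ≡ ρ [MOD p]) : h c ν ≤ e c ν := by
  let S : ℕ → ℕ → Prop := fun c ν => c ≡ ρ [MOD p] ∧ e c (ν + 1) < h c (ν + 1) ∧
    1 ≤ (f c (ν + 1) - e c (ν + 1)) - (f c ν - e c ν)
  have step : ∀ c ν, S c ν → ∃ c', S c' (ν + 1) := by
    rintro c ν ⟨h0, h1, h2⟩
    have hsum : 1 ≤ ∑ ε ∈ Finset.range p,
        ((f (c + ε * p ^ (ν + 1)) (ν + 2) - f c (ν + 1)) -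
          (e (c + ε * p ^ (ν + 1)) (ν + 2) - e c (ν + 1))) := by
      rw [Finset.sum_sub_distrib, harm c ν h0]
      have := sup c ν h0
      omega
    obtain ⟨ε, -, hε⟩ := tree_child _ hsum
    have hcong := a_class p c ε (ν + 1)
    have h0' : c + ε * p ^ (ν + 1) ≡ ρ [MOD p] := (a_class_p p c ε ν).trans h0
    have hf := cf _ _ _ h0' h0 hcong
    have he := ce _ _ _ h0' h0 hcong
    have hh := ch _ _ _ h0' h0 hcong
    have hVc : V (c + ε * p ^ (ν + 1)) (ν + 1) := by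
      by_contra hn
      have := hV _ _ h0' hn
      omega
    have hk := k2 _ _ h0' hVc
    refine ⟨c + ε * p ^ (ν + 1), h0', ?_, ?_⟩
    · show e (c + ε * p ^ (ν + 1)) (ν + 2) < h (c + ε * p ^ (ν + 1)) (ν + 2)
      have e1 : ν + 1 + 1 = ν + 2 := rfl
      rw [e1] at hk
      omega
    · show 1 ≤ (f (c + ε * p ^ (ν + 1)) (ν + 2) - e (c + ε * p ^ (ν + 1)) (ν + 2)) -
        (f (c + ε * p ^ (ν + 1)) (ν + 1) - e (c + ε * p ^ (ν + 1)) (ν + 1))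
      omega
  have far : ∀ k c ν, S c ν → ∃ c', S c' (ν + k) := by
    intro k
    induction k with
    | zero => exact fun c ν hS => ⟨c, hS⟩
    | succ k ih =>
      intro c ν hS
      obtain ⟨c', hc'⟩ := ih c ν hS
      obtain ⟨c'', hc''⟩ := step c' _ hc'
      exact ⟨c'', hc''⟩
  have noS : ∀ c ν, ¬ S c ν := by
    intro c ν hS
    obtain ⟨c', h0, h1, h2⟩ := far K c ν hS
    have hVc : V c' (ν + K + 1) := by
      by_contra hn
      have := hV _ _ h0 hn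
      omega
    have hm := mono c' (ν + K) h0
    have := deep c' (ν + K) h0 (by omega) hVc (by omega)
    omega
  induction ν with
  | zero => exact root c hc
  | succ ν ih =>
    by_contra hcon
    push Not at hcon
    have hVc : V c (ν + 1) := by
      by_contra hn
      have := hV _ _ hc hn
      omega
    have hk := k1 c ν hc hVc
    exact noS c ν ⟨hc, hcon, by omega⟩

end GH.Pot
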