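import Pool.Agent.GH.Pot.Weak
import Pool.Agent.GH.Pot.ALeadVal
import Pool.Agent.GH.Pot.ATree

/-! Theorem 1 in one residue disc `x ≡ ρ mod p`. -/

open Polynomial

noncomputable section

namespace GH.Pot

variable {p ρ : ℕ} [Fact p.Prime] {M : ℕ → ℕ → ℤ_[p][X]} {B Z : ℕ → ℕ} {T : ℕ → ℕ → ℕ}
  {s t : ℕ → ℕ} {h : ℕ → ℕ → ℕ → ℤ}

namespace AWeak

open Weak

theorem E_mem (hM : MatA p ρ M B Z T s t) (n : ℕ) {c : ℕ} (hc : c ≡ ρ [MOD p]) (ν : ℕ) :
    ∃ a b : Fin n → ℕ, gv p c ν (minor M a b) = E p M n c ν := by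
  have hne : {k : ℕ | ∃ a b : Fin n → ℕ, gv p c ν (minor M a b) = k}.Nonempty :=
    ⟨fv p B Z T n c ν, _, _, a_gv_lead hM n hc ν⟩
  exact Nat.sInf_mem hne

theorem E_le_fv (hM : MatA p ρ M B Z T s t) (n : ℕ) {c : ℕ} (hc : c ≡ ρ [MOD p]) (ν : ℕ) :
    E p M n c ν ≤ fv p B Z T n c ν := by
  have h1 := E_le (p := p) (M := M) n c ν (fun i : Fin n ↦ (i : ℕ)) (fun i : Fin n ↦ (i : ℕ))
  have h2 := a_gv_lead hM n hc ν
  unfold lead at h2
  rw [h2] at h1
  exact_mod_cast h1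

theorem E_convex (hM : MatA p ρ M B Z T s t) (n : ℕ) {c : ℕ} (hc : c ≡ ρ [MOD p]) (ν : ℕ) :
    2 * (E p M (n + 1) c ν : ℤ) ≤ E p M n c ν + E p M (n + 2) c ν := by
  obtain ⟨a, b, hab⟩ := E_mem hM (n + 2) hc ν
  obtain ⟨a', b', hab'⟩ := E_mem hM n hc ν
  have hsh : ∀ {k : ℕ} (u v : Fin k → ℕ), sh p c ν (minor M u v) =
      minor (fun i j ↦ sh p c ν (M i j)) u v := by
    intro k u v
    unfold minor sh
    rw [← coe_compRingHom_apply, RingHom.map_det]
    rfl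
  obtain ⟨a'', b'', h1⟩ := minor_convex (prime_C (p := p)) (fun i j ↦ sh p c ν (M i j)) a b a' b'
  rw [← hsh, ← hsh, ← hsh] at h1
  have h2 : 2 * gv p c ν (minor M a'' b'') ≤ (E p M (n + 2) c ν : ℕ∞) + E p M n c ν := by
    rw [← hab, ← hab']
    exact h1
  have h3 := E_le (p := p) (M := M) (n + 1) c ν a'' b''
  have h4 : 2 * (E p M (n + 1) c ν : ℕ∞) ≤ (E p M (n + 2) c ν : ℕ∞) + E p M n c ν :=
    (mul_le_mul_right h3 2).trans h2
  have h5 : 2 * E p M (n + 1) c ν ≤ E p M (n + 2) c ν + E p M n c ν := by exact_mod_cast h4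
  omega

theorem E_mono (hM : MatA p ρ M B Z T s t) (n : ℕ) {c : ℕ} (hc : c ≡ ρ [MOD p]) (ν : ℕ) :
    E p M n c ν ≤ E p M n c (ν + 1) := by
  obtain ⟨a, b, hab⟩ := E_mem hM n hc (ν + 1)
  have h1 := E_le (p := p) (M := M) n c ν a b
  have h2 := gv_mono c ν (minor M a b)
  rw [hab] at h2
  exact_mod_cast h1.trans h2

theorem E_super (hM : MatA p ρ M B Z T s t) (n : ℕ) {c : ℕ} (hc : c ≡ ρ [MOD p]) (ν : ℕ) :
    ∑ ε ∈ Finset.range p, ((E p M n (c + ε * p ^ (ν + 1)) (ν + 2) : ℤ) - E p M n c (ν + 1)) ≤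
      (E p M n c (ν + 1) : ℤ) - E p M n c ν := by
  obtain ⟨a, b, hab⟩ := E_mem hM n hc (ν + 1)
  have hP : minor M a b ≠ 0 := by
    intro h0
    rw [h0, gv_zero] at hab
    exact ENat.natCast_ne_top _ hab.symm
  have key : ∀ c' ν' : ℕ, (E p M n c' ν' : ℤ) ≤ (gv p c' ν' (minor M a b)).toNat := by
    intro c' ν'
    have h1 := E_le (p := p) (M := M) n c' ν' a b
    obtain ⟨k, hk⟩ := ENat.ne_top_iff_exists.1 (gv_ne_top hP c' ν')
    rw [← hk] at h1 ⊢
    simp only [ENat.toNat_natCast]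
    exact_mod_cast h1
  have hs := gv_super hP c ν
  have h0 : ((gv p c (ν + 1) (minor M a b)).toNat : ℤ) = E p M n c (ν + 1) := by
    rw [hab, ENat.toNat_natCast]
  rw [h0] at hs
  refine le_trans ?_ (hs.trans ?_)
  · exact Finset.sum_le_sum fun ε _ => by
      have := key (c + ε * p ^ (ν + 1)) (ν + 2)
      omega
  · have := key c ν
    omega

theorem E_root (hM : MatA p ρ M B Z T s t) (n : ℕ) {c : ℕ} (hc : c ≡ ρ [MOD p]) :
    B n ≤ E p M n c 0 := by
  obtain ⟨a, b, hab⟩ := E_mem hM n hc 0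
  have h1 := hM.root n a b
  have h2 : gv p ρ 0 (minor M a b) = gv p c 0 (minor M a b) :=
    gv_congr (by simp [Nat.ModEq, Nat.mod_one]) _
  rw [h2, hab] at h1
  exact_mod_cast h1

theorem h_congr (hC : CombA p ρ B Z T s t h) {c c' ν : ℕ} (h0 : c ≡ ρ [MOD p])
    (h0' : c' ≡ ρ [MOD p]) (hc : c ≡ c' [MOD p ^ ν]) (n : ℕ) : h n c ν = h n c' ν := by
  have h1 := hC.hull c ν h0
  have h2 := hC.hull c' ν h0'
  have h3 : (fun n ↦ fv p B Z T n c ν) = fun n ↦ fv p B Z T n c' ν :=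
    funext fun n => fv_congr hc B Z T n
  rw [h3] at h1
  exact congrFun (h1.unique h2) n

theorem E_le_h (hC : CombA p ρ B Z T s t h) (hM : MatA p ρ M B Z T s t) (n : ℕ) {c : ℕ}
    (hc : c ≡ ρ [MOD p]) (ν : ℕ) : (E p M n c ν : ℤ) ≤ h n c ν :=
  (hC.hull c ν hc).of_convex (fun n ↦ (E p M n c ν : ℤ)) (fun n => E_convex hM n hc ν)
    (fun n => by exact_mod_cast E_le_fv hM n hc ν) n

theorem fv_zero (hM : MatA p ρ M B Z T s t) {c : ℕ} (hc : c ≡ ρ [MOD p]) (ν : ℕ) :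
    fv p B Z T 0 c ν = 0 := by
  have h1 := a_gv_lead hM 0 hc ν
  have h2 : lead M 0 = 1 := by
    unfold lead minor
    exact Matrix.det_fin_zero
  rw [h2, gv_one] at h1
  exact_mod_cast h1.symm

theorem le_fv_of_mem (hC : CombA p ρ B Z T s t h) {n m : ℕ} (hn : T n m ≠ 0) (ν : ℕ) :
    ν ≤ fv p B Z T n m ν := by
  have hZ : m ∈ Finset.range (Z n) := by
    rw [Finset.mem_range]
    by_contra hc
    exact hn (hC.supp n m (by omega))
  have h1 : T n m * tau p m ν m ≤ ∑ m' ∈ Finset.range (Z n), T n m' * tau p m ν m' :=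
    Finset.single_le_sum (f := fun m' ↦ T n m' * tau p m ν m') (fun _ _ => Nat.zero_le _) hZ
  rw [tau_self] at h1
  unfold fv
  have h2 : 1 * ν ≤ T n m * ν := Nat.mul_le_mul_right _ (Nat.one_le_iff_ne_zero.2 hn)
  omega

/-- deep nodes on the ray towards `m` -/
theorem deep_m (hC : CombA p ρ B Z T s t h) (hM : MatA p ρ M B Z T s t) (n : ℕ)
    (ih : ∀ k, k ≤ n → ∀ c ν, c ≡ ρ [MOD p] → h k c ν ≤ E p M k c ν) (m : ℕ)
    (hm : T (n + 1) m ≠ 0) :
    ∃ K, ∀ ν, K ≤ ν → Vtx (fun k ↦ h k m ν) n → h (n + 1) m ν ≤ E p M (n + 1) m ν := by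
  have hcl := hC.cls _ _ hm
  by_cases hn : T n m = 0
  · obtain ⟨b, hnb, K, hK⟩ := hC.leaf n m hn hm
    have hnt := hC.start n m hn hm
    obtain ⟨x, y, hxy⟩ := hM.corank m ⟨n + 1, hm⟩
    refine ⟨max K (s m), fun ν hν hv => ?_⟩
    have h1 := hK ν (le_trans (le_max_left _ _) hν)
    have h2 := (hC.hull m ν hcl).chord (a := n) (n := n + 1) (b := b) (by omega) (by omega)
    have h3 : (fv p B Z T n m ν : ℤ) = h n m ν := ((hC.hull m ν hcl).eq_of_vtx hv).symm
    obtain ⟨a1, b1, hab⟩ := E_mem hM (n + 1) hcl ν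
    obtain ⟨a2, b2, hab2⟩ := corank_minor M m (s m) (t m) x y hxy
      (le_trans (le_max_right _ _) hν) (n := n) (by omega) a1 b1
    have h4 := E_le (p := p) (M := M) n m ν a2 b2
    have h5 : (E p M n m ν : ℕ∞) + s m ≤ E p M (n + 1) m ν := by
      rw [← hab]
      exact (add_le_add_left h4 _).trans hab2
    have h6 : E p M n m ν + s m ≤ E p M (n + 1) m ν := by exact_mod_cast h5
    have h7 := ih n le_rfl m ν hcl
    have h8 := E_le_h hC hM n hcl ν
    have h9 : ((b : ℤ) - n) * h (n + 1) m ν ≤ ((b : ℤ) - n) * (h n m ν + s m) := by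
      have e1 : ((b - n : ℕ) : ℤ) = (b : ℤ) - n := by
        rw [Nat.cast_sub (le_of_lt hnb)]
      rw [e1] at h1
      push_cast at h2
      rw [h3] at h1 h2
      nlinarith [h1, h2]
    have h10 : h (n + 1) m ν ≤ h n m ν + s m :=
      le_of_mul_le_mul_left h9 (by omega)
    omega
  · obtain ⟨N, hN⟩ := hC.fin m
    set b := max N (n + 1) with hb
    have hTb : T b m = 0 := hN b (le_max_left _ _)
    have hnb : n < b := lt_of_lt_of_le (Nat.lt_succ_self n) (le_max_right _ _)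
    set Q := B b + ∑ m' ∈ Finset.range (Z b), T b m' * max m m' with hQ
    refine ⟨Q + 1, fun ν hν hv => ?_⟩
    exfalso
    have h2 := (hC.hull m ν hcl).chord (a := 0) (n := n) (b := b) (by omega) (by omega)
    have h3 : (fv p B Z T n m ν : ℤ) = h n m ν := ((hC.hull m ν hcl).eq_of_vtx hv).symm
    have h4 := fv_bdd (p := p) (B := B) (Z := Z) b m hTb ν
    have h5 := le_fv_of_mem (p := p) hC hn ν
    have h6 := fv_zero hM hcl ν
    rw [h6] at h2
    rw [← h3] at h2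
    push_cast at h2
    have h7 : (fv p B Z T b m ν : ℤ) ≤ Q := by exact_mod_cast h4
    have h8 : (Q : ℤ) + 1 ≤ fv p B Z T n m ν := by
      have : Q + 1 ≤ fv p B Z T n m ν := hν.trans h5
      exact_mod_cast this
    have hb1 : (n : ℤ) < b := by exact_mod_cast hnb
    have hn0 : (0 : ℤ) ≤ n := Int.natCast_nonneg n
    have hQ0 : (0 : ℤ) ≤ Q := Int.natCast_nonneg Q
    have h9 : (b : ℤ) * (Q + 1) ≤ n * Q := by
      have e1 : (b : ℤ) * (Q + 1) ≤ b * fv p B Z T n m ν :=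
        mul_le_mul_of_nonneg_left h8 (by omega)
      have e2 : (n : ℤ) * fv p B Z T b m ν ≤ n * Q := mul_le_mul_of_nonneg_left h7 hn0
      nlinarith [h2, e1, e2]
    nlinarith [h9, hb1, hn0, hQ0]

theorem main (hC : CombA p ρ B Z T s t h) (hM : MatA p ρ M B Z T s t) (n : ℕ) :
    ∀ k, k ≤ n → ∀ c ν, c ≡ ρ [MOD p] → h k c ν ≤ E p M k c ν := by
  induction n with
  | zero =>
    intro k hk c ν hc
    obtain rfl : k = 0 := by omega
    have h1 := (hC.hull c ν hc).zero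
    have h2 := fv_zero hM hc ν
    rw [h1, h2]
    exact_mod_cast Nat.zero_le _
  | succ n ih =>
    intro k hk
    rcases Nat.lt_or_ge k (n + 1) with hlt | hge
    · exact ih k (by omega)
    obtain rfl : k = n + 1 := by omega
    have hd : ∀ m, ∃ K, T (n + 1) m ≠ 0 → ∀ ν, K ≤ ν → Vtx (fun k ↦ h k m ν) n →
        h (n + 1) m ν ≤ E p M (n + 1) m ν := by
      intro m
      by_cases hm : T (n + 1) m ≠ 0
      · obtain ⟨K, hK⟩ := deep_m hC hM n ih m hm
        exact ⟨K, fun _ => hK⟩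
      · exact ⟨0, fun hm' => absurd hm' hm⟩
    choose Kf hKf using hd
    set K := (Finset.range (Z (n + 1))).sup Kf with hK
    intro c₀ ν₀ hc₀
    refine tree_stepA (p := p) (ρ := ρ)
      (fun c ν ↦ (fv p B Z T (n + 1) c ν : ℤ)) (fun c ν ↦ (E p M (n + 1) c ν : ℤ))
      (fun c ν ↦ h (n + 1) c ν) (fun c ν ↦ Vtx (fun k ↦ h k c ν) n) K ?_ ?_ ?_ ?_ ?_ ?_ ?_ ?_ ?_
      ?_ ?_ c₀ ν₀ hc₀
    · intro c c' ν _ _ hc
      have := fv_congr hc B Z T (n + 1)
      simp only [this]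
    · intro c c' ν _ _ hc
      have := E_congr (M := M) hc (n + 1)
      simp only [this]
    · intro c c' ν h0 h0' hc
      exact h_congr hC h0 h0' hc (n + 1)
    · intro c ν _
      exact fv_harm B Z T (n + 1) c ν
    · intro c ν hc
      exact E_super hM (n + 1) hc ν
    · intro c ν hc
      exact_mod_cast E_mono hM (n + 1) hc ν
    · intro c hc
      have h1 := (hC.hull c 0 hc).le (n + 1)
      have h2 := fv_root (p := p) B Z T (n + 1) c
      have h3 := E_root hM (n + 1) hc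
      rw [h2] at h1
      have h4 : (B (n + 1) : ℤ) ≤ E p M (n + 1) c 0 := by exact_mod_cast h3
      exact h1.trans h4
    · intro c ν hc hv
      obtain ⟨hn0, h1⟩ := (hC.hull c ν hc).of_not_vtx hv
      obtain ⟨j, rfl⟩ : ∃ j, n = j + 1 := ⟨n - 1, by omega⟩
      have h2 := E_convex hM j hc ν
      have h3 := ih (j + 1) le_rfl c ν hc
      have h4 := E_le_h hC hM j hc ν
      simp only [Nat.add_sub_cancel] at h1
      have e1 : j + 1 + 1 = j + 2 := rfl
      show h (j + 2) c ν ≤ (E p M (j + 2) c ν : ℤ)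
      rw [e1] at h1
      omega
    · intro c ν hc hv
      exact hC.k1 n c ν hc hv
    · intro c ν hc hv
      exact hC.k2 n c ν hc hv
    · intro c ν hc hKν hv hlt
      obtain ⟨m, hmZ, hTm, hmc⟩ : ∃ m, m ∈ Finset.range (Z (n + 1)) ∧ T (n + 1) m ≠ 0 ∧
          m ≡ c [MOD p ^ (ν + 1)] := by
        by_contra hcon
        push Not at hcon
        have : fv p B Z T (n + 1) c (ν + 1) ≤ fv p B Z T (n + 1) c ν := by
          unfold fv
          refine Nat.add_le_add_left (Finset.sum_le_sum fun m hm => ?_) _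
          by_cases hT : T (n + 1) m = 0
          · simp [hT]
          · rw [tau_succ, if_neg (hcon m hm hT), add_zero]
        omega
      have hcm : c ≡ m [MOD p ^ (ν + 1)] := hmc.symm
      have hcl := hC.cls _ _ hTm
      have e1 := h_congr hC hc hcl hcm (n + 1)
      have e2 := E_congr (M := M) hcm (n + 1)
      have e3 : (fun k ↦ h k c (ν + 1)) = fun k ↦ h k m (ν + 1) :=
        funext fun k => h_congr hC hc hcl hcm k
      rw [e1, e2]
      rw [e3] at hv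
      refine hKf m hTm (ν + 1) ?_ hv
      have : Kf m ≤ K := Finset.le_sup (f := Kf) hmZ
      omega

end AWeak

open Weak (E E_le)

/-- THEOREM 1. -/
theorem weakA (hC : CombA p ρ B Z T s t h) (hM : MatA p ρ M B Z T s t) (n : ℕ)
    (a b : Fin n → ℕ) {c : ℕ} (hc : c ≡ ρ [MOD p]) (ν : ℕ) :
    ((h n c ν).toNat : ℕ∞) ≤ gv p c ν (minor M a b) := by
  have h1 := AWeak.main hC hM n n le_rfl c ν hc
  have h2 : (h n c ν).toNat ≤ E p M n c ν := by omega
  calc ((h n c ν).toNat : ℕ∞) ≤ (E p M n c ν : ℕ∞) := by exact_mod_cast h2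
    _ ≤ _ := E_le n c ν a b

/-- THEOREM 2: strictness for the minors which are strictly bigger at the root. -/
theorem strictA (hC : CombA p ρ B Z T s t h) (hM : MatA p ρ M B Z T s t) (n : ℕ)
    (a b : Fin n → ℕ) (hab : ((B n + 1 : ℕ) : ℕ∞) ≤ gv p ρ 0 (minor M a b)) {c : ℕ}
    (hc : c ≡ ρ [MOD p]) (ν : ℕ) (hv : Vtx (fun k ↦ h k c ν) n) :
    ((fv p B Z T n c ν + 1 : ℕ) : ℕ∞) ≤ gv p c ν (minor M a b) := by
  by_cases hP : minor M a b = 0
  · rw [hP, gv_zero]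
    exact le_top
  induction ν with
  | zero =>
    rw [fv_root]
    have h2 : gv p ρ 0 (minor M a b) = gv p c 0 (minor M a b) :=
      gv_congr (by simp [Nat.ModEq, Nat.mod_one]) _
    rw [← h2]
    exact hab
  | succ ν ih =>
    have ih' := ih (hC.k3b n c ν hc hv)
    obtain ⟨g0, hg0⟩ := ENat.ne_top_iff_exists.1 (gv_ne_top hP c ν)
    obtain ⟨g1, hg1⟩ := ENat.ne_top_iff_exists.1 (gv_ne_top hP c (ν + 1))
    have hf1 : h n c (ν + 1) = fv p B Z T n c (ν + 1) := (hC.hull c (ν + 1) hc).eq_of_vtx hv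
    have hw := weakA hC hM n a b hc (ν + 1)
    rw [hf1, Int.toNat_natCast, ← hg1] at hw
    rw [← hg0] at ih'
    rw [← hg1]
    have hw' : fv p B Z T n c (ν + 1) ≤ g1 := by exact_mod_cast hw
    have ih2 : fv p B Z T n c ν + 1 ≤ g0 := by exact_mod_cast ih'
    by_contra hlt
    have hlt' : g1 < fv p B Z T n c (ν + 1) + 1 := by
      rw [not_le] at hlt
      exact_mod_cast hlt
    have heq : g1 = fv p B Z T n c (ν + 1) := by omega
    have hchild : ∀ ε, (fv p B Z T n (c + ε * p ^ (ν + 1)) (ν + 2) : ℤ) ≤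
        ((gv p (c + ε * p ^ (ν + 1)) (ν + 2) (minor M a b)).toNat : ℤ) := by
      intro ε
      have hcl : c + ε * p ^ (ν + 1) ≡ c [MOD p ^ (ν + 1)] := a_class p c ε (ν + 1)
      have hcp : c + ε * p ^ (ν + 1) ≡ ρ [MOD p] := (a_class_p p c ε ν).trans hc
      have hvc : Vtx (fun k ↦ h k (c + ε * p ^ (ν + 1)) (ν + 1)) n := by
        have : (fun k ↦ h k (c + ε * p ^ (ν + 1)) (ν + 1)) = fun k ↦ h k c (ν + 1) :=
          funext fun k => AWeak.h_congr hC hcp hc hcl k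
        rw [this]
        exact hv
      have hk := hC.k3a n (c + ε * p ^ (ν + 1)) (ν + 1) hcp hvc
      have hw2 := weakA hC hM n a b hcp (ν + 1 + 1)
      rw [hk, Int.toNat_natCast] at hw2
      obtain ⟨g2, hg2⟩ := ENat.ne_top_iff_exists.1
        (gv_ne_top hP (c + ε * p ^ (ν + 1)) (ν + 2))
      rw [← hg2, ENat.toNat_natCast]
      rw [show ν + 1 + 1 = ν + 2 from rfl, ← hg2] at hw2
      exact_mod_cast hw2
    have hsup := gv_super hP c ν
    have hharm := fv_harm (p := p) B Z T n c ν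
    rw [← hg0, ← hg1, ENat.toNat_natCast, ENat.toNat_natCast] at hsup
    have hsum : ∑ ε ∈ Finset.range p, ((fv p B Z T n (c + ε * p ^ (ν + 1)) (ν + 2) : ℤ) -
        fv p B Z T n c (ν + 1)) ≤ ∑ ε ∈ Finset.range p,
        (((gv p (c + ε * p ^ (ν + 1)) (ν + 2) (minor M a b)).toNat : ℤ) - g1) := by
      refine Finset.sum_le_sum fun ε _ => ?_
      have := hchild ε
      omega
    rw [hharm] at hsum
    have := hsum.trans hsup
    omega

end GH.Pot
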