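import Pool.Agent.GH.Pot.Gv

/-!
# GH-POT, row P4: the corank at the integers (E5)
-/

open Polynomial

noncomputable section

namespace GH.Pot

variable {p : ℕ} [Fact p.Prime]

/-- A nontrivial relation over `ℚ_p` between vectors can be normalised: integral coefficients, one
of them equal to one. -/
theorem co_normalise {ι : Type*} [Fintype ι] [Nonempty ι] (g : ι → ℚ_[p]) (hg : g ≠ 0) :
    ∃ (d : ι → ℤ_[p]) (i0 : ι) (u : ℚ_[p]), d i0 = 1 ∧ u ≠ 0 ∧ ∀ i, g i = u * (d i : ℚ_[p]) := by
  classical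
  obtain ⟨i0, -, hi0⟩ := Finset.exists_max_image Finset.univ (fun i => ‖g i‖)
    ⟨Classical.arbitrary ι, Finset.mem_univ _⟩
  have hne : g i0 ≠ 0 := by
    intro h0
    apply hg
    funext i
    have := hi0 i (Finset.mem_univ _)
    rw [h0, norm_zero] at this
    exact norm_le_zero_iff.1 this
  have hle : ∀ i, ‖g i / g i0‖ ≤ 1 := fun i => by
    rw [norm_div]
    exact div_le_one_of_le₀ (hi0 i (Finset.mem_univ _)) (norm_nonneg _)
  refine ⟨fun i => ⟨g i / g i0, hle i⟩, i0, g i0, ?_, hne, fun i => ?_⟩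
  · apply Subtype.ext
    show g i0 / g i0 = 1
    exact div_self hne
  · show g i = g i0 * (g i / g i0)
    field_simp

/-- More than `t` vectors of `ℚ_p^t` satisfy a relation with integral coefficients, one of them
equal to one. -/
theorem co_relation {t n : ℕ} (hn : t ≤ n) (x : Fin (n + 1) → Fin t → ℚ_[p]) :
    ∃ (d : Fin (n + 1) → ℤ_[p]) (i0 : Fin (n + 1)), d i0 = 1 ∧
      ∀ l, ∑ i, (d i : ℚ_[p]) * x i l = 0 := by
  have hdep : ¬ LinearIndependent ℚ_[p] x := by
    intro hli
    have h1 := hli.fintype_card_le_finrank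
    rw [Fintype.card_fin, Module.finrank_fintype_fun_eq_card, Fintype.card_fin] at h1
    omega
  rw [Fintype.not_linearIndependent_iff] at hdep
  obtain ⟨g, hg, i, hi⟩ := hdep
  obtain ⟨d, i0, u, hd, hu, hgd⟩ := co_normalise g (fun h => hi (by rw [h]; rfl))
  refine ⟨d, i0, hd, fun l => ?_⟩
  have h1 := congrFun hg l
  rw [Finset.sum_apply] at h1
  simp only [Pi.smul_apply, smul_eq_mul, Pi.zero_apply] at h1
  have h2 : ∑ i, g i * x i l = u * ∑ i, (d i : ℚ_[p]) * x i l := by
    rw [Finset.mul_sum]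
    refine Finset.sum_congr rfl fun i _ => ?_
    rw [hgd i]
    ring
  rw [h2] at h1
  exact (mul_eq_zero.1 h1).resolve_left hu

theorem co_le_gv_add {c ν : ℕ} {P Q : ℤ_[p][X]} {k : ℕ∞} (hP : k ≤ gv p c ν P)
    (hQ : k ≤ gv p c ν Q) : k ≤ gv p c ν (P + Q) := by
  have : sh p c ν (P + Q) = sh p c ν P + sh p c ν Q := by
    unfold sh
    exact add_comp
  unfold gv at *
  rw [this]
  exact (le_min hP hQ).trans min_le_emultiplicity_add

theorem co_le_gv_sum {ι : Type*} (s : Finset ι) {c ν : ℕ} (P : ι → ℤ_[p][X]) {k : ℕ∞}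
    (h : ∀ i ∈ s, k ≤ gv p c ν (P i)) : k ≤ gv p c ν (∑ i ∈ s, P i) := by
  classical
  induction s using Finset.induction_on with
  | empty => rw [Finset.sum_empty, gv_zero]; exact le_top
  | insert a s ha ih =>
    rw [Finset.sum_insert ha]
    exact co_le_gv_add (h a (Finset.mem_insert_self _ _))
      (ih fun i hi => h i (Finset.mem_insert_of_mem hi))

theorem co_gv_C_pow (c ν s : ℕ) : (s : ℕ∞) ≤ gv p c ν (C ((p : ℤ_[p]) ^ s)) := by
  rw [le_gv_iff]
  unfold sh
  rw [C_comp]

theorem co_gv_sub_eval (m ν : ℕ) (P : ℤ_[p][X]) :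
    (ν : ℕ∞) ≤ gv p m ν (P - C (P.eval (m : ℤ_[p]))) := by
  obtain ⟨Q, hQ⟩ : (X - C (m : ℤ_[p])) ∣ P - C (P.eval (m : ℤ_[p])) :=
    X_sub_C_dvd_sub_C_eval
  rw [hQ, gv_mul, gv_X_sub, tau_self]
  exact le_self_add

/-- If `M(m) = (rank ≤ t) + p^s (integral)`, then at the nodes `(m, ν)`, `ν ≥ s`, the elementary
divisors from the `(t+1)`-st on are `≥ s`. Proof: a relation `∑ c_i x_i = 0` between `n+1 > t`
vectors of `ℚ_p^t`, `c_i ∈ ℤ_p`, one of them a unit, replaces one row by `p^s` times an integral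
row; expand along this row. -/
theorem corank_minor (M : ℕ → ℕ → ℤ_[p][X]) (m s t : ℕ) (x : ℕ → Fin t → ℚ_[p])
    (y : Fin t → ℕ → ℚ_[p])
    (h : ∀ i j, ∃ z : ℤ_[p],
      (((M i j).eval (m : ℤ_[p]) : ℤ_[p]) : ℚ_[p]) = ∑ l, x i l * y l j + (p : ℚ_[p]) ^ s * z)
    {ν n : ℕ} (hν : s ≤ ν) (hn : t ≤ n) (a b : Fin (n + 1) → ℕ) :
    ∃ a' b' : Fin n → ℕ, gv p m ν (minor M a' b') + s ≤ gv p m ν (minor M a b) := by
  classical
  choose z hz using h
  obtain ⟨d, i0, hd, hrel⟩ := co_relation hn (fun i => x (a i))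
  -- the combined row
  set row : Fin (n + 1) → ℤ_[p][X] := fun j => ∑ i, C (d i) * M (a i) (b j) with hrow
  have hrowv : ∀ j, (s : ℕ∞) ≤ gv p m ν (row j) := by
    intro j
    -- the value at `m` is divisible by `p ^ s`
    have h1 : (row j).eval (m : ℤ_[p]) = (p : ℤ_[p]) ^ s * ∑ i, d i * z (a i) (b j) := by
      have hinj : Function.Injective (PadicInt.Coe.ringHom (p := p)) := Subtype.coe_injective
      have hz' : ∀ i j, PadicInt.Coe.ringHom ((M i j).eval (m : ℤ_[p])) =
          ∑ l, x i l * y l j + (p : ℚ_[p]) ^ s * PadicInt.Coe.ringHom (z i j) := hz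
      have hrel' : ∀ l, ∑ i, PadicInt.Coe.ringHom (d i) * x (a i) l = 0 := hrel
      apply hinj
      rw [hrow]
      simp only [eval_finsetSum, eval_mul, eval_C, map_sum, map_mul, map_pow, map_natCast]
      have e1 : ∀ i, PadicInt.Coe.ringHom (d i) *
          PadicInt.Coe.ringHom ((M (a i) (b j)).eval (m : ℤ_[p])) =
          ∑ l, PadicInt.Coe.ringHom (d i) * x (a i) l * y l (b j) +
            (p : ℚ_[p]) ^ s * (PadicInt.Coe.ringHom (d i) *
              PadicInt.Coe.ringHom (z (a i) (b j))) := by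
        intro i
        rw [hz', mul_add, Finset.mul_sum]
        congr 1
        · exact Finset.sum_congr rfl fun l _ => by ring
        · ring
      simp only [e1]
      rw [Finset.sum_add_distrib, Finset.sum_comm, Finset.mul_sum]
      have e2 : ∑ l, ∑ i, PadicInt.Coe.ringHom (d i) * x (a i) l * y l (b j) = 0 := by
        refine Finset.sum_eq_zero fun l _ => ?_
        rw [← Finset.sum_mul, hrel' l, zero_mul]
      rw [e2, zero_add]
    have h2 : row j = (row j - C ((row j).eval (m : ℤ_[p]))) + C ((row j).eval (m : ℤ_[p])) := by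
      rw [sub_add_cancel]
    rw [h2]
    refine co_le_gv_add ?_ ?_
    · exact le_trans (by exact_mod_cast hν) (co_gv_sub_eval m ν (row j))
    · rw [h1, C_mul, gv_mul]
      exact (co_gv_C_pow m ν s).trans le_self_add
  -- replace the row `i0`
  have hdet : minor M a b = ((Matrix.of fun i j => M (a i) (b j)).updateRow i0 row).det := by
    unfold minor
    have h3 := Matrix.det_updateRow_sum (Matrix.of fun i j => M (a i) (b j)) i0
      (fun i => (C (d i) : ℤ_[p][X]))
    have h4 : (∑ k, C (d k) • (Matrix.of fun i j => M (a i) (b j)) k) = row := by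
      funext j
      rw [Finset.sum_apply, hrow]
      rfl
    rw [h4, hd, C_1, one_smul] at h3
    exact h3.symm
  -- expansion along this row
  have hexp : minor M a b = ∑ j : Fin (n + 1), (-1) ^ ((i0 : ℕ) + (j : ℕ)) * row j *
      minor M (fun k => a (i0.succAbove k)) (fun k => b (j.succAbove k)) := by
    rw [hdet, Matrix.det_succ_row _ i0]
    refine Finset.sum_congr rfl fun j _ => ?_
    rw [Matrix.updateRow_self]
    congr 1
    unfold minor
    congr 1
    ext k l : 2
    rw [Matrix.submatrix_apply, Matrix.updateRow_ne (Fin.succAbove_ne i0 k)]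
    rfl
  -- the minimal cofactor
  obtain ⟨j0, -, hj0⟩ := Finset.exists_min_image Finset.univ
    (fun j : Fin (n + 1) => gv p m ν (minor M (fun k => a (i0.succAbove k))
      (fun k => b (j.succAbove k)))) ⟨0, Finset.mem_univ _⟩
  refine ⟨fun k => a (i0.succAbove k), fun k => b (j0.succAbove k), ?_⟩
  rw [hexp]
  refine co_le_gv_sum _ _ fun j _ => ?_
  rw [gv_mul, gv_mul, add_comm]
  refine add_le_add ((hrowv j).trans ?_) (hj0 j (Finset.mem_univ _))
  exact le_add_self

end GH.Pot
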