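import Pool.Agent.GH.Pot.FWeak
import Pool.Agent.GH.Pot.Strict

/-! Theorem 2 (strictness) with flat indices. -/

open Polynomial

noncomputable section

namespace GH.Pot

variable {p : ℕ} [Fact p.Prime] {M : ℕ → ℕ → ℤ_[p][X]} {B Z : ℕ → ℕ} {T : ℕ → ℕ → ℕ}
  {s t zf : ℕ → ℕ} {h : ℕ → ℕ → ℕ → ℤ}

/-- the hull depends only on the class -/
theorem f_hull_congr (hC : CombF p B Z T s t zf h) {c c' ν : ℕ} (hc : c ≡ c' [MOD p ^ ν]) :
    (fun k ↦ h k c ν) = fun k ↦ h k c' ν :=
  funext fun k => FWeak.h_congr hC hc k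

/-! ### Expansion along a flat row -/

/-- A determinant is linear in one row. -/
theorem f_det_row {R : Type*} [CommRing R] {n : ℕ} (A : Matrix (Fin n) (Fin n) R) (i0 : Fin n)
    (u : Finset ℕ) (c : ℕ → R) (r : ℕ → Fin n → R) (q : Fin n → R) :
    (A.updateRow i0 (∑ l ∈ u, c l • r l + q)).det =
      ∑ l ∈ u, c l * (A.updateRow i0 (r l)).det + (A.updateRow i0 q).det := by
  classical
  induction u using Finset.induction_on with
  | empty => rw [Finset.sum_empty, Finset.sum_empty, zero_add, zero_add]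
  | insert a u ha ih =>
    rw [Finset.sum_insert ha, Finset.sum_insert ha, add_assoc, Matrix.det_updateRow_add,
      Matrix.det_updateRow_smul, ih, add_assoc]

/-- The minors with a row `≥ n` are strictly bigger near the leaf `zf n`. -/
theorem f_leaf (hC : CombF p B Z T s t zf h) (hM : MatW p M B Z T s t) {n : ℕ}
    (hfl : ¬ Vtx (fun k ↦ h k 0 0) n) (hrow : FlatRow p M n (zf n) (s (zf n)))
    (a b : Fin n → ℕ) (i0 : Fin n) (hi0 : n ≤ a i0) :
    ∃ K, ∀ ν, K ≤ ν → Vtx (fun k ↦ h k (zf n) ν) n →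
      ((fv p B Z T n (zf n) ν + 1 : ℕ) : ℕ∞) ≤ gv p (zf n) ν (minor M a b) := by
  classical
  obtain ⟨hT0, hT1⟩ := hC.flat n hfl
  obtain ⟨b0, hb0, K, hK⟩ := hC.leaf n (zf n) hT0 hT1
  refine ⟨max K (s (zf n)), fun ν hν hv => ?_⟩
  set m := zf n with hm
  have hn0 : n ≠ 0 := fun h0 => hfl (Or.inl h0)
  obtain ⟨n', rfl⟩ : ∃ n', n = n' + 1 := ⟨n - 1, by omega⟩
  -- the slopes
  have hfn : h (n' + 1) m ν = fv p B Z T (n' + 1) m ν := (hC.hull m ν).eq_of_vtx hv
  have h1 := hK ν (le_trans (le_max_left _ _) hν)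
  have h2 := (hC.hull m ν).chord (a := n' + 1) (n := n' + 2) (b := b0) (by omega) (by omega)
  have e1 : ((b0 - (n' + 1) : ℕ) : ℤ) = (b0 : ℤ) - (n' + 1) := by
    rw [Nat.cast_sub (le_of_lt hb0)]
    push_cast
    ring
  rw [e1] at h1
  push_cast at h2
  have h9 : ((b0 : ℤ) - (n' + 1)) * h (n' + 2) m ν ≤
      ((b0 : ℤ) - (n' + 1)) * ((fv p B Z T (n' + 1) m ν : ℤ) + s m) := by
    nlinarith [h1, h2]
  have h10 : h (n' + 2) m ν ≤ (fv p B Z T (n' + 1) m ν : ℤ) + s m :=
    le_of_mul_le_mul_left h9 (by omega)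
  have h11 : 2 * h (n' + 1) m ν < h n' m ν + h (n' + 2) m ν := by
    rcases hv with hv | hv
    · omega
    · exact hv
  have hsl : (fv p B Z T (n' + 1) m ν : ℤ) + 1 ≤ h n' m ν + s m := by
    rw [hfn] at h11
    omega
  -- the row
  obtain ⟨x, hx⟩ := hrow (a i0) hi0
  choose z hz using hx
  set q : Fin (n' + 1) → ℤ_[p][X] := fun j => M (a i0) (b j) -
    ∑ l ∈ Finset.range (n' + 1), C ((p : ℤ_[p]) * x l) * M l (b j) with hq
  have hqv : ∀ j, (s m : ℕ∞) ≤ gv p m ν (q j) := by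
    intro j
    have e2 : (q j).eval (m : ℤ_[p]) = (p : ℤ_[p]) ^ s m * z (b j) := by
      rw [hq]
      simp only [eval_sub, eval_finsetSum, eval_mul, eval_C]
      rw [hz (b j)]
      ring
    have e3 : q j = (q j - C ((q j).eval (m : ℤ_[p]))) + C ((q j).eval (m : ℤ_[p])) := by
      rw [sub_add_cancel]
    rw [e3]
    refine co_le_gv_add ?_ ?_
    · exact le_trans (by exact_mod_cast (le_trans (le_max_right _ _) hν))
        (co_gv_sub_eval m ν (q j))
    · rw [e2, C_mul, gv_mul]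
      exact (co_gv_C_pow m ν (s m)).trans le_self_add
  set A : Matrix (Fin (n' + 1)) (Fin (n' + 1)) ℤ_[p][X] := Matrix.of fun i j ↦ M (a i) (b j)
    with hA
  have hrowA : A i0 = ∑ l ∈ Finset.range (n' + 1), C ((p : ℤ_[p]) * x l) • (fun j ↦ M l (b j)) +
      q := by
    funext j
    rw [Pi.add_apply, Finset.sum_apply, hq]
    simp only [Pi.smul_apply, smul_eq_mul]
    show M (a i0) (b j) = _
    ring
  have hl : ∀ l : ℕ, (A.updateRow i0 (fun j ↦ M l (b j))).det =
      minor M (Function.update a i0 l) b := by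
    intro l
    unfold minor
    congr 1
    ext i j : 2
    rw [Matrix.of_apply]
    by_cases hi : i = i0
    · subst hi
      rw [Matrix.updateRow_self, Function.update_self]
    · rw [Matrix.updateRow_ne hi, Function.update_of_ne hi, hA, Matrix.of_apply]
  have hdet : minor M a b = ∑ l ∈ Finset.range (n' + 1), C ((p : ℤ_[p]) * x l) *
      minor M (Function.update a i0 l) b + (A.updateRow i0 q).det := by
    have h3 : minor M a b = (A.updateRow i0 (A i0)).det := by
      rw [Matrix.updateRow_eq_self]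
      rfl
    rw [h3, hrowA, f_det_row, Finset.sum_congr rfl fun l _ => by rw [hl l]]
  rw [hdet]
  refine co_le_gv_add (co_le_gv_sum _ _ fun l _ => ?_) ?_
  · rw [C_mul, gv_mul, gv_mul]
    have h4 := weakF hC hM (n' + 1) (Function.update a i0 l) b m ν
    rw [hfn, Int.toNat_natCast] at h4
    have h5 := co_gv_C_pow (p := p) m ν 1
    rw [pow_one] at h5
    calc ((fv p B Z T (n' + 1) m ν + 1 : ℕ) : ℕ∞) =
          ((1 : ℕ) : ℕ∞) + (fv p B Z T (n' + 1) m ν : ℕ∞) := by
            push_cast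
            rw [add_comm]
      _ ≤ gv p m ν (C (p : ℤ_[p])) + gv p m ν (minor M (Function.update a i0 l) b) :=
          add_le_add h5 h4
      _ ≤ _ := add_le_add le_self_add le_rfl
  · have hexp : (A.updateRow i0 q).det = ∑ j : Fin (n' + 1), (-1) ^ ((i0 : ℕ) + (j : ℕ)) * q j *
        minor M (fun k => a (i0.succAbove k)) (fun k => b (j.succAbove k)) := by
      rw [Matrix.det_succ_row _ i0]
      refine Finset.sum_congr rfl fun j _ => ?_
      rw [Matrix.updateRow_self]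
      congr 1
      unfold minor
      congr 1
      ext k l : 2
      rw [Matrix.submatrix_apply, Matrix.updateRow_ne (Fin.succAbove_ne i0 k)]
      rfl
    rw [hexp]
    refine co_le_gv_sum _ _ fun j _ => ?_
    rw [gv_mul, gv_mul]
    have h4 := weakF hC hM n' (fun k => a (i0.succAbove k)) (fun k => b (j.succAbove k)) m ν
    have h6 : fv p B Z T (n' + 1) m ν + 1 ≤ s m + (h n' m ν).toNat := by omega
    calc ((fv p B Z T (n' + 1) m ν + 1 : ℕ) : ℕ∞) ≤ ((s m + (h n' m ν).toNat : ℕ) : ℕ∞) := by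
          exact_mod_cast h6
      _ = (s m : ℕ∞) + ((h n' m ν).toNat : ℕ∞) := by push_cast; rfl
      _ ≤ gv p m ν (q j) + gv p m ν (minor M (fun k => a (i0.succAbove k))
            (fun k => b (j.succAbove k))) := add_le_add (hqv j) h4
      _ ≤ _ := add_le_add le_add_self le_rfl

/-! ### The excess -/

/-- the excess of a minor over the leading one -/
def uF (p : ℕ) [Fact p.Prime] (M : ℕ → ℕ → ℤ_[p][X]) (B Z : ℕ → ℕ) (T : ℕ → ℕ → ℕ) {n : ℕ}
    (a b : Fin n → ℕ) (c ν : ℕ) : ℤ :=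
  ((gv p c ν (minor M a b)).toNat : ℤ) - fv p B Z T n c ν

theorem f_u_congr {n : ℕ} (a b : Fin n → ℕ) {c c' ν : ℕ} (hc : c ≡ c' [MOD p ^ ν]) :
    uF p M B Z T a b c ν = uF p M B Z T a b c' ν := by
  unfold uF
  rw [gv_congr hc, fv_congr hc]

theorem f_one_le_u {n : ℕ} {a b : Fin n → ℕ} (hP : minor M a b ≠ 0) (c ν : ℕ) :
    ((fv p B Z T n c ν + 1 : ℕ) : ℕ∞) ≤ gv p c ν (minor M a b) ↔ 1 ≤ uF p M B Z T a b c ν := by
  obtain ⟨g, hg⟩ := ENat.ne_top_iff_exists.1 (gv_ne_top hP c ν)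
  unfold uF
  rw [← hg, ENat.toNat_natCast]
  constructor
  · intro h1
    have h2 : fv p B Z T n c ν + 1 ≤ g := by exact_mod_cast h1
    omega
  · intro h1
    have h2 : fv p B Z T n c ν + 1 ≤ g := by omega
    exact_mod_cast h2

theorem f_u_nonneg (hC : CombF p B Z T s t zf h) (hM : MatW p M B Z T s t) {n : ℕ}
    {a b : Fin n → ℕ} (hP : minor M a b ≠ 0) {c ν : ℕ} (hU : h n c ν = fv p B Z T n c ν) :
    0 ≤ uF p M B Z T a b c ν := by
  have h1 := weakF hC hM n a b c ν
  obtain ⟨g, hg⟩ := ENat.ne_top_iff_exists.1 (gv_ne_top hP c ν)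
  unfold uF
  rw [hU, Int.toNat_natCast, ← hg] at h1
  rw [← hg, ENat.toNat_natCast]
  have h2 : fv p B Z T n c ν ≤ g := by exact_mod_cast h1
  omega

/-- If the excess is zero at a node where `n` is a vertex, then it is `≤ 0` at the parent; if it
is zero there, then it is zero at the children. -/
theorem f_u_step (hC : CombF p B Z T s t zf h) (hM : MatW p M B Z T s t) {n : ℕ}
    {a b : Fin n → ℕ} (hP : minor M a b ≠ 0) {c ν : ℕ} (hv : Vtx (fun k ↦ h k c (ν + 1)) n)
    (h0 : uF p M B Z T a b c (ν + 1) ≤ 0) :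
    uF p M B Z T a b c ν ≤ 0 ∧ (0 ≤ uF p M B Z T a b c ν →
      ∀ ε ∈ Finset.range p, uF p M B Z T a b (c + ε * p ^ (ν + 1)) (ν + 2) ≤ 0) := by
  have hu0 : uF p M B Z T a b c (ν + 1) = 0 :=
    le_antisymm h0 (f_u_nonneg hC hM hP ((hC.hull c (ν + 1)).eq_of_vtx hv))
  have hch : ∀ ε, 0 ≤ uF p M B Z T a b (c + ε * p ^ (ν + 1)) (ν + 2) := by
    intro ε
    have hcl : c + ε * p ^ (ν + 1) ≡ c [MOD p ^ (ν + 1)] := st_class c ε (ν + 1)
    have hvc : Vtx (fun k ↦ h k (c + ε * p ^ (ν + 1)) (ν + 1)) n := by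
      rw [f_hull_congr hC hcl]
      exact hv
    exact f_u_nonneg hC hM hP (hC.k3a n (c + ε * p ^ (ν + 1)) (ν + 1) hvc)
  have hsup := gv_super hP c ν
  have hharm := fv_harm (p := p) B Z T n c ν
  have hsum : ∑ ε ∈ Finset.range p, uF p M B Z T a b (c + ε * p ^ (ν + 1)) (ν + 2) ≤
      - uF p M B Z T a b c ν := by
    have e1 : ∑ ε ∈ Finset.range p, uF p M B Z T a b (c + ε * p ^ (ν + 1)) (ν + 2) =
        ∑ ε ∈ Finset.range p, (((gv p (c + ε * p ^ (ν + 1)) (ν + 2) (minor M a b)).toNat : ℤ) -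
          (gv p c (ν + 1) (minor M a b)).toNat) -
        ∑ ε ∈ Finset.range p, ((fv p B Z T n (c + ε * p ^ (ν + 1)) (ν + 2) : ℤ) -
          fv p B Z T n c (ν + 1)) := by
      rw [← Finset.sum_sub_distrib]
      refine Finset.sum_congr rfl fun ε _ => ?_
      unfold uF at hu0 ⊢
      omega
    rw [e1, hharm]
    unfold uF at hu0 ⊢
    omega
  constructor
  · have h1 : 0 ≤ ∑ ε ∈ Finset.range p, uF p M B Z T a b (c + ε * p ^ (ν + 1)) (ν + 2) :=
      Finset.sum_nonneg fun ε _ => hch ε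
    omega
  · intro h1 ε hε
    have h2 := Finset.single_le_sum (f := fun ε => uF p M B Z T a b (c + ε * p ^ (ν + 1)) (ν + 2))
      (fun ε _ => hch ε) hε
    have h3 : uF p M B Z T a b (c + ε * p ^ (ν + 1)) (ν + 2) ≤ - uF p M B Z T a b c ν :=
      h2.trans hsum
    omega

/-- THEOREM 2. -/
theorem strictF (hC : CombF p B Z T s t zf h) (hM : MatW p M B Z T s t) (n : ℕ)
    (a b : Fin n → ℕ)
    (hroot : Vtx (fun k ↦ h k 0 0) n → ((B n + 1 : ℕ) : ℕ∞) ≤ gv p 0 0 (minor M a b))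
    (hflat : ¬ Vtx (fun k ↦ h k 0 0) n → FlatRow p M n (zf n) (s (zf n)) ∧ ∃ i, n ≤ a i)
    (c ν : ℕ) (hv : Vtx (fun k ↦ h k c ν) n) :
    ((fv p B Z T n c ν + 1 : ℕ) : ℕ∞) ≤ gv p c ν (minor M a b) := by
  by_cases hP : minor M a b = 0
  · rw [hP, gv_zero]
    exact le_top
  rw [f_one_le_u hP]
  have hlevel0 : ∀ c, c ≡ 0 [MOD p ^ 0] := fun c => by simp [Nat.ModEq, Nat.mod_one]
  induction ν generalizing c with
  | zero =>
    rw [f_u_congr a b (hlevel0 c), ← f_one_le_u hP, fv_root]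
    refine hroot ?_
    rw [f_hull_congr hC (hlevel0 c)] at hv
    exact hv
  | succ ν ih =>
    by_contra hlt
    have hle : uF p M B Z T a b c (ν + 1) ≤ 0 := by omega
    obtain ⟨h1, -⟩ := f_u_step hC hM hP hv hle
    rcases hC.k3b n c ν hv with h2 | ⟨hfl, hU, hcz⟩
    · have := ih c h2
      omega
    · obtain ⟨hrow, i0, hi0⟩ := hflat hfl
      obtain ⟨K, hK⟩ := f_leaf hC hM hfl hrow a b i0 hi0
      have h3 := f_u_nonneg hC hM hP hU
      -- down the path to `zf n`
      have key : ∀ i : ℕ, Vtx (fun k ↦ h k (zf n) (ν + i + 1)) n ∧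
          uF p M B Z T a b (zf n) (ν + i + 1) ≤ 0 ∧ 0 ≤ uF p M B Z T a b (zf n) (ν + i) := by
        intro i
        induction i with
        | zero =>
          rw [Nat.add_zero]
          refine ⟨?_, ?_, ?_⟩
          · rw [← f_hull_congr hC hcz]
            exact hv
          · rw [← f_u_congr a b hcz]
            exact hle
          · show 0 ≤ uF p M B Z T a b (zf n) ν
            rw [← f_u_congr a b (hcz.of_dvd (pow_dvd_pow p (Nat.le_succ ν)))]
            exact h3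
        | succ i ihi =>
          obtain ⟨k1, k2, k3⟩ := ihi
          refine ⟨hC.down n (ν + i + 1) hfl k1, ?_, ?_⟩
          · obtain ⟨-, h5⟩ := f_u_step hC hM hP k1 k2
            have h6 := h5 k3 0 (Finset.mem_range.2 (Fact.out (p := p.Prime)).pos)
            rw [zero_mul, add_zero] at h6
            exact h6
          · exact f_u_nonneg hC hM hP ((hC.hull (zf n) (ν + i + 1)).eq_of_vtx k1)
      obtain ⟨k1, k2, -⟩ := key K
      have h7 := (f_one_le_u hP _ _).1 (hK (ν + K + 1) (by omega) k1)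
      omega

end GH.Pot
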