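import Pool.Agent.GH.Pot.Weak
import Pool.Agent.GH.Pot.FDefs

/-! Theorem 1 with flat indices. -/

open Polynomial

noncomputable section

namespace GH.Pot

variable {p : ℕ} [Fact p.Prime] {M : ℕ → ℕ → ℤ_[p][X]} {B Z : ℕ → ℕ} {T : ℕ → ℕ → ℕ}
  {s t zf : ℕ → ℕ} {h : ℕ → ℕ → ℕ → ℤ}

namespace FWeak

open Weak (E E_le E_congr fv_bdd)

theorem E_mem (hM : MatW p M B Z T s t) (n c ν : ℕ) :
    ∃ a b : Fin n → ℕ, gv p c ν (minor M a b) = E p M n c ν := by
  have hne : {k : ℕ | ∃ a b : Fin n → ℕ, gv p c ν (minor M a b) = k}.Nonempty :=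
    ⟨fv p B Z T n c ν, _, _, f_gv_lead hM n c ν⟩
  exact Nat.sInf_mem hne

theorem E_le_fv (hM : MatW p M B Z T s t) (n c ν : ℕ) : E p M n c ν ≤ fv p B Z T n c ν := by
  have h1 := E_le (p := p) (M := M) n c ν (fun i : Fin n ↦ (i : ℕ)) (fun i : Fin n ↦ (i : ℕ))
  have h2 := f_gv_lead hM n c ν
  unfold lead at h2
  rw [h2] at h1
  exact_mod_cast h1

theorem E_convex (hM : MatW p M B Z T s t) (n c ν : ℕ) :
    2 * (E p M (n + 1) c ν : ℤ) ≤ E p M n c ν + E p M (n + 2) c ν := by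
  obtain ⟨a, b, hab⟩ := E_mem hM (n + 2) c ν
  obtain ⟨a', b', hab'⟩ := E_mem hM n c ν
  -- apply the convexity to the matrix of the shifted polynomials
  have hsh : ∀ {k : ℕ} (u v : Fin k → ℕ), sh p c ν (minor M u v) =
      minor (fun i j ↦ sh p c ν (M i j)) u v := by
    intro k u v
    unfold minor sh
    rw [← coe_compRingHom_apply, RingHom.map_det]
    rfl
  obtain ⟨a'', b'', h1⟩ := minor_convex (prime_C (p := p)) (fun i j ↦ sh p c ν (M i j)) a b a' b'
  rw [← hsh, ← hsh, ← hsh] at h1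
  have h2 : 2 * gv p c ν (minor M a'' b'') ≤ (E p M (n + 2) c ν : ℕ∞) + E p M n c ν := by
    rw [← hab, ← hab']
    exact h1
  have h3 := E_le (p := p) (M := M) (n + 1) c ν a'' b''
  have h4 : 2 * (E p M (n + 1) c ν : ℕ∞) ≤ (E p M (n + 2) c ν : ℕ∞) + E p M n c ν :=
    (mul_le_mul_right h3 2).trans h2
  have h5 : 2 * E p M (n + 1) c ν ≤ E p M (n + 2) c ν + E p M n c ν := by exact_mod_cast h4
  omega

theorem E_mono (hM : MatW p M B Z T s t) (n c ν : ℕ) : E p M n c ν ≤ E p M n c (ν + 1) := by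
  obtain ⟨a, b, hab⟩ := E_mem hM n c (ν + 1)
  have h1 := E_le (p := p) (M := M) n c ν a b
  have h2 := gv_mono c ν (minor M a b)
  rw [hab] at h2
  exact_mod_cast h1.trans h2

theorem E_super (hM : MatW p M B Z T s t) (n c ν : ℕ) :
    ∑ ε ∈ Finset.range p, ((E p M n (c + ε * p ^ (ν + 1)) (ν + 2) : ℤ) - E p M n c (ν + 1)) ≤
      (E p M n c (ν + 1) : ℤ) - E p M n c ν := by
  obtain ⟨a, b, hab⟩ := E_mem hM n c (ν + 1)
  have hP : minor M a b ≠ 0 := by
    intro h0
    rw [h0, gv_zero] at hab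
    exact ENat.natCast_ne_top _ hab.symm
  have key : ∀ c' ν' : ℕ, (E p M n c' ν' : ℤ) ≤ (gv p c' ν' (minor M a b)).toNat := by
    intro c' ν'
    have h1 := E_le (p := p) (M := M) n c' ν' a b
    obtain ⟨k, hk⟩ := ENat.ne_top_iff_exists.1 (gv_ne_top hP c' ν')
    rw [← hk] at h1 ⊢
    simp only [ENat.toNat_natCast]
    exact_mod_cast h1
  have hs := gv_super hP c ν
  have h0 : ((gv p c (ν + 1) (minor M a b)).toNat : ℤ) = E p M n c (ν + 1) := by
    rw [hab, ENat.toNat_natCast]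
  rw [h0] at hs
  refine le_trans ?_ (hs.trans ?_)
  · exact Finset.sum_le_sum fun ε _ => by
      have := key (c + ε * p ^ (ν + 1)) (ν + 2)
      omega
  · have := key c ν
    omega

theorem E_root (hM : MatW p M B Z T s t) (n c : ℕ) : B n ≤ E p M n c 0 := by
  obtain ⟨a, b, hab⟩ := E_mem hM n c 0
  have h1 := hM.root n a b
  have h2 : gv p 0 0 (minor M a b) = gv p c 0 (minor M a b) :=
    gv_congr (by simp [Nat.ModEq, Nat.mod_one]) _
  rw [h2, hab] at h1
  exact_mod_cast h1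

theorem h_congr (hC : CombF p B Z T s t zf h) {c c' ν : ℕ} (hc : c ≡ c' [MOD p ^ ν]) (n : ℕ) :
    h n c ν = h n c' ν := by
  have h1 := hC.hull c ν
  have h2 := hC.hull c' ν
  have h3 : (fun n ↦ fv p B Z T n c ν) = fun n ↦ fv p B Z T n c' ν :=
    funext fun n => fv_congr hc B Z T n
  rw [h3] at h1
  exact congrFun (h1.unique h2) n

theorem E_le_h (hC : CombF p B Z T s t zf h) (hM : MatW p M B Z T s t) (n c ν : ℕ) :
    (E p M n c ν : ℤ) ≤ h n c ν :=
  (hC.hull c ν).of_convex (fun n ↦ (E p M n c ν : ℤ)) (fun n => E_convex hM n c ν)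
    (fun n => by exact_mod_cast E_le_fv hM n c ν) n

theorem fv_zero (hM : MatW p M B Z T s t) (c ν : ℕ) : fv p B Z T 0 c ν = 0 := by
  have h1 := f_gv_lead hM 0 c ν
  have h2 : lead M 0 = 1 := by
    unfold lead minor
    exact Matrix.det_fin_zero
  rw [h2, gv_one] at h1
  exact_mod_cast h1.symm

theorem le_fv_of_mem (hC : CombF p B Z T s t zf h) {n m : ℕ} (hn : T n m ≠ 0) (ν : ℕ) :
    ν ≤ fv p B Z T n m ν := by
  have hZ : m ∈ Finset.range (Z n) := by
    rw [Finset.mem_range]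
    by_contra hc
    exact hn (hC.supp n m (by omega))
  have h1 : T n m * tau p m ν m ≤ ∑ m' ∈ Finset.range (Z n), T n m' * tau p m ν m' :=
    Finset.single_le_sum (f := fun m' ↦ T n m' * tau p m ν m') (fun _ _ => Nat.zero_le _) hZ
  rw [tau_self] at h1
  unfold fv
  have h2 : 1 * ν ≤ T n m * ν := Nat.mul_le_mul_right _ (Nat.one_le_iff_ne_zero.2 hn)
  omega

/-- deep nodes on the ray towards `m` -/
theorem deep_m (hC : CombF p B Z T s t zf h) (hM : MatW p M B Z T s t) (n : ℕ)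
    (ih : ∀ k, k ≤ n → ∀ c ν, h k c ν ≤ E p M k c ν) (m : ℕ) (hm : T (n + 1) m ≠ 0) :
    ∃ K, ∀ ν, K ≤ ν → Vtx (fun k ↦ h k m ν) n → h (n + 1) m ν ≤ E p M (n + 1) m ν := by
  by_cases hn : T n m = 0
  · obtain ⟨b, hnb, K, hK⟩ := hC.leaf n m hn hm
    have hnt := hC.start n m hn hm
    obtain ⟨x, y, hxy⟩ := hM.corank m ⟨n + 1, hm⟩
    refine ⟨max K (s m), fun ν hν hv => ?_⟩
    have h1 := hK ν (le_trans (le_max_left _ _) hν)
    have h2 := (hC.hull m ν).chord (a := n) (n := n + 1) (b := b) (by omega) (by omega)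
    have h3 : (fv p B Z T n m ν : ℤ) = h n m ν := ((hC.hull m ν).eq_of_vtx hv).symm
    obtain ⟨a1, b1, hab⟩ := E_mem hM (n + 1) m ν
    obtain ⟨a2, b2, hab2⟩ := corank_minor M m (s m) (t m) x y hxy
      (le_trans (le_max_right _ _) hν) (n := n) (by omega) a1 b1
    have h4 := E_le (p := p) (M := M) n m ν a2 b2
    have h5 : (E p M n m ν : ℕ∞) + s m ≤ E p M (n + 1) m ν := by
      rw [← hab]
      exact (add_le_add_left h4 _).trans hab2
    have h6 : E p M n m ν + s m ≤ E p M (n + 1) m ν := by exact_mod_cast h5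
    have h7 := ih n le_rfl m ν
    have h8 := E_le_h hC hM n m ν
    -- (b - n) * h (n+1) ≤ (b - n) * (h n + s m)
    have h9 : ((b : ℤ) - n) * h (n + 1) m ν ≤ ((b : ℤ) - n) * (h n m ν + s m) := by
      have e1 : ((b - n : ℕ) : ℤ) = (b : ℤ) - n := by
        rw [Nat.cast_sub (le_of_lt hnb)]
      rw [e1] at h1
      push_cast at h2
      rw [h3] at h1 h2
      nlinarith [h1, h2]
    have h10 : h (n + 1) m ν ≤ h n m ν + s m :=
      le_of_mul_le_mul_left h9 (by omega)
    omega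
  · obtain ⟨N, hN⟩ := hC.fin m
    set b := max N (n + 1) with hb
    have hTb : T b m = 0 := hN b (le_max_left _ _)
    have hnb : n < b := lt_of_lt_of_le (Nat.lt_succ_self n) (le_max_right _ _)
    set Q := B b + ∑ m' ∈ Finset.range (Z b), T b m' * max m m' with hQ
    refine ⟨Q + 1, fun ν hν hv => ?_⟩
    exfalso
    have h2 := (hC.hull m ν).chord (a := 0) (n := n) (b := b) (by omega) (by omega)
    have h3 : (fv p B Z T n m ν : ℤ) = h n m ν := ((hC.hull m ν).eq_of_vtx hv).symm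
    have h4 := fv_bdd (p := p) (B := B) (Z := Z) b m hTb ν
    have h5 := le_fv_of_mem (p := p) hC hn ν
    have h6 := fv_zero hM m ν
    rw [h6] at h2
    rw [← h3] at h2
    push_cast at h2
    have h7 : (fv p B Z T b m ν : ℤ) ≤ Q := by exact_mod_cast h4
    have h8 : (Q : ℤ) + 1 ≤ fv p B Z T n m ν := by
      have : Q + 1 ≤ fv p B Z T n m ν := hν.trans h5
      exact_mod_cast this
    have hb1 : (n : ℤ) < b := by exact_mod_cast hnb
    have hn0 : (0 : ℤ) ≤ n := Int.natCast_nonneg n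
    have hQ0 : (0 : ℤ) ≤ Q := Int.natCast_nonneg Q
    have h9 : (b : ℤ) * (Q + 1) ≤ n * Q := by
      have e1 : (b : ℤ) * (Q + 1) ≤ b * fv p B Z T n m ν :=
        mul_le_mul_of_nonneg_left h8 (by omega)
      have e2 : (n : ℤ) * fv p B Z T b m ν ≤ n * Q := mul_le_mul_of_nonneg_left h7 hn0
      nlinarith [h2, e1, e2]
    nlinarith [h9, hb1, hn0, hQ0]

end FWeak

open Weak (E E_le E_congr fv_bdd)
open FWeak

theorem FWeak.main (hC : CombF p B Z T s t zf h) (hM : MatW p M B Z T s t) (n : ℕ) :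
    ∀ k, k ≤ n → ∀ c ν, h k c ν ≤ E p M k c ν := by
  induction n with
  | zero =>
    intro k hk c ν
    obtain rfl : k = 0 := by omega
    have h1 := (hC.hull c ν).zero
    have h2 := fv_zero hM c ν
    rw [h1, h2]
    exact_mod_cast Nat.zero_le _
  | succ n ih =>
    intro k hk
    rcases Nat.lt_or_ge k (n + 1) with hlt | hge
    · exact ih k (by omega)
    obtain rfl : k = n + 1 := by omega
    -- a uniform depth
    have hd : ∀ m, ∃ K, T (n + 1) m ≠ 0 → ∀ ν, K ≤ ν → Vtx (fun k ↦ h k m ν) n →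
        h (n + 1) m ν ≤ E p M (n + 1) m ν := by
      intro m
      by_cases hm : T (n + 1) m ≠ 0
      · obtain ⟨K, hK⟩ := deep_m hC hM n ih m hm
        exact ⟨K, fun _ => hK⟩
      · exact ⟨0, fun hm' => absurd hm' hm⟩
    choose Kf hKf using hd
    set K := (Finset.range (Z (n + 1))).sup Kf with hK
    refine tree_step (p := p) (Fact.out (p := p.Prime)).one_lt.le
      (fun c ν ↦ (fv p B Z T (n + 1) c ν : ℤ)) (fun c ν ↦ (E p M (n + 1) c ν : ℤ))
      (fun c ν ↦ h (n + 1) c ν) (fun c ν ↦ Vtx (fun k ↦ h k c ν) n) K ?_ ?_ ?_ ?_ ?_ ?_ ?_ ?_ ?_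
      ?_ ?_
    · intro c c' ν hc
      have := fv_congr hc B Z T (n + 1)
      simp only [this]
    · intro c c' ν hc
      have := E_congr (M := M) hc (n + 1)
      simp only [this]
    · intro c c' ν hc
      exact h_congr hC hc (n + 1)
    · intro c ν
      exact fv_harm B Z T (n + 1) c ν
    · intro c ν
      exact E_super hM (n + 1) c ν
    · intro c ν
      exact_mod_cast E_mono hM (n + 1) c ν
    · intro c
      have h1 := (hC.hull c 0).le (n + 1)
      have h2 := fv_root (p := p) B Z T (n + 1) c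
      have h3 := E_root hM (n + 1) c
      rw [h2] at h1
      have h4 : (B (n + 1) : ℤ) ≤ E p M (n + 1) c 0 := by exact_mod_cast h3
      exact h1.trans h4
    · intro c ν hv
      obtain ⟨hn0, h1⟩ := (hC.hull c ν).of_not_vtx hv
      obtain ⟨j, rfl⟩ : ∃ j, n = j + 1 := ⟨n - 1, by omega⟩
      have h2 := E_convex hM j c ν
      have h3 := ih (j + 1) le_rfl c ν
      have h4 := E_le_h hC hM j c ν
      simp only [Nat.add_sub_cancel] at h1
      have e1 : j + 1 + 1 = j + 2 := rfl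
      show h (j + 2) c ν ≤ (E p M (j + 2) c ν : ℤ)
      rw [e1] at h1
      omega
    · intro c ν hv
      exact hC.k1 n c ν hv
    · intro c ν hv
      exact hC.k2 n c ν hv
    · intro c ν hKν hv hlt
      -- a zero `m` in the class
      obtain ⟨m, hmZ, hTm, hmc⟩ : ∃ m, m ∈ Finset.range (Z (n + 1)) ∧ T (n + 1) m ≠ 0 ∧
          m ≡ c [MOD p ^ (ν + 1)] := by
        by_contra hcon
        push Not at hcon
        have : fv p B Z T (n + 1) c (ν + 1) ≤ fv p B Z T (n + 1) c ν := by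
          unfold fv
          refine Nat.add_le_add_left (Finset.sum_le_sum fun m hm => ?_) _
          by_cases hT : T (n + 1) m = 0
          · simp [hT]
          · rw [tau_succ, if_neg (hcon m hm hT), add_zero]
        omega
      have hcm : c ≡ m [MOD p ^ (ν + 1)] := hmc.symm
      have e1 := h_congr hC hcm (n + 1)
      have e2 := E_congr (M := M) hcm (n + 1)
      have e3 : (fun k ↦ h k c (ν + 1)) = fun k ↦ h k m (ν + 1) :=
        funext fun k => h_congr hC hcm k
      rw [e1, e2]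
      rw [e3] at hv
      refine hKf m hTm (ν + 1) ?_ hv
      have : Kf m ≤ K := Finset.le_sup (f := Kf) hmZ
      omega

/-- THEOREM 1. -/
theorem weakF (hC : CombF p B Z T s t zf h) (hM : MatW p M B Z T s t) (n : ℕ) (a b : Fin n → ℕ)
    (c ν : ℕ) : ((h n c ν).toNat : ℕ∞) ≤ gv p c ν (minor M a b) := by
  have h1 := FWeak.main hC hM n n le_rfl c ν
  have h2 : (h n c ν).toNat ≤ E p M n c ν := by omega
  calc ((h n c ν).toNat : ℕ∞) ≤ (E p M n c ν : ℕ∞) := by exact_mod_cast h2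
    _ ≤ _ := E_le n c ν a b

end GH.Pot
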