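import Pool.Agent.GH.Pot.GStrict
import Pool.Agent.GH.Pot.FFinal

/-! The output of GH-POT in the whole disc `|y| ≤ 1`, weak root dominance, several flat
centres. -/

open Polynomial

noncomputable section

namespace GH.Pot

variable {p : ℕ} [Fact p.Prime] {M : ℕ → ℕ → ℤ_[p][X]} {B Z : ℕ → ℕ} {T : ℕ → ℕ → ℕ}
  {s t : ℕ → ℕ} {h : ℕ → ℕ → ℕ → ℤ} {K : Type*} [NormedField K] [IsUltrametricDist K]

omit [Fact p.Prime] in
theorem g_vtx_parent (hC : CombG p B Z T s t h) {n c ν : ℕ}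
    (hv : Vtx (fun k ↦ h k c (ν + 1)) n) : h n c ν = fv p B Z T n c ν := by
  rcases hC.k3b n c ν hv with h1 | ⟨-, h1, -⟩
  · exact (hC.hull c ν).eq_of_vtx h1
  · exact h1

theorem final_weakG (hC : CombG p B Z T s t h) (hM : MatW p M B Z T s t) (φ : ℤ_[p] →+* K)
    (hφ : ∀ z, ‖φ z‖ = ‖z‖) {y : K} (hy : ‖y‖ ≤ 1) {R r : ℝ}
    (hR : 0 < R) (hr : 0 < r) (hD : ∀ k, ‖(lead M k).eval₂ φ y‖ ≤ R * r ^ k)
    {n : ℕ} (a b : Fin n → ℕ) : ‖(minor M a b).eval₂ φ y‖ ≤ R * r ^ n := by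
  set L : ℝ := -Real.logb p R with hL
  set sl : ℝ := -Real.logb p r with hsl
  have hlog : ∀ k : ℕ, R * r ^ k = (p : ℝ) ^ (-(L + sl * k)) := fun k => fn_log hR hr k
  rcases retract φ hφ hy with hB | ⟨c, ν, θ, h0, h1, hyc, hm⟩
  · obtain ⟨Q, hQ⟩ := hC.near n
    obtain ⟨ν, hν⟩ := fn_exists_level Q L sl
    obtain ⟨c, hc⟩ := hB ν
    obtain ⟨b', hnb, hbQ, hvb⟩ := hQ c ν
    have hline : ∀ k, k ≤ b' → L + sl * k ≤ (fv p B Z T k c ν : ℕ) := by
      intro k hk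
      rcases w_lead_B hM φ hφ hy hc k with h3 | ⟨h3, -⟩
      · have h4 := hD k
        rw [h3, hlog, fn_le_iff] at h4
        exact h4
      · have h4 : (ν : ℝ) ≤ (fv p B Z T k c ν : ℕ) := by exact_mod_cast h3
        exact (hν k (hk.trans hbQ)).le.trans h4
    have h5 := (hC.hull c ν).line_le ((hC.hull c ν).eq_of_vtx hvb) hline hnb
    have h6 := weakG hC hM n a b c ν
    have h7 := norm_eval_le φ hφ (minor M a b) c ν (θ := 0) le_rfl zero_le_one h6
      (l := 0) (by simp) (y := y) (by rw [add_zero]; exact hc)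
    refine h7.trans ?_
    rw [hlog, fn_le_iff]
    have h8 : ((h n c ν : ℤ) : ℝ) ≤ ((h n c ν).toNat : ℝ) := by
      exact_mod_cast Int.self_le_toNat _
    linarith
  · have hl : ∀ k : ℕ, L + sl * k ≤ (1 - θ) * (fv p B Z T k c ν : ℕ) +
        θ * (fv p B Z T k c (ν + 1) : ℕ) := by
      intro k
      have h3 := hD k
      rw [w_lead_A hM φ hφ hy hm k, hlog, fn_le_iff] at h3
      exact h3
    have h4 := hull_interpF (hC.hull c ν) (hC.hull c (ν + 1)) (fun k hk => hC.k3a k c ν hk)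
      (fun k hk => g_vtx_parent hC hk) (fun k => by
        obtain ⟨Q, hQ⟩ := hC.near k
        obtain ⟨b', hnb, -, hvb⟩ := hQ c ν
        exact ⟨b', hnb, hvb⟩) hl n
    have h6 := weakG hC hM n a b c ν
    have h6' := weakG hC hM n a b c (ν + 1)
    have h7 := norm_eval_le φ hφ (minor M a b) c ν h0 h1.le h6 h6' (y := y) hyc.le
    refine h7.trans ?_
    rw [hlog, fn_le_iff]
    refine h4.trans ?_
    have h8 : ((h n c ν : ℤ) : ℝ) ≤ ((h n c ν).toNat : ℝ) := by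
      exact_mod_cast Int.self_le_toNat _
    have h9 : ((h n c (ν + 1) : ℤ) : ℝ) ≤ ((h n c (ν + 1)).toNat : ℝ) := by
      exact_mod_cast Int.self_le_toNat _
    exact add_le_add (mul_le_mul_of_nonneg_left h8 (by linarith))
      (mul_le_mul_of_nonneg_left h9 h0)

theorem final_strictG (hC : CombG p B Z T s t h) (hM : MatW p M B Z T s t)
    (φ : ℤ_[p] →+* K) (hφ : ∀ z, ‖φ z‖ = ‖z‖) {y : K} (hy : ‖y‖ ≤ 1) {R r : ℝ}
    (hR : 0 < R) (hr : 0 < r) {n : ℕ} (hn : ‖(lead M n).eval₂ φ y‖ = R * r ^ n)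
    (hD : ∀ k, k ≠ n → ‖(lead M k).eval₂ φ y‖ < R * r ^ k)
    (a b : Fin n → ℕ)
    (hroot : Vtx (fun k ↦ h k 0 0) n → ((B n + 1 : ℕ) : ℕ∞) ≤ gv p 0 0 (minor M a b))
    (hflat : ¬ Vtx (fun k ↦ h k 0 0) n →
      (∀ m, T n m = 0 → T (n + 1) m ≠ 0 → FlatRow p M n m (s m)) ∧ ∃ i, n ≤ a i) :
    ‖(minor M a b).eval₂ φ y‖ < R * r ^ n := by
  set L : ℝ := -Real.logb p R with hL
  set sl : ℝ := -Real.logb p r with hsl
  have hlog : ∀ k : ℕ, R * r ^ k = (p : ℝ) ^ (-(L + sl * k)) := fun k => fn_log hR hr k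
  rcases retract φ hφ hy with hB | ⟨c, ν, θ, h0, h1, hyc, hm⟩
  · obtain ⟨Q, hQ⟩ := hC.near (n + 1)
    obtain ⟨ν, hν⟩ := fn_exists_level Q L sl
    obtain ⟨c, hc⟩ := hB ν
    obtain ⟨b', hnb, hbQ, hvb⟩ := hQ c ν
    have hneq : L + sl * n = (fv p B Z T n c ν : ℕ) := by
      rcases w_lead_B hM φ hφ hy hc n with h3 | ⟨-, h3⟩
      · rw [h3, hlog, fn_eq_iff] at hn
        exact hn.symm
      · rw [hn, hlog, fn_le_iff] at h3
        exact absurd h3 (not_le.2 (hν n (by omega)))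
    have hline : ∀ k, k ≤ b' → k ≠ n → L + sl * k < (fv p B Z T k c ν : ℕ) := by
      intro k hk hkn
      rcases w_lead_B hM φ hφ hy hc k with h3 | ⟨h3, -⟩
      · have h4 := hD k hkn
        rw [h3, hlog, fn_lt_iff] at h4
        exact h4
      · have h4 : (ν : ℝ) ≤ (fv p B Z T k c ν : ℕ) := by exact_mod_cast h3
        exact (hν k (hk.trans hbQ)).trans_le h4
    have h5 := (hC.hull c ν).vtx_of_line ((hC.hull c ν).eq_of_vtx hvb) (by omega) hneq hline
    have h6 := strictG hC hM n a b hroot hflat c ν h5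
    have h7 := norm_eval_le φ hφ (minor M a b) c ν (θ := 0) le_rfl zero_le_one h6
      (l := 0) (by simp) (y := y) (by rw [add_zero]; exact hc)
    refine h7.trans_lt ?_
    rw [hlog, fn_lt_iff, hneq]
    push_cast
    linarith
  · have hneq : L + sl * n = (1 - θ) * (fv p B Z T n c ν : ℕ) +
        θ * (fv p B Z T n c (ν + 1) : ℕ) := by
      rw [w_lead_A hM φ hφ hy hm n, hlog, fn_eq_iff] at hn
      exact hn.symm
    have hl : ∀ k : ℕ, k ≠ n → L + sl * k < (1 - θ) * (fv p B Z T k c ν : ℕ) +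
        θ * (fv p B Z T k c (ν + 1) : ℕ) := by
      intro k hk
      have h3 := hD k hk
      rw [w_lead_A hM φ hφ hy hm k, hlog, fn_lt_iff] at h3
      exact h3
    have hvn := hull_interp_vtxF (hC.hull c ν) (hC.hull c (ν + 1))
      (fun k hk => hC.k3a k c ν hk) (fun k hk => g_vtx_parent hC hk) (fun k => by
        obtain ⟨Q, hQ⟩ := hC.near k
        obtain ⟨b', hnb, -, hvb⟩ := hQ c ν
        exact ⟨b', hnb, hvb⟩) h0 h1 hneq hl
    rcases hvn with hvn | ⟨hpos, hvn⟩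
    · have h6 := strictG hC hM n a b hroot hflat c ν hvn
      have h6' := weakG hC hM n a b c (ν + 1)
      rw [hC.k3a n c ν hvn, Int.toNat_natCast] at h6'
      have h7 := norm_eval_le φ hφ (minor M a b) c ν h0 h1.le h6 h6' (y := y) hyc.le
      refine h7.trans_lt ?_
      rw [hlog, fn_lt_iff, hneq]
      push_cast
      nlinarith
    · have h6 := weakG hC hM n a b c ν
      rw [g_vtx_parent hC hvn, Int.toNat_natCast] at h6
      have h6' := strictG hC hM n a b hroot hflat c (ν + 1) hvn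
      have h7 := norm_eval_le φ hφ (minor M a b) c ν h0 h1.le h6 h6' (y := y) hyc.le
      refine h7.trans_lt ?_
      rw [hlog, fn_lt_iff, hneq]
      push_cast
      nlinarith

end GH.Pot
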