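import Pool.Agent.GH.Pot.Defs

/-!
# Lower convex hulls of integer sequences

Elementary facts on the structure `IsHull` and on the vertices `Vtx` of a polygon.
-/

noncomputable section

namespace GH.Pot

/-! ### Convex and linear sequences of real numbers -/

/-- a sequence which is linear at the inner points of `[a, b]` is affine there -/
theorem Hull_lin {g : ℕ → ℝ} {a b : ℕ} (hg : ∀ k, a < k → k < b → 2 * g k = g (k - 1) + g (k + 1)) :
    ∀ k, a ≤ k → k ≤ b → g k = g a + ((k : ℝ) - a) * (g (a + 1) - g a) := by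
  have key : ∀ j : ℕ, a + j + 1 ≤ b → g (a + j) = g a + (j : ℝ) * (g (a + 1) - g a) ∧
      g (a + j + 1) = g a + ((j : ℝ) + 1) * (g (a + 1) - g a) := by
    intro j
    induction j with
    | zero => intro _; constructor <;> simp
    | succ j ih =>
      intro hj
      obtain ⟨h1, h2⟩ := ih (by omega)
      have h3 := hg (a + j + 1) (by omega) (by omega)
      have e1 : a + j + 1 - 1 = a + j := by omega
      rw [e1] at h3
      have e2 : a + (j + 1) = a + j + 1 := by omega
      rw [e2]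
      push_cast
      constructor
      · rw [h2]
      · linarith
  intro k hak hkb
  rcases Nat.lt_or_ge a k with h | h
  · obtain ⟨j, rfl⟩ : ∃ j, k = a + j + 1 := ⟨k - a - 1, by omega⟩
    rw [(key j (by omega)).2]
    push_cast
    ring
  · have : k = a := by omega
    subst this
    simp

/-- the chord form of `Hull_lin` -/
theorem Hull_lin_chord {g : ℕ → ℝ} {a b : ℕ}
    (hg : ∀ k, a < k → k < b → 2 * g k = g (k - 1) + g (k + 1)) {n : ℕ} (han : a ≤ n)
    (hnb : n ≤ b) : ((b : ℝ) - a) * g n = ((b : ℝ) - n) * g a + ((n : ℝ) - a) * g b := by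
  rw [Hull_lin hg n han hnb, Hull_lin hg b (han.trans hnb) le_rfl]
  ring

/-- chords of convex sequences -/
theorem Hull_chord {g : ℕ → ℝ} (hg : ∀ n, 2 * g (n + 1) ≤ g n + g (n + 2)) {a n b : ℕ}
    (han : a ≤ n) (hnb : n ≤ b) :
    ((b : ℝ) - a) * g n ≤ ((b : ℝ) - n) * g a + ((n : ℝ) - a) * g b := by
  have hmono : Monotone fun k ↦ g (k + 1) - g k :=
    monotone_nat_of_le_succ fun k ↦ by
      have := hg k
      show g (k + 1) - g k ≤ g (k + 1 + 1) - g (k + 1)
      linarith
  -- to the left of `n`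
  have hl : ∀ j, a ≤ j → j ≤ n → g n - g j ≤ ((n : ℝ) - j) * (g (n + 1) - g n) := by
    intro j _ hj
    obtain ⟨i, rfl⟩ := Nat.exists_eq_add_of_le hj
    clear hj
    have : ∀ i j : ℕ, ∀ N : ℕ, j + i ≤ N →
        g (j + i) - g j ≤ (i : ℝ) * (g (N + 1) - g N) := by
      intro i
      induction i with
      | zero => intro j N _; simp
      | succ i ih =>
        intro j N hN
        have h1 := ih j N (by omega)
        have h2 := hmono (show j + i ≤ N by omega)
        simp only at h2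
        have e : j + (i + 1) = j + i + 1 := by omega
        rw [e]
        push_cast
        linarith
    have := this i j (j + i) le_rfl
    push_cast
    linarith
  have hr : ∀ i : ℕ, (i : ℝ) * (g (n + 1) - g n) ≤ g (n + i) - g n := by
    intro i
    induction i with
    | zero => simp
    | succ i ih =>
      have h2 := hmono (show n ≤ n + i by omega)
      simp only at h2
      have e : n + (i + 1) = n + i + 1 := by omega
      rw [e]
      push_cast
      linarith
  obtain ⟨i, rfl⟩ := Nat.exists_eq_add_of_le hnb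
  have h1 := hl a le_rfl han
  have h2 := hr i
  have h3 : (0 : ℝ) ≤ (n : ℝ) - a := by
    have : (a : ℝ) ≤ n := by exact_mod_cast han
    linarith
  have h4 : (0 : ℝ) ≤ (i : ℝ) := Nat.cast_nonneg i
  push_cast
  nlinarith [mul_le_mul_of_nonneg_left h1 h4, mul_le_mul_of_nonneg_left h2 h3]

/-- two consecutive points with a property which holds at `0` and arbitrarily far away -/
theorem Hull_between (Q : ℕ → Prop) (h0 : Q 0) (hinf : ∀ n, ∃ k, n ≤ k ∧ Q k) (n : ℕ) :
    ∃ a b, a ≤ n ∧ n ≤ b ∧ Q a ∧ Q b ∧ (∀ k, a < k → k < b → ¬ Q k) ∧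
      (∀ k, n ≤ k → Q k → b ≤ k) ∧ (Q n → a = n ∧ b = n) := by
  classical
  by_cases hn : Q n
  · exact ⟨n, n, le_rfl, le_rfl, hn, hn, fun k h1 h2 ↦ by omega, fun k h _ ↦ h,
      fun _ ↦ ⟨rfl, rfl⟩⟩
  · have hb : ∃ k, n ≤ k ∧ Q k := hinf n
    set b := Nat.find hb with hbdef
    obtain ⟨hb1, hb2⟩ := Nat.find_spec hb
    set a := Nat.findGreatest Q n with hadef
    have ha1 : a ≤ n := Nat.findGreatest_le n
    have ha2 : Q a := Nat.findGreatest_spec (P := Q) (Nat.zero_le n) h0
    refine ⟨a, b, ha1, hb1, ha2, hb2, ?_, ?_, fun h ↦ absurd h hn⟩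
    · intro k h1 h2 hk
      rcases Nat.lt_or_ge n k with h | h
      · exact Nat.find_min hb h2 ⟨h.le, hk⟩
      · exact Nat.findGreatest_is_greatest h1 h hk
    · intro k h1 h2
      exact Nat.find_min' hb ⟨h1, h2⟩

/-! ### Hulls -/

variable {f : ℕ → ℕ} {h : ℕ → ℤ}

/-- outside the vertices the hull is linear -/
theorem IsHull.of_not_vtx (H : IsHull f h) {n : ℕ} (hn : ¬ Vtx h n) :
    n ≠ 0 ∧ 2 * h n = h (n - 1) + h (n + 1) := by
  unfold Vtx at hn
  push Not at hn
  obtain ⟨h0, h1⟩ := hn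
  refine ⟨h0, ?_⟩
  have h2 := H.convex (n - 1)
  have e1 : n - 1 + 1 = n := by omega
  have e2 : n - 1 + 2 = n + 1 := by omega
  rw [e1, e2] at h2
  omega

/-- vertices are on the graph of `f` -/
theorem IsHull.eq_of_vtx (H : IsHull f h) {n : ℕ} (hn : Vtx h n) : h n = f n := by
  rcases Nat.eq_zero_or_pos n with h0 | h0
  · rw [h0]; exact H.zero
  · rcases hn with h1 | h1
    · omega
    · by_contra hne
      have hlt : h n < f n := lt_of_le_of_ne (H.le n) hne
      obtain ⟨k, rfl⟩ : ∃ k, n = k + 1 := ⟨n - 1, by omega⟩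
      have h2 := H.lin k hlt
      have e : k + 1 - 1 = k := by omega
      rw [e] at h1
      have e2 : k + 1 + 1 = k + 2 := by omega
      rw [e2] at h1
      omega

/-- the data at a given index: the neighbouring touching points -/
theorem Hull_touch (H : IsHull f h) (n : ℕ) :
    ∃ a b, a ≤ n ∧ n ≤ b ∧ h a = f a ∧ h b = f b ∧
      (∀ k, n ≤ k → h k = f k → b ≤ k) ∧
      ((b : ℝ) - a) * (h n : ℝ) = ((b : ℝ) - n) * (h a : ℝ) + ((n : ℝ) - a) * (h b : ℝ) ∧
      (a = b → a = n) := by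
  obtain ⟨a, b, h1, h2, h3, h4, h5, h6, _⟩ :=
    Hull_between (fun k ↦ h k = f k) H.zero H.touch n
  refine ⟨a, b, h1, h2, h3, h4, h6, ?_, fun e ↦ by omega⟩
  refine Hull_lin_chord (g := fun k ↦ (h k : ℝ)) ?_ h1 h2
  intro k hk1 hk2
  have hk := h5 k hk1 hk2
  obtain ⟨j, rfl⟩ : ∃ j, k = j + 1 := ⟨k - 1, by omega⟩
  have h7 := H.lin j (lt_of_le_of_ne (H.le _) hk)
  have e : j + 1 - 1 = j := by omega
  rw [e]
  show 2 * ((h (j + 1) : ℤ) : ℝ) = (h j : ℝ) + (h (j + 1 + 1) : ℝ)
  exact_mod_cast h7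

/-- a convex sequence below `f` is below the hull -/
theorem IsHull.of_convex (H : IsHull f h) (e : ℕ → ℤ) (he : ∀ n, 2 * e (n + 1) ≤ e n + e (n + 2))
    (hf : ∀ n, e n ≤ f n) (n : ℕ) : e n ≤ h n := by
  obtain ⟨a, b, h1, h2, h3, h4, -, h6, h7⟩ := Hull_touch H n
  rcases Nat.lt_or_ge a b with hab | hab
  · have hc := Hull_chord (g := fun k ↦ (e k : ℝ)) (fun k ↦ by exact_mod_cast he k) h1 h2
    have ha : (e a : ℝ) ≤ (h a : ℝ) := by
      have := hf a
      rw [← h3] at this
      exact_mod_cast this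
    have hb : (e b : ℝ) ≤ (h b : ℝ) := by
      have := hf b
      rw [← h4] at this
      exact_mod_cast this
    have c1 : (0 : ℝ) ≤ (b : ℝ) - n := by
      have : (n : ℝ) ≤ b := by exact_mod_cast h2
      linarith
    have c2 : (0 : ℝ) ≤ (n : ℝ) - a := by
      have : (a : ℝ) ≤ n := by exact_mod_cast h1
      linarith
    have c3 : (0 : ℝ) < (b : ℝ) - a := by
      have : (a : ℝ) < b := by exact_mod_cast hab
      linarith
    have h8 : ((b : ℝ) - a) * (e n : ℝ) ≤ ((b : ℝ) - a) * (h n : ℝ) := by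
      rw [h6]
      nlinarith [mul_le_mul_of_nonneg_left ha c1, mul_le_mul_of_nonneg_left hb c2]
    have h9 := le_of_mul_le_mul_left h8 c3
    exact_mod_cast h9
  · have hab' : a = b := by omega
    have := h7 hab'
    subst this
    have h10 := hf a
    rwa [← h3] at h10

/-- the hull is unique -/
theorem IsHull.unique {h' : ℕ → ℤ} (H : IsHull f h) (H' : IsHull f h') : h = h' := by
  funext n
  exact le_antisymm (H'.of_convex h H.convex H.le n) (H.of_convex h' H'.convex H'.le n)

/-- chords: `h n ≤` the chord of `f` -/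
theorem IsHull.chord (H : IsHull f h) {a n b : ℕ} (han : a ≤ n) (hnb : n ≤ b) :
    (b - a : ℤ) * h n ≤ (b - n : ℤ) * f a + (n - a : ℤ) * f b := by
  have hc := Hull_chord (g := fun k ↦ (h k : ℝ)) (fun k ↦ by exact_mod_cast H.convex k) han hnb
  have hc' : ((b : ℤ) - a) * h n ≤ ((b : ℤ) - n) * h a + ((n : ℤ) - a) * h b := by
    exact_mod_cast hc
  have h1 : (0 : ℤ) ≤ (b : ℤ) - n := by omega
  have h2 : (0 : ℤ) ≤ (n : ℤ) - a := by omega
  have h3 := mul_le_mul_of_nonneg_left (H.le a) h1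
  have h4 := mul_le_mul_of_nonneg_left (H.le b) h2
  linarith

/-- a line below `f` on `[0, b]` is below the hull on `[0, b]` if the hull touches at `b` -/
theorem IsHull.line_le (H : IsHull f h) {b : ℕ} (hb : h b = f b) {L s : ℝ}
    (hl : ∀ k, k ≤ b → L + s * k ≤ f k) {n : ℕ} (hn : n ≤ b) : L + s * n ≤ h n := by
  obtain ⟨a, b', h1, h2, h3, h4, h5, h6, h7⟩ := Hull_touch H n
  have hb' : b' ≤ b := h5 b hn hb
  have la : L + s * a ≤ (h a : ℝ) := by
    have := hl a (by omega)
    have e : (h a : ℝ) = (f a : ℝ) := by rw [h3]; simp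
    rw [e]; exact this
  have lb : L + s * b' ≤ (h b' : ℝ) := by
    have := hl b' hb'
    have e : (h b' : ℝ) = (f b' : ℝ) := by rw [h4]; simp
    rw [e]; exact this
  rcases Nat.lt_or_ge a b' with hab | hab
  · have c1 : (0 : ℝ) ≤ (b' : ℝ) - n := by
      have : (n : ℝ) ≤ b' := by exact_mod_cast h2
      linarith
    have c2 : (0 : ℝ) ≤ (n : ℝ) - a := by
      have : (a : ℝ) ≤ n := by exact_mod_cast h1
      linarith
    have c3 : (0 : ℝ) < (b' : ℝ) - a := by
      have : (a : ℝ) < b' := by exact_mod_cast hab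
      linarith
    refine le_of_mul_le_mul_left ?_ c3
    rw [h6]
    nlinarith [mul_le_mul_of_nonneg_left la c1, mul_le_mul_of_nonneg_left lb c2]
  · have hab' : a = b' := by omega
    have := h7 hab'
    subst this
    exact la

/-- a point where a line touches `f` strictly is a vertex -/
theorem IsHull.vtx_of_line (H : IsHull f h) {b n : ℕ} (hb : h b = f b) (hnb : n < b) {L s : ℝ}
    (hn : L + s * n = f n) (hl : ∀ k, k ≤ b → k ≠ n → L + s * k < f k) : Vtx h n := by
  by_contra hv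
  obtain ⟨h0, h1⟩ := H.of_not_vtx hv
  have hle : ∀ k, k ≤ b → L + s * k ≤ (h k : ℝ) := by
    intro k hk
    refine H.line_le hb ?_ hk
    intro j hj
    by_cases hjn : j = n
    · rw [hjn, hn]
    · exact (hl j hj hjn).le
  have hnn : (h n : ℝ) = L + s * n := by
    refine le_antisymm ?_ (hle n hnb.le)
    rw [hn]
    exact_mod_cast H.le n
  have h1' : 2 * (h n : ℝ) = (h (n - 1) : ℝ) + (h (n + 1) : ℝ) := by exact_mod_cast h1
  have h2 := hle (n - 1) (by omega)
  have h3 := hle (n + 1) (by omega)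
  have e1 : ((n - 1 : ℕ) : ℝ) = (n : ℝ) - 1 := by
    rw [Nat.cast_sub (by omega)]; simp
  rw [e1] at h2
  push_cast at h3
  have h4 : (h (n + 1) : ℝ) = L + s * ((n : ℝ) + 1) := by
    refine le_antisymm ?_ h3
    nlinarith
  have key : ∀ j : ℕ, n + j + 1 ≤ b → (h (n + j) : ℝ) = L + s * ((n : ℝ) + j) ∧
      (h (n + j + 1) : ℝ) = L + s * ((n : ℝ) + j + 1) := by
    intro j
    induction j with
    | zero => intro _; simp only [Nat.cast_zero, add_zero]; exact ⟨hnn, h4⟩
    | succ j ih =>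
      intro hj
      obtain ⟨k1, k2⟩ := ih (by omega)
      have h5 := hl (n + j + 1) (by omega) (by omega)
      have h6 : h (n + j + 1) < f (n + j + 1) := by
        have : (h (n + j + 1) : ℝ) < (f (n + j + 1) : ℝ) := by
          rw [k2]
          refine lt_of_le_of_lt (le_of_eq ?_) h5
          push_cast
          ring
        exact_mod_cast this
      have h7 := H.lin (n + j) h6
      have h7' : 2 * (h (n + j + 1) : ℝ) = (h (n + j) : ℝ) + (h (n + j + 2) : ℝ) := by
        exact_mod_cast h7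
      have e3 : n + (j + 1) = n + j + 1 := by omega
      have e4 : n + (j + 1) + 1 = n + j + 2 := by omega
      rw [e4, e3]
      push_cast
      constructor
      · rw [k2]; ring
      · linarith
  obtain ⟨j, hj⟩ : ∃ j, b = n + j + 1 := ⟨b - n - 1, by omega⟩
  have h8 := (key j (by omega)).2
  rw [← hj] at h8
  have h9 := hl b le_rfl (by omega)
  have h10 : (h b : ℝ) = (f b : ℝ) := by rw [hb]; simp
  rw [h10] at h8
  rw [h8, hj] at h9
  push_cast at h9
  linarith

/-- the data for two hulls -/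
theorem Hull_two {f' : ℕ → ℕ} {h' : ℕ → ℤ} (H : IsHull f h) (H' : IsHull f' h')
    (hv : ∀ n, Vtx h n → h' n = f' n) (hvv : ∀ n, Vtx h' n → Vtx h n)
    (hinf : ∀ n, ∃ k, n ≤ k ∧ Vtx h k) (θ : ℝ) (n : ℕ) :
    ∃ a b, a ≤ n ∧ n ≤ b ∧ (a = b → a = n) ∧ (¬ Vtx h n → a < n ∧ n < b) ∧
      ((1 - θ) * h a + θ * h' a = (1 - θ) * f a + θ * f' a) ∧
      ((1 - θ) * h b + θ * h' b = (1 - θ) * f b + θ * f' b) ∧
      ((b : ℝ) - a) * ((1 - θ) * h n + θ * h' n) =
        ((b : ℝ) - n) * ((1 - θ) * h a + θ * h' a) +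
          ((n : ℝ) - a) * ((1 - θ) * h b + θ * h' b) := by
  obtain ⟨a, b, h1, h2, h3, h4, h5, -, -⟩ := Hull_between (fun k ↦ Vtx h k) (Or.inl rfl) hinf n
  have hval : ∀ k, Vtx h k → (1 - θ) * (h k : ℝ) + θ * h' k = (1 - θ) * f k + θ * f' k := by
    intro k hk
    rw [H.eq_of_vtx hk, hv k hk]
    simp
  refine ⟨a, b, h1, h2, fun e ↦ by omega, ?_, hval a h3, hval b h4, ?_⟩
  · intro hn
    constructor
    · rcases Nat.lt_or_ge a n with h | h
      · exact h
      · have : a = n := by omega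
        subst this
        exact absurd h3 hn
    · rcases Nat.lt_or_ge n b with h | h
      · exact h
      · have : b = n := by omega
        subst this
        exact absurd h4 hn
  · refine Hull_lin_chord (g := fun k ↦ (1 - θ) * (h k : ℝ) + θ * (h' k : ℝ)) ?_ h1 h2
    intro k hk1 hk2
    have hk := h5 k hk1 hk2
    have l1 := (H.of_not_vtx hk).2
    have l2 := (H'.of_not_vtx (fun h ↦ hk (hvv k h))).2
    have l1' : 2 * (h k : ℝ) = (h (k - 1) : ℝ) + (h (k + 1) : ℝ) := by exact_mod_cast l1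
    have l2' : 2 * (h' k : ℝ) = (h' (k - 1) : ℝ) + (h' (k + 1) : ℝ) := by exact_mod_cast l2
    show 2 * ((1 - θ) * (h k : ℝ) + θ * (h' k : ℝ)) = (1 - θ) * (h (k - 1) : ℝ) +
      θ * (h' (k - 1) : ℝ) + ((1 - θ) * (h (k + 1) : ℝ) + θ * (h' (k + 1) : ℝ))
    linear_combination (1 - θ) * l1' + θ * l2'

set_option linter.unusedVariables false in
/-- Weighted sums of two hulls, the vertices of the second being vertices of the first, the second
touching its function at the vertices of the first: a line below the weighted sum of the functions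
is below the weighted sum of the hulls. -/
theorem hull_interp {f' : ℕ → ℕ} {h' : ℕ → ℤ} (H : IsHull f h) (H' : IsHull f' h')
    (hv : ∀ n, Vtx h n → h' n = f' n) (hvv : ∀ n, Vtx h' n → Vtx h n)
    (hinf : ∀ n, ∃ k, n ≤ k ∧ Vtx h k) {θ L s : ℝ} (h0 : 0 ≤ θ) (h1 : θ ≤ 1)
    (hl : ∀ n, L + s * n ≤ (1 - θ) * f n + θ * f' n) (n : ℕ) :
    L + s * n ≤ (1 - θ) * h n + θ * h' n := by
  obtain ⟨a, b, han, hnb, h3, -, h5, h6, h7⟩ := Hull_two H H' hv hvv hinf θ n
  have la := hl a
  have lb := hl b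
  rw [← h5] at la
  rw [← h6] at lb
  rcases Nat.lt_or_ge a b with hab | hab
  · have c1 : (0 : ℝ) ≤ (b : ℝ) - n := by
      have : (n : ℝ) ≤ b := by exact_mod_cast hnb
      linarith
    have c2 : (0 : ℝ) ≤ (n : ℝ) - a := by
      have : (a : ℝ) ≤ n := by exact_mod_cast han
      linarith
    have c3 : (0 : ℝ) < (b : ℝ) - a := by
      have : (a : ℝ) < b := by exact_mod_cast hab
      linarith
    refine le_of_mul_le_mul_left ?_ c3
    rw [h7]
    nlinarith [mul_le_mul_of_nonneg_left la c1, mul_le_mul_of_nonneg_left lb c2]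
  · have hab' : a = b := by omega
    have := h3 hab'
    subst this
    exact la

/-- If moreover the line touches the weighted sum of the functions only at `n`, and `θ < 1`, then
`n` is a vertex of the first hull. -/
theorem hull_interp_vtx {f' : ℕ → ℕ} {h' : ℕ → ℤ} (H : IsHull f h) (H' : IsHull f' h')
    (hv : ∀ n, Vtx h n → h' n = f' n) (hvv : ∀ n, Vtx h' n → Vtx h n)
    (hinf : ∀ n, ∃ k, n ≤ k ∧ Vtx h k) {θ L s : ℝ} (h0 : 0 ≤ θ) (h1 : θ < 1) {n : ℕ}
    (hn : L + s * n = (1 - θ) * f n + θ * f' n)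
    (hl : ∀ k, k ≠ n → L + s * k < (1 - θ) * f k + θ * f' k) : Vtx h n := by
  by_contra hvn
  obtain ⟨a, b, -, -, -, h4, h5, h6, h7⟩ := Hull_two H H' hv hvv hinf θ n
  obtain ⟨han, hnb⟩ := h4 hvn
  have la := hl a (by omega)
  have lb := hl b (by omega)
  rw [← h5] at la
  rw [← h6] at lb
  have c1 : (0 : ℝ) < (b : ℝ) - n := by
    have : (n : ℝ) < b := by exact_mod_cast hnb
    linarith
  have c2 : (0 : ℝ) < (n : ℝ) - a := by
    have : (a : ℝ) < n := by exact_mod_cast han
    linarith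
  have hle : (1 - θ) * (h n : ℝ) + θ * h' n ≤ L + s * n := by
    rw [hn]
    have e1 : (h n : ℝ) ≤ f n := by exact_mod_cast H.le n
    have e2 : (h' n : ℝ) ≤ f' n := by exact_mod_cast H'.le n
    have := mul_le_mul_of_nonneg_left e1 (by linarith : (0 : ℝ) ≤ 1 - θ)
    have := mul_le_mul_of_nonneg_left e2 h0
    linarith
  have c3 : (0 : ℝ) < (b : ℝ) - a := by linarith
  have h8 := mul_le_mul_of_nonneg_left hle c3.le
  rw [h7] at h8
  nlinarith [mul_lt_mul_of_pos_left la c1, mul_lt_mul_of_pos_left lb c2]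

end GH.Pot
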