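import Mathlib

/-!
# Minima of the valuations of the minors of a matrix are convex

`v` is an additive valuation with values in `ℕ∞` on a commutative ring, `M` a matrix with
arbitrary index types. `ee v M k` is the minimum of the valuations of the `k × k` minors.
-/

set_option autoImplicit false

namespace GH.Pot.SmithA

universe u w z

variable {R : Type u} [CommRing R] (v : AddValuation R ℕ∞) {ι : Type w} {κ : Type z}

/-- A minor, with arbitrary index functions. -/
def mnr (M : ι → κ → R) {k : ℕ} (a : Fin k → ι) (b : Fin k → κ) : R :=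
  Matrix.det (Matrix.of fun i j => M (a i) (b j))

/-- The minimum of the valuations of the minors of size `k`. -/
noncomputable def ee (M : ι → κ → R) (k : ℕ) : ℕ∞ :=
  ⨅ (a : Fin k → ι) (b : Fin k → κ), v (mnr M a b)

theorem ee_le (M : ι → κ → R) {k : ℕ} (a : Fin k → ι) (b : Fin k → κ) :
    ee v M k ≤ v (mnr M a b) :=
  iInf₂_le (f := fun (a : Fin k → ι) (b : Fin k → κ) => v (mnr M a b)) a b

theorem le_ee (M : ι → κ → R) {k : ℕ} {c : ℕ∞}
    (h : ∀ (a : Fin k → ι) (b : Fin k → κ), c ≤ v (mnr M a b)) : c ≤ ee v M k := le_iInf₂ h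

theorem exists_min {α : Type*} [Nonempty α] (f : α → ℕ∞) : ∃ a, ∀ b, f a ≤ f b := by
  obtain ⟨a, ha⟩ := WellFounded.has_min (wellFounded_lt (α := ℕ∞)) (Set.range f)
    (Set.range_nonempty f)
  obtain ⟨⟨i, rfl⟩, h⟩ := ha
  exact ⟨i, fun b => not_lt.1 (h (f b) ⟨b, rfl⟩)⟩

theorem ee_attained [Nonempty ι] [Nonempty κ] (M : ι → κ → R) (k : ℕ) :
    ∃ (a : Fin k → ι) (b : Fin k → κ), v (mnr M a b) = ee v M k := by
  obtain ⟨⟨a, b⟩, h⟩ := exists_min
    (fun p : (Fin k → ι) × (Fin k → κ) => v (mnr M p.1 p.2))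
  exact ⟨a, b, le_antisymm (le_ee v M (fun a' b' => h (a', b'))) (ee_le v M a b)⟩

theorem mnr_zero (M : ι → κ → R) (a : Fin 0 → ι) (b : Fin 0 → κ) : mnr M a b = 1 := by
  unfold mnr
  exact Matrix.det_fin_zero

theorem ee_zero (M : ι → κ → R) : ee v M 0 = 0 := by
  apply le_antisymm
  · refine (ee_le v M (fun i => i.elim0) (fun i => i.elim0)).trans ?_
    rw [mnr_zero, v.map_one]
  · exact zero_le

theorem v_sum_le {α : Type*} (s : Finset α) (f : α → R) (c : ℕ∞) (h : ∀ i ∈ s, c ≤ v (f i)) :
    c ≤ v (∑ i ∈ s, f i) := AddValuation.map_le_sum v h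

theorem v_pow_neg_one (n : ℕ) : v ((-1) ^ n) = 0 := by
  rcases neg_one_pow_eq_or R n with h | h
  · rw [h, v.map_one]
  · rw [h, AddValuation.map_neg, v.map_one]

/-- Laplace expansion along the first row. -/
theorem lap_row {k : ℕ} (P : Matrix (Fin (k + 1)) (Fin (k + 1)) R) (c d : ℕ∞)
    (hc : ∀ j, c ≤ v (P 0 j))
    (hd : ∀ j : Fin (k + 1), d ≤ v (P.submatrix Fin.succ j.succAbove).det) :
    c + d ≤ v P.det := by
  rw [Matrix.det_succ_row_zero]
  apply v_sum_le
  intro j _
  rw [v.map_mul, v.map_mul, v_pow_neg_one, zero_add]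
  exact add_le_add (hc j) (hd j)

/-- Chio's condensation. -/
theorem chio {k : ℕ} (x : R) (r : Fin k → R) (c : Fin k → R) (A : Fin k → Fin k → R) :
    x ^ k * Matrix.det (Matrix.of (Fin.cons (Fin.cons x r : Fin (k + 1) → R)
      (fun i => (Fin.cons (c i) (A i) : Fin (k + 1) → R)) : Fin (k + 1) → Fin (k + 1) → R)) =
    x * Matrix.det (Matrix.of fun i j => x * A i j - c i * r j) := by
  set B : Matrix (Fin (k + 1)) (Fin (k + 1)) R := Matrix.of
    (Fin.cons (Fin.cons x r : Fin (k + 1) → R)
      (fun i => (Fin.cons (c i) (A i) : Fin (k + 1) → R)) : Fin (k + 1) → Fin (k + 1) → R) with hB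
  have h1 := Matrix.det_mul_column (Fin.cons 1 (fun _ => x) : Fin (k + 1) → R) B
  rw [Fin.prod_univ_succ] at h1
  simp only [Fin.cons_zero, Fin.cons_succ, Finset.prod_const, Finset.card_univ,
    Fintype.card_fin, one_mul] at h1
  rw [← h1]
  set C : Matrix (Fin (k + 1)) (Fin (k + 1)) R := Matrix.of
    (Fin.cons (Fin.cons x r : Fin (k + 1) → R)
      (fun i => (Fin.cons 0 (fun j => x * A i j - c i * r j) : Fin (k + 1) → R)) :
      Fin (k + 1) → Fin (k + 1) → R) with hC
  have h2 : (Matrix.of fun i j => (Fin.cons 1 (fun _ => x) : Fin (k + 1) → R) i * B i j).det =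
      C.det := by
    apply Matrix.det_eq_of_forall_row_eq_smul_add_const (Fin.cons 0 c : Fin (k + 1) → R) 0
      (by simp)
    intro i j
    refine Fin.cases ?_ (fun i => ?_) i
    · simp [hB, hC]
    · refine Fin.cases ?_ (fun j => ?_) j
      · simp [hB, hC]; ring
      · simp [hB, hC]
  rw [h2, Matrix.det_succ_column_zero, Fin.sum_univ_succ]
  have h3 : ∀ i : Fin k, C i.succ 0 = 0 := fun i => by simp [hC]
  simp only [h3, mul_zero, zero_mul, Finset.sum_const_zero, add_zero]
  have h4 : C 0 0 = x := by simp [hC]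
  rw [h4]
  simp only [Fin.val_zero, pow_zero, one_mul]
  congr 1

/-- The determinant of a rank one perturbation, as a bordered determinant. -/
theorem bord {k : ℕ} (r : Fin k → R) (c : Fin k → R) (A : Fin k → Fin k → R) :
    Matrix.det (Matrix.of fun i j => A i j + c i * r j) =
    Matrix.det (Matrix.of (Fin.cons (Fin.cons 1 r : Fin (k + 1) → R)
      (fun i => (Fin.cons (-c i) (A i) : Fin (k + 1) → R)) :
        Fin (k + 1) → Fin (k + 1) → R)) := by
  have h := chio (1 : R) r (fun i => -c i) A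
  simp only [one_pow, one_mul] at h
  rw [h]
  congr 1
  ext i j
  simp only [Matrix.of_apply]
  ring

/-- The condensed matrix. -/
def cond (M : ι → κ → R) (i0 : ι) (j0 : κ) : ι → κ → R :=
  fun i j => M i0 j0 * M i j - M i j0 * M i0 j

theorem mnr_cons (M : ι → κ → R) (i0 : ι) (j0 : κ) {k : ℕ} (a : Fin k → ι) (b : Fin k → κ) :
    (M i0 j0) ^ k * mnr M (Fin.cons i0 a) (Fin.cons j0 b) =
      M i0 j0 * mnr (cond M i0 j0) a b := by
  have h := chio (M i0 j0) (fun j => M i0 (b j)) (fun i => M (a i) j0)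
    (fun i j => M (a i) (b j))
  unfold mnr
  rw [show (Matrix.of fun i j => cond M i0 j0 (a i) (b j)) =
    Matrix.of fun i j => M i0 j0 * M (a i) (b j) - M (a i) j0 * M i0 (b j) from rfl, ← h]
  congr 2
  ext i j
  refine Fin.cases ?_ (fun i => ?_) i
  · refine Fin.cases ?_ (fun j => ?_) j
    · simp
    · simp
  · refine Fin.cases ?_ (fun j => ?_) j
    · simp
    · simp

theorem cond_A1 (M : ι → κ → R) (i0 : ι) (j0 : κ) [Nonempty ι] [Nonempty κ] (k : ℕ) :
    (k : ℕ∞) * v (M i0 j0) + ee v M (k + 1) ≤ v (M i0 j0) + ee v (cond M i0 j0) k := by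
  obtain ⟨a, b, hab⟩ := ee_attained v (cond M i0 j0) k
  rw [← hab, ← v.map_mul, ← mnr_cons, v.map_mul, AddValuation.map_pow, nsmul_eq_mul]
  gcongr
  exact ee_le v M _ _

theorem v_cond_ge (M : ι → κ → R) (i0 : ι) (j0 : κ) (h : ∀ i j, v (M i0 j0) ≤ v (M i j))
    (i : ι) (j : κ) : v (M i0 j0) + v (M i0 j0) ≤ v (cond M i0 j0 i j) := by
  unfold cond
  refine le_trans (le_min ?_ ?_) (AddValuation.map_sub v _ _)
  · rw [v.map_mul]; exact add_le_add le_rfl (h _ _)
  · rw [v.map_mul]; exact add_le_add (h _ _) (h _ _)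

theorem cond_A2 (M : ι → κ → R) (i0 : ι) (j0 : κ) (h : ∀ i j, v (M i0 j0) ≤ v (M i j)) (k : ℕ) :
    v (M i0 j0) + v (M i0 j0) + ee v (cond M i0 j0) k ≤
      ((k + 1 : ℕ) : ℕ∞) * v (M i0 j0) + ee v M (k + 1) := by
  set x := M i0 j0 with hx
  set s := v x with hs
  -- it is enough to bound every minor
  have key : ∀ (a : Fin (k + 1) → ι) (b : Fin (k + 1) → κ),
      s + s + ee v (cond M i0 j0) k ≤ ((k + 1 : ℕ) : ℕ∞) * s + v (mnr M a b) := by
    intro a b
    have h1 : x ^ (k + 1) * mnr M a b = Matrix.det (Matrix.of fun i j =>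
        cond M i0 j0 (a i) (b j) + M (a i) j0 * M i0 (b j)) := by
      have h2 := Matrix.det_mul_column (fun _ : Fin (k + 1) => x)
        (Matrix.of fun i j => M (a i) (b j))
      rw [Finset.prod_const, Finset.card_univ, Fintype.card_fin] at h2
      unfold mnr
      rw [← h2]
      congr 1
      ext i j
      simp only [Matrix.of_apply, cond]
      ring
    have h3 : v (x ^ (k + 1) * mnr M a b) = ((k + 1 : ℕ) : ℕ∞) * s + v (mnr M a b) := by
      rw [v.map_mul, AddValuation.map_pow, nsmul_eq_mul]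
    rw [← h3, h1, bord (fun j => M i0 (b j)) (fun i => M (a i) j0)
      (fun i j => cond M i0 j0 (a i) (b j)), Matrix.det_succ_column_zero]
    apply v_sum_le
    intro i _
    rw [v.map_mul, v.map_mul, v_pow_neg_one, zero_add]
    refine Fin.cases ?_ (fun i => ?_) i
    · -- the corner
      simp only [Matrix.of_apply, Fin.cons_zero, v.map_one, zero_add]
      have h4 : s + s + ee v (cond M i0 j0) k ≤
          v (Matrix.det (Matrix.of fun i j => cond M i0 j0 (a i) (b j))) := by
        apply lap_row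
        · intro j
          exact v_cond_ge v M i0 j0 h _ _
        · intro j
          exact ee_le v (cond M i0 j0) (fun i => a i.succ) (fun l => b (j.succAbove l))
      refine h4.trans (le_of_eq ?_)
      congr 2
    · rw [add_assoc]
      apply add_le_add
      · simp only [Matrix.of_apply, Fin.cons_succ, Fin.cons_zero, AddValuation.map_neg]
        exact h _ _
      · apply lap_row
        · intro j
          have h5 : (Matrix.of (Fin.cons (Fin.cons 1 (fun j => M i0 (b j)) : Fin (k + 2) → R)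
            (fun i => (Fin.cons (-M (a i) j0) (fun j => cond M i0 j0 (a i) (b j)) :
              Fin (k + 2) → R)) : Fin (k + 2) → Fin (k + 2) → R)).submatrix
                (Fin.succAbove i.succ) Fin.succ 0 j = M i0 (b j) := by
            simp [Matrix.submatrix]
          rw [h5]
          exact h _ _
        · intro j
          have h6 := ee_le v (cond M i0 j0) (fun l => a (i.succAbove l))
            (fun l => b (j.succAbove l))
          refine h6.trans (le_of_eq ?_)
          unfold mnr
          congr 2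
          ext l l'
          simp [Matrix.submatrix]
  by_cases hne : Nonempty (Fin (k + 1) → ι) ∧ Nonempty (Fin (k + 1) → κ)
  · obtain ⟨⟨a0⟩, ⟨b0⟩⟩ := hne
    have : Nonempty ι := ⟨i0⟩
    have : Nonempty κ := ⟨j0⟩
    obtain ⟨a, b, hab⟩ := ee_attained v M (k + 1)
    rw [← hab]
    exact key a b
  · exact absurd ⟨⟨fun _ => i0⟩, ⟨fun _ => j0⟩⟩ hne

/-- Every minor of positive size is at least as divisible as the entries. -/
theorem ee_ge (M : ι → κ → R) (s : ℕ∞) (h : ∀ i j, s ≤ v (M i j)) (k : ℕ) :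
    s ≤ ee v M (k + 1) := by
  apply le_ee
  intro a b
  unfold mnr
  rw [Matrix.det_succ_row_zero]
  apply v_sum_le
  intro j _
  rw [v.map_mul, v.map_mul]
  calc s ≤ v (M (a 0) (b j)) := h _ _
    _ ≤ _ := by
      refine le_trans ?_ (le_self_add)
      exact le_add_self

/-- The minima of the valuations of the minors are convex. -/
theorem ee_convex [Nonempty ι] [Nonempty κ] (n : ℕ) : ∀ (M : ι → κ → R),
    2 * ee v M (n + 1) ≤ ee v M (n + 2) + ee v M n := by
  induction n with
  | zero =>
    intro M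
    obtain ⟨⟨i0, j0⟩, h⟩ := exists_min (fun p : ι × κ => v (M p.1 p.2))
    have h' : ∀ i j, v (M i0 j0) ≤ v (M i j) := fun i j => h (i, j)
    have h0 : ee v M 1 ≤ v (M i0 j0) := by
      refine (ee_le v M (fun _ => i0) (fun _ => j0)).trans (le_of_eq ?_)
      unfold mnr
      rw [Matrix.det_fin_one]
      rfl
    have h1 : v (M i0 j0) + v (M i0 j0) ≤ ee v M 2 := by
      apply le_ee
      intro a b
      unfold mnr
      rw [Matrix.det_fin_two]
      refine le_trans (le_min ?_ ?_) (AddValuation.map_sub v _ _)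
      · rw [v.map_mul]; exact add_le_add (h' _ _) (h' _ _)
      · rw [v.map_mul]; exact add_le_add (h' _ _) (h' _ _)
    rw [ee_zero, add_zero, two_mul]
    exact (add_le_add h0 h0).trans h1
  | succ n ih =>
    intro M
    obtain ⟨⟨i0, j0⟩, h⟩ := exists_min (fun p : ι × κ => v (M p.1 p.2))
    have h' : ∀ i j, v (M i0 j0) ≤ v (M i j) := fun i j => h (i, j)
    by_cases hs : v (M i0 j0) = ⊤
    · have h1 : ee v M (n + 1 + 2) = ⊤ := by
        have := ee_ge v M ⊤ (fun i j => by rw [← hs]; exact h' i j) (n + 2)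
        exact top_le_iff.1 this
      rw [h1, top_add]
      exact le_top
    · obtain ⟨s, hs'⟩ := ENat.ne_top_iff_exists.1 hs
      have e : ∀ k, ((k + 1 : ℕ) : ℕ∞) * v (M i0 j0) + ee v M (k + 1) =
          v (M i0 j0) + v (M i0 j0) + ee v (cond M i0 j0) k := by
        intro k
        apply le_antisymm
        · have := cond_A1 v M i0 j0 k
          calc ((k + 1 : ℕ) : ℕ∞) * v (M i0 j0) + ee v M (k + 1)
              = v (M i0 j0) + ((k : ℕ∞) * v (M i0 j0) + ee v M (k + 1)) := by
                push_cast; ring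
            _ ≤ v (M i0 j0) + (v (M i0 j0) + ee v (cond M i0 j0) k) := by gcongr
            _ = _ := by ring
        · exact cond_A2 v M i0 j0 h' k
      have e0 := e n
      have e1 := e (n + 1)
      have e2 := e (n + 2)
      have hI := ih (cond M i0 j0)
      rw [← hs'] at e0 e1 e2
      set A := ee v M (n + 1)
      set B := ee v M (n + 1 + 1)
      set C := ee v M (n + 1 + 2)
      set A' := ee v (cond M i0 j0) n
      set B' := ee v (cond M i0 j0) (n + 1)
      set C' := ee v (cond M i0 j0) (n + 2)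
      have h1 : (((2 * n + 4) * s : ℕ) : ℕ∞) + 2 * B ≤
          (((2 * n + 4) * s : ℕ) : ℕ∞) + (C + A) := by
        calc (((2 * n + 4) * s : ℕ) : ℕ∞) + 2 * B
            = 2 * (((n + 1 + 1 : ℕ) : ℕ∞) * s + B) := by push_cast; ring
          _ = 2 * (s + s + B') := by rw [e1]
          _ = 4 * s + 2 * B' := by ring
          _ ≤ 4 * s + (C' + A') := by gcongr
          _ = (s + s + C') + (s + s + A') := by ring
          _ = (((n + 2 + 1 : ℕ) : ℕ∞) * s + C) + (((n + 1 : ℕ) : ℕ∞) * s + A) := by
              rw [← e2, ← e0]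
          _ = (((2 * n + 4) * s : ℕ) : ℕ∞) + (C + A) := by push_cast; ring
      exact (ENat.add_le_add_iff_left (ENat.natCast_ne_top _)).1 h1

end GH.Pot.SmithA
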