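import Pool.Agent.GH.Pot.Defs
import Pool.Agent.GH.Pot.SmithA

/-! Convexity of determinantal divisors. -/

noncomputable section

namespace GH.Pot

/-- Convexity of the determinantal divisors, for a prime `π` of a domain `S`. -/
theorem minor_convex {S ι κ : Type*} [CommRing S] [IsDomain S] {π : S} (hπ : Prime π)
    (A : ι → κ → S) {n : ℕ} (a : Fin (n + 2) → ι) (b : Fin (n + 2) → κ)
    (a' : Fin n → ι) (b' : Fin n → κ) :
    ∃ (a'' : Fin (n + 1) → ι) (b'' : Fin (n + 1) → κ),
      2 * emultiplicity π (minor A a'' b'') ≤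
        emultiplicity π (minor A a b) + emultiplicity π (minor A a' b') := by
  classical
  have : Nonempty ι := ⟨a 0⟩
  have : Nonempty κ := ⟨b 0⟩
  obtain ⟨a'', b'', h⟩ := SmithA.ee_attained (multiplicity_addValuation hπ) A (n + 1)
  refine ⟨a'', b'', ?_⟩
  have h1 := SmithA.ee_convex (multiplicity_addValuation hπ) n A
  rw [← h] at h1
  refine h1.trans (add_le_add ?_ ?_)
  · exact SmithA.ee_le (multiplicity_addValuation hπ) A a b
  · exact SmithA.ee_le (multiplicity_addValuation hπ) A a' b'

end GH.Pot
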