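import Pool.Agent.GH.Pot.Gv

/-! Superharmonicity (E3). -/

open Polynomial

noncomputable section

namespace GH.Pot

variable {p : ℕ} [Fact p.Prime]

theorem toZMod_eq_zero_iff (a : ℤ_[p]) : PadicInt.toZMod a = 0 ↔ (p : ℤ_[p]) ∣ a := by
  rw [← RingHom.mem_ker, PadicInt.ker_toZMod, PadicInt.maximalIdeal_eq_span_p,
    Ideal.mem_span_singleton]

/-- reduction mod `p` -/
def red (Q : ℤ_[p][X]) : (ZMod p)[X] := Q.map PadicInt.toZMod

theorem red_eq_zero_iff (Q : ℤ_[p][X]) : red Q = 0 ↔ C (p : ℤ_[p]) ∣ Q := by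
  rw [C_dvd_iff_dvd_coeff]
  unfold red
  constructor
  · intro h i
    have := congrArg (fun q => q.coeff i) h
    simp only [coeff_map, coeff_zero] at this
    exact (toZMod_eq_zero_iff _).1 this
  · intro h
    ext i
    rw [coeff_map, coeff_zero]
    exact (toZMod_eq_zero_iff _).2 (h i)

theorem super_child (Q : ℤ_[p][X]) (hQ : ¬ C (p : ℤ_[p]) ∣ Q) (ε : ℕ) :
    emultiplicity (C (p : ℤ_[p])) (Q.comp (C (ε : ℤ_[p]) + C (p : ℤ_[p]) * X)) ≤
      ((red Q).rootMultiplicity (ε : ZMod p) : ℕ∞) := by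
  have hp0 : (p : ℤ_[p]) ≠ 0 := PadicInt.prime_p.ne_zero
  have h0 : red Q ≠ 0 := fun h => hQ ((red_eq_zero_iff Q).1 h)
  set m := (red Q).rootMultiplicity (ε : ZMod p) with hm
  rw [rootMultiplicity_eq_natTrailingDegree] at hm
  have h1 : (red Q).comp (X + C (ε : ZMod p)) ≠ 0 := by
    intro h
    rw [comp_eq_zero_iff] at h
    rcases h with h | h
    · exact h0 h
    · have h2 := congrArg (fun q : (ZMod p)[X] => q.coeff 1) h.2
      simp only [coeff_add, coeff_X_one, coeff_C_succ, add_zero] at h2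
      exact one_ne_zero h2
  have h2 : ((red Q).comp (X + C (ε : ZMod p))).coeff m ≠ 0 := by
    rw [hm]
    exact trailingCoeff_nonzero_iff_nonzero.2 h1
  have h3 : (red Q).comp (X + C (ε : ZMod p)) =
      (Q.comp (X + C (ε : ℤ_[p]))).map PadicInt.toZMod := by
    unfold red
    rw [map_comp]
    simp
  rw [h3, coeff_map, Ne, toZMod_eq_zero_iff] at h2
  have h4 : Q.comp (C (ε : ℤ_[p]) + C (p : ℤ_[p]) * X) =
      (Q.comp (X + C (ε : ℤ_[p]))).comp (C (p : ℤ_[p]) * X) := by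
    rw [comp_assoc]
    congr 1
    simp only [add_comp, X_comp, C_comp]
    ring
  by_contra hlt
  rw [not_le] at hlt
  have h5 : (((m + 1 : ℕ)) : ℕ∞) ≤
      emultiplicity (C (p : ℤ_[p])) (Q.comp (C (ε : ℤ_[p]) + C (p : ℤ_[p]) * X)) := by
    push_cast
    exact Order.add_one_le_of_lt hlt
  rw [← pow_dvd_iff_le_emultiplicity, ← C_pow, C_dvd_iff_dvd_coeff] at h5
  have h6 := h5 m
  rw [h4, comp_C_mul_X_coeff, pow_succ, mul_comm] at h6
  exact h2 ((mul_dvd_mul_iff_right (pow_ne_zero m hp0)).1 h6)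

theorem super_sum (q : (ZMod p)[X]) :
    ∑ ε ∈ Finset.range p, q.rootMultiplicity (ε : ZMod p) ≤ q.natDegree := by
  classical
  have hp : p.Prime := Fact.out
  have hinj : ∀ a ∈ Finset.range p, ∀ b ∈ Finset.range p, (a : ZMod p) = (b : ZMod p) → a = b := by
    intro a ha b hb hab
    rw [Finset.mem_range] at ha hb
    have h1 := (ZMod.natCast_eq_natCast_iff' a b p).1 hab
    rwa [Nat.mod_eq_of_lt ha, Nat.mod_eq_of_lt hb] at h1
  calc ∑ ε ∈ Finset.range p, q.rootMultiplicity (ε : ZMod p)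
      = ∑ a ∈ (Finset.range p).image (fun n : ℕ => (n : ZMod p)), q.rootMultiplicity a := by
        rw [Finset.sum_image hinj]
    _ ≤ ∑ a : ZMod p, q.rootMultiplicity a :=
        Finset.sum_le_sum_of_subset (Finset.subset_univ _)
    _ = ∑ a : ZMod p, q.roots.count a := by
        apply Finset.sum_congr rfl
        intro a _
        rw [count_roots]
    _ = q.roots.card := Multiset.sum_count_eq_card (fun a _ => Finset.mem_univ a)
    _ ≤ q.natDegree := card_roots' q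

/-- (E3): for `p(T) = p^{-v} P(c + p^ν T)` primitive with reduction `p̄` of degree `d`:
`v - v_par ≥ d ≥ ∑_ε ord_{T = ε} p̄ ≥ ∑_ε (v_ε - v)`. -/
theorem gv_super {P : ℤ_[p][X]} (hP : P ≠ 0) (c ν : ℕ) :
    ∑ ε ∈ Finset.range p, (((gv p (c + ε * p ^ (ν + 1)) (ν + 2) P).toNat : ℤ) -
      (gv p c (ν + 1) P).toNat) ≤ ((gv p c (ν + 1) P).toNat : ℤ) - (gv p c ν P).toNat := by
  have hp0 : (p : ℤ_[p]) ≠ 0 := PadicInt.prime_p.ne_zero
  obtain ⟨v, hv⟩ := ENat.ne_top_iff_exists.1 (gv_ne_top hP c (ν + 1))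
  obtain ⟨w, hw⟩ := ENat.ne_top_iff_exists.1 (gv_ne_top hP c ν)
  rw [← hv, ← hw, ENat.toNat_natCast, ENat.toNat_natCast]
  obtain ⟨Q, hQ⟩ := (le_gv_iff c (ν + 1) v P).1 hv.le
  obtain ⟨S, hS⟩ := (le_gv_iff c ν w P).1 hw.le
  have hnd : ¬ C (p : ℤ_[p]) ∣ Q := by
    rintro ⟨Q', rfl⟩
    have h1 : ((v + 1 : ℕ) : ℕ∞) ≤ gv p c (ν + 1) P := by
      rw [le_gv_iff, hQ, pow_succ, C_mul]
      exact ⟨Q', by ring⟩
    rw [← hv, Nat.cast_le] at h1
    omega
  -- the parent
  have hpar : w + (red Q).natDegree ≤ v := by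
    set d := (red Q).natDegree with hd
    have h0 : red Q ≠ 0 := fun h => hnd ((red_eq_zero_iff Q).1 h)
    have h1 : ¬ (p : ℤ_[p]) ∣ Q.coeff d := by
      have h2 : (red Q).coeff d ≠ 0 := by
        rw [hd]
        exact leadingCoeff_ne_zero.2 h0
      unfold red at h2
      rw [coeff_map, Ne, toZMod_eq_zero_iff] at h2
      exact h2
    have h2 : sh p c (ν + 1) P = (sh p c ν P).comp (C (p : ℤ_[p]) * X) := by
      unfold sh
      rw [comp_assoc]
      congr 1
      simp only [add_comp, C_comp, mul_comp, X_comp, pow_succ, C_mul]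
      ring
    have h3 := congrArg (fun q : ℤ_[p][X] => q.coeff d) h2
    rw [hQ, hS, comp_C_mul_X_coeff, coeff_C_mul, coeff_C_mul] at h3
    have h4 : (p : ℤ_[p]) ^ (w + d) ∣ (p : ℤ_[p]) ^ v * Q.coeff d := by
      rw [h3, pow_add]
      exact ⟨S.coeff d, by ring⟩
    have h5 := PadicInt.prime_p.pow_dvd_of_dvd_mul_right _ h1 h4
    exact (pow_dvd_pow_iff hp0 PadicInt.prime_p.not_isUnit).1 h5
  -- the children
  have hch : ∀ ε : ℕ, ((gv p (c + ε * p ^ (ν + 1)) (ν + 2) P).toNat : ℤ) - v ≤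
      (red Q).rootMultiplicity (ε : ZMod p) := by
    intro ε
    have h1 : sh p (c + ε * p ^ (ν + 1)) (ν + 2) P =
        C ((p : ℤ_[p]) ^ v) * Q.comp (C (ε : ℤ_[p]) + C (p : ℤ_[p]) * X) := by
      have h2 : sh p (c + ε * p ^ (ν + 1)) (ν + 2) P =
          (sh p c (ν + 1) P).comp (C (ε : ℤ_[p]) + C (p : ℤ_[p]) * X) := by
        unfold sh
        rw [comp_assoc]
        congr 1
        simp only [add_comp, C_comp, mul_comp, X_comp]
        push_cast
        simp only [pow_succ, C_mul, C_add]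
        ring
      rw [h2, hQ, mul_comp, C_comp]
    have h3 : gv p (c + ε * p ^ (ν + 1)) (ν + 2) P ≤
        ((v + (red Q).rootMultiplicity (ε : ZMod p) : ℕ) : ℕ∞) := by
      unfold gv
      rw [h1, emultiplicity_mul prime_C, C_pow, emultiplicity_pow_self
        prime_C.ne_zero prime_C.not_isUnit]
      push_cast
      gcongr
      exact super_child Q hnd ε
    have h4 := ENat.toNat_le_toNat h3 (ENat.natCast_ne_top _)
    rw [ENat.toNat_natCast] at h4
    omega
  calc ∑ ε ∈ Finset.range p, (((gv p (c + ε * p ^ (ν + 1)) (ν + 2) P).toNat : ℤ) - v)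
      ≤ ∑ ε ∈ Finset.range p, ((red Q).rootMultiplicity (ε : ZMod p) : ℤ) :=
        Finset.sum_le_sum (fun ε _ => hch ε)
    _ = ((∑ ε ∈ Finset.range p, (red Q).rootMultiplicity (ε : ZMod p) : ℕ) : ℤ) := by
        push_cast; rfl
    _ ≤ (((red Q).natDegree : ℕ) : ℤ) := by exact_mod_cast super_sum (red Q)
    _ ≤ (v : ℤ) - w := by omega

end GH.Pot
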