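import Mathlib

/-! The abstract descent on the tree (row P5 of GH-POT). -/

noncomputable section

namespace GH.Pot

/-- Among `p` children one has `σ ≥ 1` if the sum is `≥ 1`. -/
theorem tree_child {p : ℕ} (g : ℕ → ℤ) (h : 1 ≤ ∑ ε ∈ Finset.range p, g ε) :
    ∃ ε, ε < p ∧ 1 ≤ g ε := by
  by_contra hc
  push Not at hc
  have : ∑ ε ∈ Finset.range p, g ε ≤ ∑ ε ∈ Finset.range p, (0 : ℤ) :=
    Finset.sum_le_sum fun ε hε => by
      have := hc ε (Finset.mem_range.1 hε)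
      omega
  simp only [Finset.sum_const_zero] at this
  omega

/-- One step of Theorem 1 (note 5024): `f`, `e`, `h` are functions on the nodes `(c, ν)`, `V` is
the set of nodes where `n - 1` is a strict vertex. -/
theorem tree_step {p : ℕ} (hp : 1 ≤ p) (f e h : ℕ → ℕ → ℤ) (V : ℕ → ℕ → Prop) (K : ℕ)
    (cf : ∀ c c' ν, c ≡ c' [MOD p ^ ν] → f c ν = f c' ν)
    (ce : ∀ c c' ν, c ≡ c' [MOD p ^ ν] → e c ν = e c' ν)
    (ch : ∀ c c' ν, c ≡ c' [MOD p ^ ν] → h c ν = h c' ν)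
    (harm : ∀ c ν, ∑ ε ∈ Finset.range p, (f (c + ε * p ^ (ν + 1)) (ν + 2) - f c (ν + 1)) =
      f c (ν + 1) - f c ν)
    (sup : ∀ c ν, ∑ ε ∈ Finset.range p, (e (c + ε * p ^ (ν + 1)) (ν + 2) - e c (ν + 1)) ≤
      e c (ν + 1) - e c ν)
    (mono : ∀ c ν, e c ν ≤ e c (ν + 1))
    (root : ∀ c, h c 0 ≤ e c 0)
    (hV : ∀ c ν, ¬ V c ν → h c ν ≤ e c ν)
    (k1 : ∀ c ν, V c (ν + 1) → f c ν - h c ν ≤ f c (ν + 1) - h c (ν + 1))
    (k2 : ∀ c ν, V c ν → f c (ν + 1) - h c (ν + 1) ≤ f c ν - h c ν + 1)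
    (deep : ∀ c ν, K ≤ ν → V c (ν + 1) → f c ν < f c (ν + 1) → h c (ν + 1) ≤ e c (ν + 1))
    (c ν : ℕ) : h c ν ≤ e c ν := by
  -- the state of the descent at the node `(c, ν + 1)`
  let S : ℕ → ℕ → Prop := fun c ν => e c (ν + 1) < h c (ν + 1) ∧
    1 ≤ (f c (ν + 1) - e c (ν + 1)) - (f c ν - e c ν)
  have step : ∀ c ν, S c ν → ∃ c', S c' (ν + 1) := by
    rintro c ν ⟨h1, h2⟩
    have hsum : 1 ≤ ∑ ε ∈ Finset.range p,
        ((f (c + ε * p ^ (ν + 1)) (ν + 2) - f c (ν + 1)) -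
          (e (c + ε * p ^ (ν + 1)) (ν + 2) - e c (ν + 1))) := by
      rw [Finset.sum_sub_distrib, harm c ν]
      have := sup c ν
      omega
    obtain ⟨ε, -, hε⟩ := tree_child _ hsum
    have hcong : c + ε * p ^ (ν + 1) ≡ c [MOD p ^ (ν + 1)] := by
      unfold Nat.ModEq
      rw [Nat.add_mul_mod_self_right]
    have hf := cf _ _ _ hcong
    have he := ce _ _ _ hcong
    have hh := ch _ _ _ hcong
    have hVc : V (c + ε * p ^ (ν + 1)) (ν + 1) := by
      by_contra hn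
      have := hV _ _ hn
      omega
    have hk := k2 _ _ hVc
    refine ⟨c + ε * p ^ (ν + 1), ?_, ?_⟩
    · show e (c + ε * p ^ (ν + 1)) (ν + 2) < h (c + ε * p ^ (ν + 1)) (ν + 2)
      have e1 : ν + 1 + 1 = ν + 2 := rfl
      rw [e1] at hk
      omega
    · show 1 ≤ (f (c + ε * p ^ (ν + 1)) (ν + 2) - e (c + ε * p ^ (ν + 1)) (ν + 2)) -
        (f (c + ε * p ^ (ν + 1)) (ν + 1) - e (c + ε * p ^ (ν + 1)) (ν + 1))
      omega
  have far : ∀ k c ν, S c ν → ∃ c', S c' (ν + k) := by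
    intro k
    induction k with
    | zero => exact fun c ν hS => ⟨c, hS⟩
    | succ k ih =>
      intro c ν hS
      obtain ⟨c', hc'⟩ := ih c ν hS
      obtain ⟨c'', hc''⟩ := step c' _ hc'
      exact ⟨c'', hc''⟩
  have noS : ∀ c ν, ¬ S c ν := by
    intro c ν hS
    obtain ⟨c', h1, h2⟩ := far K c ν hS
    have hVc : V c' (ν + K + 1) := by
      by_contra hn
      have := hV _ _ hn
      omega
    have hm := mono c' (ν + K)
    have := deep c' (ν + K) (by omega) hVc (by omega)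
    omega
  induction ν with
  | zero => exact root c
  | succ ν ih =>
    by_contra hc
    push Not at hc
    have hVc : V c (ν + 1) := by
      by_contra hn
      have := hV _ _ hn
      omega
    have hk := k1 c ν hVc
    exact noS c ν ⟨hc, by omega⟩

end GH.Pot
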